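import Pool.Agent.Helper89.Layer1

/-!
# Real solutions of the program of a formula
-/

namespace Pool.Agent.Helper89

/-- value of a reference, given the values of the block and of the operands -/
def RRef.v (a : ℕ → ℝ) (L M X : ℝ) : RRef → ℝ
  | .one => 1
  | .zero => 0
  | .cur j => a j
  | .lft => L
  | .rgt => M
  | .hom => X

def QH (a : ℕ → ℝ) (L M X : ℝ) (q : Quad RRef) : Prop :=
  q.i.v a L M X * q.j.v a L M X + q.k.v a L M X = q.l.v a L M X

theorem exists_sol (t : Tok) (L M X : ℝ) : ∃ a : ℕ → ℝ, ∀ q ∈ cons (some t), QH a L M X q := by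
  cases t with
  | tick => exact ⟨fun _ => 0, by simp [cons]⟩
  | var => exact ⟨fun _ => X, by simp [cons, QH, RRef.v]⟩
  | zero => exact ⟨fun _ => 0, by simp [cons, QH, RRef.v]⟩
  | dig0 => exact ⟨fun _ => M + M, by simp [cons, QH, RRef.v]⟩
  | dig1 => exact ⟨fun j => [M + M + 1, M + M].getD j 0, by simp [cons, QH, RRef.v]⟩
  | neg => exact ⟨fun _ => -M, by simp [cons, QH, RRef.v]⟩
  | add => exact ⟨fun _ => L + M, by simp [cons, QH, RRef.v]⟩
  | mul => exact ⟨fun _ => L * M, by simp [cons, QH, RRef.v]⟩
  | eq =>
    by_cases h : L = M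
    · refine ⟨fun j => [1, 0, 0].getD j 0, ?_⟩
      simp [cons, QH, RRef.v, h]
    · refine ⟨fun j => [0, L - M, (L - M)⁻¹].getD j 0, ?_⟩
      have : L - M ≠ 0 := sub_ne_zero.2 h
      simp [cons, QH, RRef.v, this]
  | lt =>
    by_cases h : L < M
    · have hw : 0 < M - L := sub_pos.2 h
      have hs := Real.mul_self_sqrt hw.le
      have hs0 : Real.sqrt (M - L) ≠ 0 := (Real.sqrt_pos.2 hw).ne'
      refine ⟨fun j => [1, M - L, 0, M - L, Real.sqrt (M - L), (Real.sqrt (M - L))⁻¹].getD j 0, ?_⟩
      simp [cons, QH, RRef.v, hs, hs0]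
    · have hw : 0 ≤ L - M := by linarith
      have hs := Real.mul_self_sqrt hw
      refine ⟨fun j => [0, M - L, Real.sqrt (L - M), 0, 0, 0].getD j 0, ?_⟩
      simp [cons, QH, RRef.v, hs]
  | le =>
    by_cases h : L ≤ M
    · have hw : 0 ≤ M - L := by linarith
      have hs := Real.mul_self_sqrt hw
      refine ⟨fun j => [1, L - M, Real.sqrt (M - L), 0, 0, 0].getD j 0, ?_⟩
      simp [cons, QH, RRef.v, hs]
    · have hw : 0 < L - M := by linarith
      have hs := Real.mul_self_sqrt hw.le
      have hs0 : Real.sqrt (L - M) ≠ 0 := (Real.sqrt_pos.2 hw).ne'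
      refine ⟨fun j => [0, L - M, 0, L - M, Real.sqrt (L - M), (Real.sqrt (L - M))⁻¹].getD j 0, ?_⟩
      simp [cons, QH, RRef.v, hs, hs0]
  | not => exact ⟨fun _ => 1 - M, by simp [cons, QH, RRef.v]⟩
  | and => exact ⟨fun _ => L * M, by simp [cons, QH, RRef.v]⟩
  | or => exact ⟨fun j => [L + M - L * M, L + M].getD j 0, by simp [cons, QH, RRef.v]⟩

theorem exists_sol' (t : Option Tok) (L M X : ℝ) :
    ∃ a : ℕ → ℝ, t ≠ none → ∀ q ∈ cons t, QH a L M X q := by
  rcases t with _ | t
  · exact ⟨fun _ => 0, fun h => absurd rfl h⟩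
  · obtain ⟨a, ha⟩ := exists_sol t L M X
    exact ⟨a, fun _ => ha⟩

noncomputable def sol (t : Option Tok) (L M X : ℝ) : ℕ → ℝ := (exists_sol' t L M X).choose

theorem sol_spec (t : Tok) (L M X : ℝ) : ∀ q ∈ cons (some t), QH (sol (some t) L M X) L M X q :=
  (exists_sol' (some t) L M X).choose_spec (by simp)

/-- values of the blocks of a program, for given values of the variables -/
noncomputable def nval (B : ℕ → Option Tok × Env) (x : ℕ → ℝ) (p : ℕ) : ℝ :=
  sol (B p).1 (if _h : (B p).2.l < p then nval B x (B p).2.l else 0)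
    (if _h : (B p).2.r < p then nval B x (B p).2.r else 0) (x (B p).2.h) 0
termination_by p

noncomputable def rhoOf (B : ℕ → Option Tok × Env) (x : ℕ → ℝ) (p j : ℕ) : ℝ :=
  if j = 6 then x p else
    sol (B p).1 (if (B p).2.l < p then nval B x (B p).2.l else 0)
      (if (B p).2.r < p then nval B x (B p).2.r else 0) (x (B p).2.h) j

theorem rhoOf_zero (B : ℕ → Option Tok × Env) (x : ℕ → ℝ) (p : ℕ) :
    rhoOf B x p 0 = nval B x p := by
  rw [nval]
  simp [rhoOf]

theorem satB_of_sol (t : Tok) (v : Env) (ρ : ℕ → ℕ → ℝ) (L M X : ℝ) (a : ℕ → ℝ)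
    (hcur : ∀ j, j ≠ 6 → ρ v.p j = a j) (hl : arity t = 2 → ρ v.l 0 = L)
    (hr : arity t ≠ 0 → ρ v.r 0 = M) (hh : ρ v.h 6 = X)
    (hq : ∀ q ∈ cons (some t), QH a L M X q) : SatB ρ (some t, v) := by
  have h0 := hcur 0 (by norm_num)
  have h1 := hcur 1 (by norm_num)
  have h2 := hcur 2 (by norm_num)
  have h3 := hcur 3 (by norm_num)
  have h4 := hcur 4 (by norm_num)
  have h5 := hcur 5 (by norm_num)
  cases t <;>
    simp only [SatB, cons, Quad.Holds, RRef.val, QH, RRef.v, arity, List.forall_mem_cons,
      List.not_mem_nil, false_imp_iff, implies_true, and_true, ne_eq, not_true_eq_false,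
      OfNat.ofNat_ne_zero, one_ne_zero, not_false_eq_true, forall_true_left,
      OfNat.zero_ne_ofNat, OfNat.one_ne_ofNat] at * <;>
    simp only [*, and_self]

/-- operands of the block are at earlier positions -/
def GoodB (b : Option Tok × Env) : Prop :=
  ∀ t, b.1 = some t → (arity t = 2 → b.2.l < b.2.p) ∧ (arity t ≠ 0 → b.2.r < b.2.p)

theorem good_unary {a : List Tok} {s : St} (h : nextL a s = s.push a.length) (ha : 0 < a.length)
    {t : Tok} (ht : arity t = 1)
    (hs : ∀ b ∈ blks a s, GoodB b) : ∀ b ∈ blks (a ++ [t]) s, GoodB b := by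
  intro b hb
  rw [blks_append, List.mem_append] at hb
  rcases hb with hb | hb
  · exact hs b hb
  · rw [h] at hb
    simp only [blks, List.mem_singleton] at hb
    subst hb
    rintro t' ht'
    simp only [Option.some.injEq] at ht'
    subst ht'
    simp only [envOf, St.push, ht]
    constructor
    · intro h; omega
    · intro _
      simp only [one_ne_zero, if_false, List.headD_cons]
      omega

theorem good_binary {a b : List Tok} {s : St} (h : nextL a s = s.push a.length)
    (ha : 0 < a.length) (hb0 : 0 < b.length)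
    (hb : nextL b (s.push a.length) = (s.push a.length).push b.length)
    {t : Tok} (ht : arity t = 2)
    (hs1 : ∀ c ∈ blks a s, GoodB c) (hs2 : ∀ c ∈ blks b (s.push a.length), GoodB c) :
    ∀ c ∈ blks (a ++ b ++ [t]) s, GoodB c := by
  intro c hc
  rw [blks_append, List.mem_append, blks_append, List.mem_append, nextL_append, h, hb] at hc
  rcases hc with (hc | hc) | hc
  · exact hs1 c hc
  · exact hs2 c hc
  · simp only [blks, List.mem_singleton] at hc
    subst hc
    rintro t' ht'
    simp only [Option.some.injEq] at ht'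
    subst ht'
    simp only [envOf, St.push, ht]
    constructor
    · intro _
      simp only [if_true, List.tail_cons, List.headD_cons]
      omega
    · intro _
      simp only [OfNat.ofNat_ne_zero, if_false, List.headD_cons]
      omega

theorem good_leaf (t : Tok) (ht : arity t = 0) (s : St) : GoodB (some t, envOf t s) := by
  rintro t' ht'
  simp only [Option.some.injEq] at ht'
  subst ht'
  constructor <;> intro h <;> omega

theorem good_ticks (i : ℕ) (s : St) : ∀ b ∈ blks (List.replicate i .tick) s, GoodB b := by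
  induction i generalizing s with
  | zero => intro b hb; simp [blks] at hb
  | succ i ih =>
    intro b hb
    simp only [List.replicate_succ, blks, List.mem_cons] at hb
    rcases hb with rfl | hb
    · exact good_leaf _ rfl s
    · exact ih _ b hb

theorem good_encNat (n : ℕ) (s : St) : ∀ b ∈ blks (encNat n) s, GoodB b := by
  induction n using Nat.strong_induction_on with
  | _ n ih =>
    by_cases h : n = 0
    · subst h
      rw [encNat_zero]
      intro b hb
      simp only [blks, List.mem_singleton] at hb
      subst hb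
      exact good_leaf _ rfl s
    · rw [encNat_pos h]
      exact good_unary (nextL_encNat _ s) (encNat_length _) (by split_ifs <;> rfl)
        (ih _ (by omega))

theorem good_encTerm (t : PTerm) (s : St) (hs : s.h = 0) : ∀ b ∈ blks t.enc s, GoodB b := by
  induction t generalizing s with
  | var i =>
    intro b hb
    rw [PTerm.enc, blks_append, List.mem_append] at hb
    rcases hb with hb | hb
    · exact good_ticks i s b hb
    · simp only [blks, List.mem_singleton] at hb
      subst hb
      exact good_leaf _ rfl _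
  | const n => exact good_encNat n s
  | neg t ih => exact good_unary (nextL_encTerm t s hs) t.enc_length rfl (ih s hs)
  | add a b iha ihb =>
    exact good_binary (nextL_encTerm a s hs) a.enc_length b.enc_length (nextL_encTerm b _ rfl) rfl
      (iha s hs) (ihb _ rfl)
  | mul a b iha ihb =>
    exact good_binary (nextL_encTerm a s hs) a.enc_length b.enc_length (nextL_encTerm b _ rfl) rfl
      (iha s hs) (ihb _ rfl)

theorem good_encFormula (φ : QFormula) (s : St) (hs : s.h = 0) :
    ∀ b ∈ blks φ.enc s, GoodB b := by
  induction φ generalizing s with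
  | eq a b =>
    exact good_binary (nextL_encTerm a s hs) a.enc_length b.enc_length (nextL_encTerm b _ rfl) rfl
      (good_encTerm a s hs) (good_encTerm b _ rfl)
  | lt a b =>
    exact good_binary (nextL_encTerm a s hs) a.enc_length b.enc_length (nextL_encTerm b _ rfl) rfl
      (good_encTerm a s hs) (good_encTerm b _ rfl)
  | le a b =>
    exact good_binary (nextL_encTerm a s hs) a.enc_length b.enc_length (nextL_encTerm b _ rfl) rfl
      (good_encTerm a s hs) (good_encTerm b _ rfl)
  | not φ ih => exact good_unary (nextL_encFormula φ s hs) φ.enc_length rfl (ih s hs)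
  | and a b iha ihb =>
    exact good_binary (nextL_encFormula a s hs) a.enc_length b.enc_length
      (nextL_encFormula b _ rfl) rfl (iha s hs) (ihb _ rfl)
  | or a b iha ihb =>
    exact good_binary (nextL_encFormula a s hs) a.enc_length b.enc_length
      (nextL_encFormula b _ rfl) rfl (iha s hs) (ihb _ rfl)

/-- **The program of a formula is solvable iff the formula is satisfiable.** -/
theorem exists_progSat_iff (φ : QFormula) :
    (∃ ρ, ProgSat (φ.enc.length + 1) (progOf φ.enc) ρ) ↔ ∃ x : ℕ → ℝ, φ.Holds x := by
  have hnx := nextL_encFormula φ ⟨0, [], 0⟩ rfl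
  have hfin : finEnv (nextL φ.enc ⟨0, [], 0⟩) = ⟨φ.enc.length, 0, φ.enc.length - 1, 0⟩ := by
    rw [hnx]
    simp [finEnv, St.push]
  constructor
  · rintro ⟨ρ, h⟩
    rw [progSat_iff] at h
    refine ⟨fun i => ρ i 6, ?_⟩
    have h1 : SatL ρ φ.enc ⟨0, [], 0⟩ := fun b hb => h b (List.mem_append_left _ hb)
    have h2 := formula_sound ρ φ ⟨0, [], 0⟩ rfl h1
    have h3 := h (none, finEnv (nextL φ.enc ⟨0, [], 0⟩)) (by simp [allBlks])
    rw [hfin] at h3
    simp [SatB, cons, Quad.Holds, RRef.val] at h3
    unfold lastVal at h2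
    simp only [zero_add] at h2
    rw [h3] at h2
    unfold tv at h2
    by_contra hc
    rw [if_neg hc] at h2
    exact one_ne_zero h2
  · rintro ⟨x, hx⟩
    refine ⟨rhoOf (progOf φ.enc) x, ?_⟩
    have hblk : SatL (rhoOf (progOf φ.enc) x) φ.enc ⟨0, [], 0⟩ := by
      intro b hb
      have hgood := good_encFormula φ ⟨0, [], 0⟩ rfl b hb
      obtain ⟨i, hi, rfl⟩ := List.mem_iff_getElem.1 hb
      have hi' : i < φ.enc.length := by rw [blks_length] at hi; exact hi
      have hB : progOf φ.enc i = (blks φ.enc ⟨0, [], 0⟩)[i] := by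
        rw [progOf_eq _ (by rw [allBlks_length]; omega)]
        simp only [allBlks]
        rw [List.getElem_append_left hi]
      have henv := progOf_env φ.enc (i := i) (by omega)
      have hsome : ∃ t, ((blks φ.enc ⟨0, [], 0⟩)[i]).1 = some t := by
        have : ∀ (ts : List Tok) (s : St), ∀ b ∈ blks ts s, ∃ t, b.1 = some t := by
          intro ts
          induction ts with
          | nil => intro s b hb; simp [blks] at hb
          | cons t ts ih =>
            intro s b hb
            simp only [blks, List.mem_cons] at hb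
            rcases hb with rfl | hb
            · exact ⟨t, rfl⟩
            · exact ih _ b hb
        exact this _ _ _ hb
      obtain ⟨t, ht⟩ := hsome
      rw [← hB] at ht hgood ⊢
      obtain ⟨hg1, hg2⟩ := hgood t ht
      obtain ⟨hp, -, -, -⟩ := henv
      have hsplit : progOf φ.enc i = (some t, (progOf φ.enc i).2) := Prod.ext ht rfl
      rw [hsplit]
      apply satB_of_sol t _ _
        (if (progOf φ.enc i).2.l < i then nval (progOf φ.enc) x (progOf φ.enc i).2.l else 0)
        (if (progOf φ.enc i).2.r < i then nval (progOf φ.enc) x (progOf φ.enc i).2.r else 0)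
        (x (progOf φ.enc i).2.h)
        (sol (some t)
          (if (progOf φ.enc i).2.l < i then nval (progOf φ.enc) x (progOf φ.enc i).2.l else 0)
          (if (progOf φ.enc i).2.r < i then nval (progOf φ.enc) x (progOf φ.enc i).2.r else 0)
          (x (progOf φ.enc i).2.h))
      · intro j hj
        rw [hp]
        simp only [rhoOf, if_neg hj, ht]
      · intro h
        have hlt := hg1 h
        rw [hp] at hlt
        rw [rhoOf_zero, if_pos hlt]
      · intro h
        have hlt := hg2 h
        rw [hp] at hlt
        rw [rhoOf_zero, if_pos hlt]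
      · simp [rhoOf]
      · exact sol_spec t _ _ _
    rw [progSat_iff]
    intro b hb
    simp only [allBlks, List.mem_append, List.mem_singleton] at hb
    rcases hb with hb | rfl
    · exact hblk b hb
    · have h2 := formula_sound _ φ ⟨0, [], 0⟩ rfl hblk
      unfold lastVal at h2
      simp only [zero_add] at h2
      have h3 : (fun i => rhoOf (progOf φ.enc) x i 6) = x := by
        funext i; simp [rhoOf]
      rw [h3] at h2
      unfold tv at h2
      rw [if_pos hx] at h2
      rw [hfin]
      simp [SatB, cons, Quad.Holds, RRef.val, h2]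

end Pool.Agent.Helper89
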