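import Pool.Agent.Helper89.Cmd

/-!
# Composition of polynomial-time computable functions

For Mathlib's `Turing.TM2ComputableInPolyTime`: the composition of two polynomial-time
computable functions is polynomial-time computable.
-/

namespace Pool.Agent.Helper89

open Turing

namespace Comp

/-! ### Lengths of stacks -/

section Len

variable {K : Type} [DecidableEq K] {Γ : K → Type} {Λ σ : Type}

/-- bound on the number of pushes of a statement -/
def pushes : TM2.Stmt Γ Λ σ → ℕ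
  | .push _ _ q => pushes q + 1
  | .peek _ _ q => pushes q
  | .pop _ _ q => pushes q
  | .load _ q => pushes q
  | .branch _ q r => pushes q + pushes r
  | .goto _ => 0
  | .halt => 0

theorem stepAux_len (q : TM2.Stmt Γ Λ σ) (v : σ) (S : ∀ k, List (Γ k)) (k : K) :
    ((TM2.stepAux q v S).stk k).length ≤ (S k).length + pushes q := by
  induction q generalizing v S with
  | push k' f q ih =>
    simp only [TM2.stepAux, pushes]
    refine (ih _ _).trans ?_
    by_cases h : k = k'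
    · subst h; simp; omega
    · rw [Function.update_of_ne h]; omega
  | peek k' f q ih => simp only [TM2.stepAux, pushes]; exact ih _ _
  | pop k' f q ih =>
    simp only [TM2.stepAux, pushes]
    refine (ih _ _).trans ?_
    by_cases h : k = k'
    · subst h; simp
    · rw [Function.update_of_ne h]
  | load f q ih => simp only [TM2.stepAux, pushes]; exact ih _ _
  | branch f q r ihq ihr =>
    simp only [TM2.stepAux, pushes]
    cases f v
    · refine (ihr _ _).trans ?_; omega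
    · refine (ihq _ _).trans ?_; omega
  | goto f => simp [TM2.stepAux, pushes]
  | halt => simp [TM2.stepAux, pushes]

theorem step_len {M : Λ → TM2.Stmt Γ Λ σ} {c : ℕ} (hc : ∀ l, pushes (M l) ≤ c)
    {a b : TM2.Cfg Γ Λ σ} (h : TM2.step M a = some b) (k : K) :
    (b.stk k).length ≤ (a.stk k).length + c := by
  rcases a with ⟨_ | l, v, S⟩
  · simp [TM2.step] at h
  · simp only [TM2.step, Option.some.injEq] at h
    subst h
    exact (stepAux_len _ _ _ _).trans (by have := hc l; simp only; omega)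

theorem flip_bind_none {α : Type} (f : α → Option α) (n : ℕ) :
    (flip bind f)^[n] (none : Option α) = none := by
  induction n with
  | zero => rfl
  | succ n ih => rw [Function.iterate_succ_apply]; exact ih

/-- first step of a computation -/
theorem steps_succ {M : Λ → TM2.Stmt Γ Λ σ} {n : ℕ} {a b : TM2.Cfg Γ Λ σ}
    (h : Cmd.Steps M (n + 1) a b) : ∃ c, TM2.step M a = some c ∧ Cmd.Steps M n c b := by
  unfold Cmd.Steps at h
  rw [Function.iterate_succ_apply] at h
  change (flip bind (TM2.step M))^[n] (TM2.step M a) = some b at h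
  cases hs : TM2.step M a with
  | none => rw [hs, flip_bind_none] at h; simp at h
  | some c => rw [hs] at h; exact ⟨c, rfl, h⟩

theorem steps_len {M : Λ → TM2.Stmt Γ Λ σ} {c : ℕ} (hc : ∀ l, pushes (M l) ≤ c) {n : ℕ}
    {a b : TM2.Cfg Γ Λ σ} (h : Cmd.Steps M n a b) (k : K) :
    (b.stk k).length ≤ (a.stk k).length + n * c := by
  induction n generalizing a with
  | zero =>
    have : some a = some b := h
    simp only [Option.some.injEq] at this
    subst this; simp
  | succ n ih =>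
    obtain ⟨d, h1, h2⟩ := steps_succ h
    have := step_len hc h1 k
    have := ih h2
    rw [Nat.add_mul]; omega

end Len

/-! ### The composed machine -/

section Machine

variable {K₁ K₂ : Type} [DecidableEq K₁] [DecidableEq K₂] {Γ₁ : K₁ → Type} {Γ₂ : K₂ → Type}
  {Λ₁ Λ₂ σ₁ σ₂ : Type} {B : Type}

/-- alphabets of the composed machine -/
abbrev GG (Γ₁ : K₁ → Type) (Γ₂ : K₂ → Type) (B : Type) : K₁ ⊕ (K₂ ⊕ Unit) → Type
  | .inl k => Γ₁ k
  | .inr (.inl k) => Γ₂ k
  | .inr (.inr _) => B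

/-- combined stacks -/
def comb (S₁ : ∀ k, List (Γ₁ k)) (S₂ : ∀ k, List (Γ₂ k)) (m : List B) :
    ∀ k, List (GG Γ₁ Γ₂ B k)
  | .inl k => S₁ k
  | .inr (.inl k) => S₂ k
  | .inr (.inr _) => m

theorem upd_l (S₁ : ∀ k, List (Γ₁ k)) (S₂ : ∀ k, List (Γ₂ k)) (m : List B) (k : K₁)
    (x : List (Γ₁ k)) : Function.update (comb S₁ S₂ m) (.inl k) x =
      comb (Function.update S₁ k x) S₂ m := by
  funext j
  rcases j with j | j | j
  · by_cases h : j = k
    · subst h; simp [comb]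
    · have h' : (Sum.inl j : K₁ ⊕ (K₂ ⊕ Unit)) ≠ Sum.inl k := fun h2 => h (by injection h2)
      rw [Function.update_of_ne h']
      simp [comb, h]
  · rfl
  · rfl

theorem upd_r (S₁ : ∀ k, List (Γ₁ k)) (S₂ : ∀ k, List (Γ₂ k)) (m : List B) (k : K₂)
    (x : List (Γ₂ k)) : Function.update (comb S₁ S₂ m) (.inr (.inl k)) x =
      comb S₁ (Function.update S₂ k x) m := by
  funext j
  rcases j with j | j | j
  · rfl
  · by_cases h : j = k
    · subst h; simp [comb]
    · have h' : (Sum.inr (Sum.inl j) : K₁ ⊕ (K₂ ⊕ Unit)) ≠ Sum.inr (Sum.inl k) :=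
        fun h2 => h (by injection h2 with h3; injection h3)
      rw [Function.update_of_ne h']
      simp [comb, h]
  · rfl

theorem upd_m (S₁ : ∀ k, List (Γ₁ k)) (S₂ : ∀ k, List (Γ₂ k)) (m : List B)
    (x : List B) : Function.update (comb S₁ S₂ m) (.inr (.inr ())) x = comb S₁ S₂ x := by
  funext j
  rcases j with j | j | j
  · rfl
  · rfl
  · rfl

/-- labels and states of the composed machine -/
abbrev LL (Λ₁ Λ₂ : Type) : Type := Λ₁ ⊕ (Λ₂ ⊕ Bool)
abbrev SS (σ₁ σ₂ B : Type) : Type := σ₁ × (σ₂ × Option B)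

def lift₁ : TM2.Stmt Γ₁ Λ₁ σ₁ → TM2.Stmt (GG Γ₁ Γ₂ B) (LL Λ₁ Λ₂) (SS σ₁ σ₂ B)
  | .push k f q => .push (.inl k) (fun v => f v.1) (lift₁ q)
  | .peek k f q => .peek (.inl k) (fun v o => (f v.1 o, v.2)) (lift₁ q)
  | .pop k f q => .pop (.inl k) (fun v o => (f v.1 o, v.2)) (lift₁ q)
  | .load f q => .load (fun v => (f v.1, v.2)) (lift₁ q)
  | .branch f q r => .branch (fun v => f v.1) (lift₁ q) (lift₁ r)
  | .goto f => .goto (fun v => .inl (f v.1))
  | .halt => .goto (fun _ => .inr (.inr false))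

def lift₂ : TM2.Stmt Γ₂ Λ₂ σ₂ → TM2.Stmt (GG Γ₁ Γ₂ B) (LL Λ₁ Λ₂) (SS σ₁ σ₂ B)
  | .push k f q => .push (.inr (.inl k)) (fun v => f v.2.1) (lift₂ q)
  | .peek k f q => .peek (.inr (.inl k)) (fun v o => (v.1, (f v.2.1 o, v.2.2))) (lift₂ q)
  | .pop k f q => .pop (.inr (.inl k)) (fun v o => (v.1, (f v.2.1 o, v.2.2))) (lift₂ q)
  | .load f q => .load (fun v => (v.1, (f v.2.1, v.2.2))) (lift₂ q)
  | .branch f q r => .branch (fun v => f v.2.1) (lift₂ q) (lift₂ r)
  | .goto f => .goto (fun v => .inr (.inl (f v.2.1)))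
  | .halt => .halt

def lab₁ : Option Λ₁ → LL Λ₁ Λ₂
  | some l => .inl l
  | none => .inr (.inr false)

def lab₂ : Option Λ₂ → Option (LL Λ₁ Λ₂)
  | some l => some (.inr (.inl l))
  | none => none

def cfg₁ (w : σ₂ × Option B) (S₂ : ∀ k, List (Γ₂ k)) (m : List B) (c : TM2.Cfg Γ₁ Λ₁ σ₁) :
    TM2.Cfg (GG Γ₁ Γ₂ B) (LL Λ₁ Λ₂) (SS σ₁ σ₂ B) :=
  ⟨some (lab₁ c.l), (c.var, w), comb c.stk S₂ m⟩

def cfg₂ (v : σ₁) (r : Option B) (S₁ : ∀ k, List (Γ₁ k)) (m : List B) (c : TM2.Cfg Γ₂ Λ₂ σ₂) :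
    TM2.Cfg (GG Γ₁ Γ₂ B) (LL Λ₁ Λ₂) (SS σ₁ σ₂ B) :=
  ⟨lab₂ c.l, (v, (c.var, r)), comb S₁ c.stk m⟩

theorem stepAux_lift₁ (q : TM2.Stmt Γ₁ Λ₁ σ₁) (v : σ₁) (w : σ₂ × Option B)
    (S₁ : ∀ k, List (Γ₁ k)) (S₂ : ∀ k, List (Γ₂ k)) (m : List B) :
    TM2.stepAux (lift₁ (Λ₂ := Λ₂) q) (v, w) (comb S₁ S₂ m) = cfg₁ w S₂ m (TM2.stepAux q v S₁) := by
  induction q generalizing v S₁ with
  | push k f q ih => simp only [lift₁, TM2.stepAux]; rw [← ih, ← upd_l]; rfl
  | peek k f q ih => simp only [lift₁, TM2.stepAux]; rw [← ih]; rfl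
  | pop k f q ih => simp only [lift₁, TM2.stepAux]; rw [← ih, ← upd_l]; rfl
  | load f q ih => simp only [lift₁, TM2.stepAux]; rw [← ih]
  | branch f q r ihq ihr =>
    simp only [lift₁, TM2.stepAux]
    cases f v
    · exact ihr _ _
    · exact ihq _ _
  | goto f => rfl
  | halt => rfl

theorem stepAux_lift₂ (q : TM2.Stmt Γ₂ Λ₂ σ₂) (v : σ₁) (w : σ₂) (r : Option B)
    (S₁ : ∀ k, List (Γ₁ k)) (S₂ : ∀ k, List (Γ₂ k)) (m : List B) :
    TM2.stepAux (lift₂ (Λ₁ := Λ₁) q) (v, (w, r)) (comb S₁ S₂ m) =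
      cfg₂ v r S₁ m (TM2.stepAux q w S₂) := by
  induction q generalizing w S₂ with
  | push k f q ih => simp only [lift₂, TM2.stepAux]; rw [← ih, ← upd_r]; rfl
  | peek k f q ih => simp only [lift₂, TM2.stepAux]; rw [← ih]; rfl
  | pop k f q ih => simp only [lift₂, TM2.stepAux]; rw [← ih, ← upd_r]; rfl
  | load f q ih => simp only [lift₂, TM2.stepAux]; rw [← ih]
  | branch f q r ihq ihr =>
    simp only [lift₂, TM2.stepAux]
    cases f w
    · exact ihr _ _
    · exact ihq _ _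
  | goto f => rfl
  | halt => rfl

open Classical in
/-- push an optional symbol -/
noncomputable def pushO {K : Type} {Γ : K → Type} {Λ σ : Type} (k : K) (f : σ → Option (Γ k))
    (q : TM2.Stmt Γ Λ σ) : TM2.Stmt Γ Λ σ :=
  if h : Nonempty (Γ k) then .push k (fun v => (f v).getD (Classical.choice h)) q else q

theorem stepAux_pushO {K : Type} [DecidableEq K] {Γ : K → Type} {Λ σ : Type} {k : K}
    {f : σ → Option (Γ k)} {q : TM2.Stmt Γ Λ σ} {v : σ} {S : ∀ k, List (Γ k)} {a : Γ k}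
    (h : f v = some a) :
    TM2.stepAux (pushO k f q) v S = TM2.stepAux q v (Function.update S k (a :: S k)) := by
  unfold pushO
  rw [dif_pos ⟨a⟩]
  simp only [TM2.stepAux, h, Option.getD_some]

variable (M₁ : Λ₁ → TM2.Stmt Γ₁ Λ₁ σ₁) (M₂ : Λ₂ → TM2.Stmt Γ₂ Λ₂ σ₂) (main₂ : Λ₂) (ko : K₁)
  (ki : K₂) (i₁ : Γ₁ ko ≃ B) (i₂ : Γ₂ ki ≃ B)

/-- the program of the composed machine -/
noncomputable def MM : LL Λ₁ Λ₂ → TM2.Stmt (GG Γ₁ Γ₂ B) (LL Λ₁ Λ₂) (SS σ₁ σ₂ B)
  | .inl l => lift₁ (M₁ l)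
  | .inr (.inl l) => lift₂ (M₂ l)
  | .inr (.inr false) => .pop (.inl ko) (fun v o => (v.1, (v.2.1, o.map i₁)))
      (.branch (fun v => v.2.2.isNone) (.goto fun _ => .inr (.inr true))
        (pushO (.inr (.inr ())) (fun v => v.2.2) (.goto fun _ => .inr (.inr false))))
  | .inr (.inr true) => .pop (.inr (.inr ())) (fun v o => (v.1, (v.2.1, o)))
      (.branch (fun v => v.2.2.isNone) (.goto fun _ => .inr (.inl main₂))
        (pushO (.inr (.inl ki)) (fun v => v.2.2.map i₂.symm) (.goto fun _ => .inr (.inr true))))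

theorem steps_lift₁ {n : ℕ} {a b : TM2.Cfg Γ₁ Λ₁ σ₁} (h : Cmd.Steps M₁ n a b) (w : σ₂ × Option B)
    (S₂ : ∀ k, List (Γ₂ k)) (m : List B) :
    Cmd.Steps (MM M₁ M₂ main₂ ko ki i₁ i₂) n (cfg₁ w S₂ m a) (cfg₁ w S₂ m b) := by
  induction n generalizing a with
  | zero =>
    have : some a = some b := h
    simp only [Option.some.injEq] at this
    subst this; exact Cmd.Steps.zero _
  | succ n ih =>
    obtain ⟨c, h1, h2⟩ := steps_succ h
    rw [Nat.add_comm]
    refine Cmd.Steps.trans (Cmd.Steps.one ?_) (ih h2)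
    rcases a with ⟨_ | l, v, S⟩
    · simp [TM2.step] at h1
    · simp only [TM2.step, Option.some.injEq] at h1
      subst h1
      have := stepAux_lift₁ (Λ₂ := Λ₂) (M₁ l) v w S S₂ m
      simp only [cfg₁, lab₁, TM2.step, MM]
      rw [this]
      rfl

theorem steps_lift₂ {n : ℕ} {a b : TM2.Cfg Γ₂ Λ₂ σ₂} (h : Cmd.Steps M₂ n a b) (v : σ₁)
    (r : Option B) (S₁ : ∀ k, List (Γ₁ k)) (m : List B) :
    Cmd.Steps (MM M₁ M₂ main₂ ko ki i₁ i₂) n (cfg₂ v r S₁ m a) (cfg₂ v r S₁ m b) := by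
  induction n generalizing a with
  | zero =>
    have : some a = some b := h
    simp only [Option.some.injEq] at this
    subst this; exact Cmd.Steps.zero _
  | succ n ih =>
    obtain ⟨c, h1, h2⟩ := steps_succ h
    rw [Nat.add_comm]
    refine Cmd.Steps.trans (Cmd.Steps.one ?_) (ih h2)
    rcases a with ⟨_ | l, w, S⟩
    · simp [TM2.step] at h1
    · simp only [TM2.step, Option.some.injEq] at h1
      subst h1
      have := stepAux_lift₂ (Λ₁ := Λ₁) (M₂ l) v w r S₁ S m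
      simp only [cfg₂, lab₂, TM2.step, MM]
      rw [this]
      rfl

theorem steps_copy₁ (l : List (Γ₁ ko)) (v : σ₁) (w : σ₂) (r : Option B)
    (S₁ : ∀ k, List (Γ₁ k)) (S₂ : ∀ k, List (Γ₂ k)) (m : List B) (hl : S₁ ko = l) :
    Cmd.Steps (MM M₁ M₂ main₂ ko ki i₁ i₂) (l.length + 1)
      ⟨some (.inr (.inr false)), (v, (w, r)), comb S₁ S₂ m⟩
      ⟨some (.inr (.inr true)), (v, (w, none)),
        comb (Function.update S₁ ko []) S₂ ((l.map i₁).reverse ++ m)⟩ := by
  induction l generalizing S₁ m r with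
  | nil =>
    apply Cmd.Steps.one
    have hc : (comb S₁ S₂ m) (.inl ko) = [] := hl
    simp only [TM2.step, MM, TM2.stepAux, hc, List.head?_nil, List.tail_nil, Option.map_none,
      Option.isNone_none, cond_true, List.map_nil, List.reverse_nil, List.nil_append]
    rw [upd_l]
  | cons a l ih =>
    have hc : (comb S₁ S₂ m) (.inl ko) = a :: l := hl
    have h0 : Cmd.Steps (MM M₁ M₂ main₂ ko ki i₁ i₂) 1
        ⟨some (.inr (.inr false)), (v, (w, r)), comb S₁ S₂ m⟩
        ⟨some (.inr (.inr false)), (v, (w, some (i₁ a))),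
          comb (Function.update S₁ ko l) S₂ (i₁ a :: m)⟩ := by
      apply Cmd.Steps.one
      simp only [TM2.step, MM, TM2.stepAux, hc, List.head?_cons, List.tail_cons, Option.map_some,
        Option.isNone_some, cond_false]
      rw [stepAux_pushO (Γ := GG Γ₁ Γ₂ B) (k := .inr (.inr ()))
        (f := fun v : SS σ₁ σ₂ B => v.2.2) (v := (v, (w, some (i₁ a)))) (a := i₁ a) rfl]
      simp only [TM2.stepAux]
      rw [upd_l, upd_m]
      rfl
    have h1 := ih (some (i₁ a)) (Function.update S₁ ko l) (i₁ a :: m) (by simp)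
    have h2 := h0.trans h1
    simp only [Function.update_idem] at h2
    rw [List.length_cons, Nat.add_comm (l.length + 1)]
    simpa using h2

theorem steps_copy₂ (m : List B) (v : σ₁) (w : σ₂) (r : Option B)
    (S₁ : ∀ k, List (Γ₁ k)) (S₂ : ∀ k, List (Γ₂ k)) :
    Cmd.Steps (MM M₁ M₂ main₂ ko ki i₁ i₂) (m.length + 1)
      ⟨some (.inr (.inr true)), (v, (w, r)), comb S₁ S₂ m⟩
      ⟨some (.inr (.inl main₂)), (v, (w, none)),
        comb S₁ (Function.update S₂ ki ((m.map i₂.symm).reverse ++ S₂ ki)) []⟩ := by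
  induction m generalizing S₂ r with
  | nil =>
    apply Cmd.Steps.one
    have hc : (comb S₁ S₂ ([] : List B)) (.inr (.inr ())) = [] := rfl
    simp only [TM2.step, MM, TM2.stepAux, hc, List.head?_nil, List.tail_nil,
      Option.isNone_none, cond_true, List.map_nil, List.reverse_nil, List.nil_append]
    rw [upd_m, Function.update_eq_self]
  | cons a m ih =>
    have hc : (comb S₁ S₂ (a :: m)) (.inr (.inr ())) = a :: m := rfl
    have h0 : Cmd.Steps (MM M₁ M₂ main₂ ko ki i₁ i₂) 1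
        ⟨some (.inr (.inr true)), (v, (w, r)), comb S₁ S₂ (a :: m)⟩
        ⟨some (.inr (.inr true)), (v, (w, some a)),
          comb S₁ (Function.update S₂ ki (i₂.symm a :: S₂ ki)) m⟩ := by
      apply Cmd.Steps.one
      simp only [TM2.step, MM, TM2.stepAux, hc, List.head?_cons, List.tail_cons,
        Option.isNone_some, cond_false]
      rw [stepAux_pushO (Γ := GG Γ₁ Γ₂ B) (k := .inr (.inl ki))
        (f := fun v : SS σ₁ σ₂ B => v.2.2.map i₂.symm) (v := (v, (w, some a)))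
        (a := i₂.symm a) rfl]
      simp only [TM2.stepAux]
      rw [upd_m, upd_r]
      rfl
    have h1 := ih (some a) (Function.update S₂ ki (i₂.symm a :: S₂ ki))
    have h2 := h0.trans h1
    simp only [Function.update_idem, Function.update_self] at h2
    rw [List.length_cons, Nat.add_comm (m.length + 1)]
    simpa using h2

theorem single_comb₁ (k : K₁) (x : List (Γ₁ k)) :
    (Cmd.single (Γ := GG Γ₁ Γ₂ B) (.inl k) x) = comb (Cmd.single k x) (fun _ => []) [] := by
  unfold Cmd.single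
  rw [← upd_l]
  congr 1
  funext j
  rcases j with j | j | j <;> rfl

theorem single_comb₂ (k : K₂) (x : List (Γ₂ k)) :
    (Cmd.single (Γ := GG Γ₁ Γ₂ B) (.inr (.inl k)) x) = comb (fun _ => []) (Cmd.single k x) [] := by
  unfold Cmd.single
  rw [← upd_r]
  congr 1
  funext j
  rcases j with j | j | j <;> rfl

/-- a run of the composed machine -/
theorem steps_comp {main₁ : Λ₁} {s₁ : σ₁} {s₂ : σ₂} {k₀ : K₁} {k₁ : K₂} {x : List (Γ₁ k₀)}
    {y : List (Γ₁ ko)} {z : List (Γ₂ k₁)} {n₁ n₂ : ℕ}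
    (h₁ : Cmd.Steps M₁ n₁ ⟨some main₁, s₁, Cmd.single k₀ x⟩ ⟨none, s₁, Cmd.single ko y⟩)
    (h₂ : Cmd.Steps M₂ n₂ ⟨some main₂, s₂, Cmd.single ki (y.map (fun a => i₂.symm (i₁ a)))⟩
      ⟨none, s₂, Cmd.single k₁ z⟩) :
    Cmd.Steps (MM M₁ M₂ main₂ ko ki i₁ i₂) (n₁ + ((y.length + 1) + ((y.length + 1) + n₂)))
      ⟨some (.inl main₁), (s₁, (s₂, none)), Cmd.single (.inl k₀) x⟩
      ⟨none, (s₁, (s₂, none)), Cmd.single (.inr (.inl k₁)) z⟩ := by
  rw [single_comb₁, single_comb₂]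
  have a1 := steps_lift₁ M₁ M₂ main₂ ko ki i₁ i₂ h₁ (s₂, none) (fun _ => []) []
  have a2 := steps_copy₁ M₁ M₂ main₂ ko ki i₁ i₂ y s₁ s₂ none (Cmd.single ko y) (fun _ => []) []
    (by simp [Cmd.single])
  have a3 := steps_copy₂ M₁ M₂ main₂ ko ki i₁ i₂ ((y.map i₁).reverse ++ []) s₁ s₂ none
    (Function.update (Cmd.single ko y) ko []) (fun _ => [])
  have a4 := steps_lift₂ M₁ M₂ main₂ ko ki i₁ i₂ h₂ s₁ none
    (Function.update (Cmd.single ko y) ko []) []
  have e1 : Function.update (Cmd.single ko y) ko [] = fun _ => [] := by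
    unfold Cmd.single
    rw [Function.update_idem]
    exact Function.update_eq_self ko _
  have e2 : ((y.map i₁).reverse ++ []).length = y.length := by simp
  have e3 : ((((y.map i₁).reverse ++ []).map i₂.symm).reverse ++ (fun _ => [] : ∀ k, List (Γ₂ k)) ki)
      = y.map (fun a => i₂.symm (i₁ a)) := by
    simp [List.map_reverse]
  rw [e2, e3] at a3
  rw [e1] at a2 a3 a4
  exact a1.trans (a2.trans (a3.trans a4))

end Machine

/-! ### Bundling -/

theorem initList_eq (tm : FinTM2) (x : List (tm.Γ tm.k₀)) :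
    (initList tm x : TM2.Cfg tm.Γ tm.Λ tm.σ) =
      ⟨some tm.main, tm.initialState, Cmd.single tm.k₀ x⟩ :=
  congrArg (TM2.Cfg.mk (Λ := tm.Λ) (σ := tm.σ) (some tm.main) tm.initialState)
    (funext fun k => Cmd.single_eq tm.k₀ x k)

theorem haltList_eq (tm : FinTM2) (x : List (tm.Γ tm.k₁)) :
    (haltList tm x : TM2.Cfg tm.Γ tm.Λ tm.σ) =
      ⟨none, tm.initialState, Cmd.single tm.k₁ x⟩ :=
  congrArg (TM2.Cfg.mk (Λ := tm.Λ) (σ := tm.σ) none tm.initialState)
    (funext fun k => Cmd.single_eq tm.k₁ x k)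

theorem steps_of_outputs {tm : FinTM2} {x : List (tm.Γ tm.k₀)} {y : List (tm.Γ tm.k₁)} {m : ℕ}
    (h : TM2OutputsInTime tm x (some y) m) :
    ∃ n ≤ m, Cmd.Steps tm.m n ⟨some tm.main, tm.initialState, Cmd.single tm.k₀ x⟩
      ⟨none, tm.initialState, Cmd.single tm.k₁ y⟩ := by
  refine ⟨h.steps, h.steps_le_m, ?_⟩
  have h1 := h.evals_in_steps
  exact ((congrArg (fun z : TM2.Cfg tm.Γ tm.Λ tm.σ =>
    (flip bind (TM2.step tm.m))^[h.steps] (some z)) (initList_eq tm x)).symm.trans h1).trans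
      (congrArg some (haltList_eq tm y))

end Comp

open Pool.Agent.Helper89.Comp in
/-- **Composition of polynomial-time computable functions.** -/
theorem TM2Poly.comp {α β γ αΓ βΓ γΓ : Type} {ea : α → List αΓ} {eb : β → List βΓ}
    {ec : γ → List γΓ} {f : α → β} {g : β → γ} (h₁ : TM2ComputableInPolyTime ea eb f)
    (h₂ : TM2ComputableInPolyTime eb ec g) : Nonempty (TM2ComputableInPolyTime ea ec (g ∘ f)) := by
  obtain ⟨⟨tm₁, ia₁, io₁⟩, time₁, out₁⟩ := h₁
  obtain ⟨⟨tm₂, ia₂, io₂⟩, time₂, out₂⟩ := h₂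
  have := tm₁.kFin
  have := tm₂.kFin
  have := tm₁.ΛFin
  have := tm₂.ΛFin
  have := tm₁.σFin
  have := tm₂.σFin
  have hin : Fintype (tm₁.Γ tm₁.k₀) := tm₁.Γk₀Fin
  have hmid : Fintype (tm₂.Γ tm₂.k₀) := tm₂.Γk₀Fin
  have : Fintype βΓ := Fintype.ofEquiv _ ia₂
  let c : ℕ := ∑ l : tm₁.Λ, pushes (tm₁.m l)
  have hc : ∀ l, pushes (tm₁.m l) ≤ c := fun l =>
    Finset.single_le_sum (f := fun l => pushes (tm₁.m l)) (fun _ _ => Nat.zero_le _)
      (Finset.mem_univ l)
  let tm : FinTM2 :=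
    { K := tm₁.K ⊕ (tm₂.K ⊕ Unit)
      k₀ := .inl tm₁.k₀
      k₁ := .inr (.inl tm₂.k₁)
      Γ := GG tm₁.Γ tm₂.Γ βΓ
      Λ := LL tm₁.Λ tm₂.Λ
      main := .inl tm₁.main
      σ := SS tm₁.σ tm₂.σ βΓ
      initialState := (tm₁.initialState, (tm₂.initialState, none))
      Γk₀Fin := hin
      m := MM tm₁.m tm₂.m tm₂.main tm₁.k₁ tm₂.k₀ io₁ ia₂ }
  refine ⟨⟨⟨tm, ia₁, io₂⟩, time₁ + (2 * (Polynomial.X + Polynomial.C c * time₁) + 2 +
    time₂.comp (Polynomial.X + Polynomial.C c * time₁)), fun a => Classical.choice ?_⟩⟩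
  obtain ⟨n₁, hn₁, s₁⟩ := steps_of_outputs (out₁ a)
  obtain ⟨n₂, hn₂, s₂⟩ := steps_of_outputs (out₂ (f a))
  have hlen := steps_len hc s₁ tm₁.k₁
  have hlen' : (eb (f a)).length ≤ (ea a).length + c * time₁.eval (ea a).length := by
    have h1 : (Cmd.single tm₁.k₁ (List.map io₁.invFun (eb (f a))) tm₁.k₁).length =
        (eb (f a)).length := by
      unfold Cmd.single; simp
    have h2 : (Cmd.single tm₁.k₀ (List.map ia₁.invFun (ea a)) tm₁.k₁).length ≤
        (ea a).length := by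
      unfold Cmd.single
      by_cases h : tm₁.k₁ = tm₁.k₀
      · rw [h]; simp
      · rw [Function.update_of_ne h]; simp
    simp only at hlen
    rw [h1] at hlen
    have h3 : n₁ * c ≤ c * time₁.eval (ea a).length := by
      rw [Nat.mul_comm]; exact Nat.mul_le_mul_left _ hn₁
    omega
  have s₂' : Cmd.Steps tm₂.m n₂
      ⟨some tm₂.main, tm₂.initialState, Cmd.single tm₂.k₀
        ((List.map io₁.invFun (eb (f a))).map (fun b => ia₂.symm (io₁ b)))⟩
      ⟨none, tm₂.initialState, Cmd.single tm₂.k₁ (List.map io₂.invFun (ec (g (f a))))⟩ := by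
    have : (List.map io₁.invFun (eb (f a))).map (fun b => ia₂.symm (io₁ b)) =
        List.map ia₂.invFun (eb (f a)) := by
      rw [List.map_map]
      congr 1
      funext b
      simp
    rw [this]
    exact s₂
  have s := steps_comp tm₁.m tm₂.m tm₂.main tm₁.k₁ tm₂.k₀ io₁ ia₂ s₁ s₂'
  refine ⟨⟨⟨n₁ + (((List.map io₁.invFun (eb (f a))).length + 1) +
    (((List.map io₁.invFun (eb (f a))).length + 1) + n₂)), ?_⟩, ?_⟩⟩
  · have e1 := initList_eq tm (List.map ia₁.invFun (ea a))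
    have e2 := haltList_eq tm (List.map io₂.invFun (ec (g (f a))))
    exact ((congrArg (fun z : TM2.Cfg tm.Γ tm.Λ tm.σ =>
      (flip bind (TM2.step tm.m))^[n₁ + (((List.map io₁.invFun (eb (f a))).length + 1) +
        (((List.map io₁.invFun (eb (f a))).length + 1) + n₂))] (some z)) e1).trans s).trans
          (congrArg some e2).symm
  · have hmono : Monotone (fun n : ℕ => time₂.eval n) := by
      intro x y hxy
      simp only [Polynomial.eval_eq_sum, Polynomial.sum]
      exact Finset.sum_le_sum fun i _ => Nat.mul_le_mul_left _ (Nat.pow_le_pow_left hxy i)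
    have h4 : n₂ ≤ time₂.eval ((ea a).length + c * time₁.eval (ea a).length) :=
      hn₂.trans (hmono hlen')
    simp only [Polynomial.eval_add, Polynomial.eval_mul, Polynomial.eval_comp, Polynomial.eval_X,
      Polynomial.eval_C, Polynomial.eval_ofNat, List.length_map]
    omega

end Pool.Agent.Helper89
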