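import Mathlib

/-!
# Structured stack programs and their compilation to Mathlib's `FinTM2`

A small structured language over finitely many stacks (stack `k` has alphabet `Γ k`), with an
exact step-counting semantics, and a compiler to Mathlib's Turing machines.  The main theorem is
`Cmd.computable`: a program that maps the string `x` on the input stack (all other stacks empty)
to the string `f x` on the output stack (all other stacks empty) in a number of steps that is
bounded by a polynomial in the length of `x` gives a `Turing.TM2ComputableInPolyTime`.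
-/

namespace Pool.Agent.Helper89

open Turing

/-- Structured programs. -/
inductive Cmd {K : Type} (Γ : K → Type) : Type
  /-- push a symbol -/
  | push (k : K) (a : Γ k) : Cmd Γ
  /-- do nothing (one step) -/
  | skip : Cmd Γ
  /-- sequential composition -/
  | seq (c d : Cmd Γ) : Cmd Γ
  /-- pop stack `k`: run `e` if it is empty, and run `c a` if the symbol `a` was popped -/
  | case (k : K) (e : Cmd Γ) (c : Γ k → Cmd Γ) : Cmd Γ
  /-- while stack `k` is not empty: pop it and run `c a`, where `a` is the popped symbol -/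
  | loop (k : K) (c : Γ k → Cmd Γ) : Cmd Γ

namespace Cmd

variable {K : Type} [DecidableEq K] {Γ : K → Type}

/-- `Runs c S T n`: program `c` started on the stacks `S` halts on the stacks `T` after exactly `n`
steps. -/
inductive Runs : Cmd Γ → (∀ k, List (Γ k)) → (∀ k, List (Γ k)) → ℕ → Prop
  | push {k : K} {a : Γ k} {S : ∀ k, List (Γ k)} :
      Runs (.push k a) S (Function.update S k (a :: S k)) 1
  | skip {S : ∀ k, List (Γ k)} : Runs .skip S S 1
  | seq {c d : Cmd Γ} {S T U : ∀ k, List (Γ k)} {m n : ℕ} (h₁ : Runs c S T m)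
      (h₂ : Runs d T U n) : Runs (.seq c d) S U (m + n)
  | caseNil {k : K} {e : Cmd Γ} {c : Γ k → Cmd Γ} {S T : ∀ k, List (Γ k)} {n : ℕ} (h : S k = [])
      (h₁ : Runs e S T n) : Runs (.case k e c) S T (n + 1)
  | caseCons {k : K} {e : Cmd Γ} {c : Γ k → Cmd Γ} {S T : ∀ k, List (Γ k)} {n : ℕ} {a : Γ k}
      {l : List (Γ k)} (h : S k = a :: l) (h₁ : Runs (c a) (Function.update S k l) T n) :
      Runs (.case k e c) S T (n + 1)
  | loopNil {k : K} {c : Γ k → Cmd Γ} {S : ∀ k, List (Γ k)} (h : S k = []) :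
      Runs (.loop k c) S S 1
  | loopCons {k : K} {c : Γ k → Cmd Γ} {S T U : ∀ k, List (Γ k)} {m n : ℕ} {a : Γ k}
      {l : List (Γ k)} (h : S k = a :: l) (h₁ : Runs (c a) (Function.update S k l) T m)
      (h₂ : Runs (.loop k c) T U n) : Runs (.loop k c) S U (m + n + 1)

/-! ### Compilation -/

/-- labels of a program -/
def Lab : Cmd Γ → Type
  | .push _ _ => Unit
  | .skip => Unit
  | .seq c d => Lab c ⊕ Lab d
  | .case k e c => Option (Lab e ⊕ (Σ a : Γ k, Lab (c a)))
  | .loop k c => Option (Σ a : Γ k, Lab (c a))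

instance labFintype [∀ k, Fintype (Γ k)] : (c : Cmd Γ) → Fintype (Lab c)
  | .push _ _ => inferInstanceAs (Fintype Unit)
  | .skip => inferInstanceAs (Fintype Unit)
  | .seq c d =>
    haveI := labFintype c
    haveI := labFintype d
    inferInstanceAs (Fintype (Lab c ⊕ Lab d))
  | .case k e c =>
    haveI := labFintype e
    haveI := fun a => labFintype (c a)
    inferInstanceAs (Fintype (Option (Lab e ⊕ (Σ a : Γ k, Lab (c a)))))
  | .loop k c =>
    haveI := fun a => labFintype (c a)
    inferInstanceAs (Fintype (Option (Σ a : Γ k, Lab (c a))))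

/-- first label -/
def entry : (c : Cmd Γ) → Lab c
  | .push _ _ => ()
  | .skip => ()
  | .seq c _ => Sum.inl (entry c)
  | .case _ _ _ => none
  | .loop _ _ => none

/-- the register holds the last popped symbol -/
abbrev Reg (Γ : K → Type) : Type := Option (Σ k, Γ k)

/-- jump to a label, or clear the register and halt -/
def jump {Λ : Type} : Option Λ → TM2.Stmt Γ Λ (Reg Γ)
  | none => .load (fun _ => none) .halt
  | some l => .goto fun _ => l

/-- go on according to the symbol in the register, which is a symbol of stack `k` -/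
def dispatch {Λ : Type} (k : K) (e : Λ) (c : Γ k → Λ) : Reg Γ → Λ
  | none => e
  | some ⟨k', a⟩ => if h : k' = k then c (h ▸ a) else e

/-- `if the register is empty then jump else dispatch` -/
def loopStmt {Λ : Type} (k : K) (ex : Option Λ) (c : Γ k → Λ) (e : Λ) : TM2.Stmt Γ Λ (Reg Γ) :=
  .branch (fun v => v.isNone) (jump ex) (.goto (dispatch k e c))

/-- code of the labels of a program -/
def code {Λ : Type} : (c : Cmd Γ) → (Lab c → Λ) → Option Λ → Lab c → TM2.Stmt Γ Λ (Reg Γ)
  | .push k a, _, ex, _ => .push k (fun _ => a) (jump ex)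
  | .skip, _, ex, _ => jump ex
  | .seq c d, emb, _, Sum.inl l =>
    code c (fun l => emb (Sum.inl l)) (some (emb (Sum.inr (entry d)))) l
  | .seq _ d, emb, ex, Sum.inr l => code d (fun l => emb (Sum.inr l)) ex l
  | .case k e c, emb, _, none =>
    .pop k (fun _ o => o.map (Sigma.mk k)) (.goto (dispatch k (emb (some (Sum.inl (entry e))))
      (fun a => emb (some (Sum.inr ⟨a, entry (c a)⟩)))))
  | .case _ e _, emb, ex, some (Sum.inl l) => code e (fun l => emb (some (Sum.inl l))) ex l
  | .case _ _ c, emb, ex, some (Sum.inr ⟨a, l⟩) =>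
    code (c a) (fun l => emb (some (Sum.inr ⟨a, l⟩))) ex l
  | .loop k c, emb, ex, none =>
    .pop k (fun _ o => o.map (Sigma.mk k)) (loopStmt k ex (fun a => emb (some ⟨a, entry (c a)⟩))
      (emb none))
  | .loop _ c, emb, _, some ⟨a, l⟩ =>
    code (c a) (fun l => emb (some ⟨a, l⟩)) (some (emb none)) l

/-- `n` steps of a machine lead from `a` to `b` -/
def Steps {Λ σ : Type} (M : Λ → TM2.Stmt Γ Λ σ) (n : ℕ) (a b : TM2.Cfg Γ Λ σ) : Prop :=
  (flip bind (TM2.step M))^[n] (some a) = some b

theorem Steps.zero {Λ σ : Type} {M : Λ → TM2.Stmt Γ Λ σ} (a : TM2.Cfg Γ Λ σ) : Steps M 0 a a := rfl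

theorem Steps.one {Λ σ : Type} {M : Λ → TM2.Stmt Γ Λ σ} {a b : TM2.Cfg Γ Λ σ}
    (h : TM2.step M a = some b) : Steps M 1 a b := h

theorem Steps.trans {Λ σ : Type} {M : Λ → TM2.Stmt Γ Λ σ} {m n : ℕ} {a b c : TM2.Cfg Γ Λ σ}
    (h₁ : Steps M m a b) (h₂ : Steps M n b c) : Steps M (m + n) a c := by
  unfold Steps at *
  rw [Nat.add_comm, Function.iterate_add_apply, h₁, h₂]

theorem stepAux_jump {Λ : Type} (ex : Option Λ) (v : Reg Γ) (S : ∀ k, List (Γ k)) :
    ∃ v', (ex = none → v' = none) ∧ TM2.stepAux (jump ex) v S = ⟨ex, v', S⟩ := by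
  rcases ex with _ | l
  · exact ⟨none, fun _ => rfl, rfl⟩
  · exact ⟨v, fun h => by simp at h, rfl⟩

theorem steps_of_runs {c : Cmd Γ} {S T : ∀ k, List (Γ k)} {n : ℕ} (h : Runs c S T n) :
    ∀ {Λ : Type} (M : Λ → TM2.Stmt Γ Λ (Reg Γ)) (emb : Lab c → Λ) (ex : Option Λ),
      (∀ l, M (emb l) = code c emb ex l) → ∀ v : Reg Γ,
        ∃ v', (ex = none → v' = none) ∧
          Steps M n ⟨some (emb (entry c)), v, S⟩ ⟨ex, v', T⟩ := by
  induction h with
  | @push k a S =>
    intro Λ M emb ex hM v
    obtain ⟨v', h1, h2⟩ := stepAux_jump ex v (Function.update S k (a :: S k))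
    refine ⟨v', h1, Steps.one ?_⟩
    have hc : M (emb (entry (.push k a))) = .push k (fun _ => a) (jump ex) := hM _
    simp only [TM2.step]
    rw [hc]
    simp only [TM2.stepAux]
    rw [h2]
  | @skip S =>
    intro Λ M emb ex hM v
    obtain ⟨v', h1, h2⟩ := stepAux_jump ex v S
    refine ⟨v', h1, Steps.one ?_⟩
    have hc : M (emb (entry .skip)) = jump ex := hM _
    simp only [TM2.step]
    rw [hc, h2]
  | @seq c d S T U m n h₁ h₂ ih₁ ih₂ =>
    intro Λ M emb ex hM v
    obtain ⟨v1, -, s1⟩ := ih₁ M (fun l => emb (Sum.inl l)) (some (emb (Sum.inr (entry d))))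
      (fun l => hM (Sum.inl l)) v
    obtain ⟨v2, e2, s2⟩ := ih₂ M (fun l => emb (Sum.inr l)) ex (fun l => hM (Sum.inr l)) v1
    exact ⟨v2, e2, s1.trans s2⟩
  | @caseNil k e c S T n h h₁ ih =>
    intro Λ M emb ex hM v
    obtain ⟨v1, e1, s1⟩ := ih M (fun l => emb (some (Sum.inl l))) ex
      (fun l => hM (some (Sum.inl l))) none
    refine ⟨v1, e1, ?_⟩
    rw [Nat.add_comm]
    refine Steps.trans (Steps.one ?_) s1
    have hc : M (emb (entry (.case k e c))) = .pop k (fun _ o => o.map (Sigma.mk k))
      (.goto (dispatch k (emb (some (Sum.inl (entry e))))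
        (fun a => emb (some (Sum.inr ⟨a, entry (c a)⟩))))) := hM _
    simp only [TM2.step]
    rw [hc]
    simp only [TM2.stepAux, h, List.head?_nil, List.tail_nil, Option.map_none, dispatch,
      Option.some.injEq]
    congr 1
    rw [← h, Function.update_eq_self]
  | @caseCons k e c S T n a l h h₁ ih =>
    intro Λ M emb ex hM v
    obtain ⟨v1, e1, s1⟩ := ih M (fun l => emb (some (Sum.inr ⟨a, l⟩))) ex
      (fun l => hM (some (Sum.inr ⟨a, l⟩))) (some ⟨k, a⟩)
    refine ⟨v1, e1, ?_⟩
    rw [Nat.add_comm]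
    refine Steps.trans (Steps.one ?_) s1
    have hc : M (emb (entry (.case k e c))) = .pop k (fun _ o => o.map (Sigma.mk k))
      (.goto (dispatch k (emb (some (Sum.inl (entry e))))
        (fun a => emb (some (Sum.inr ⟨a, entry (c a)⟩))))) := hM _
    simp only [TM2.step]
    rw [hc]
    simp only [TM2.stepAux, h, List.head?_cons, List.tail_cons, Option.map_some, dispatch,
      dite_true]
  | @loopNil k c S h =>
    intro Λ M emb ex hM v
    obtain ⟨v', h1, h2⟩ := stepAux_jump ex (none : Reg Γ) S
    refine ⟨v', h1, Steps.one ?_⟩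
    have hc : M (emb (entry (.loop k c))) = .pop k (fun _ o => o.map (Sigma.mk k))
      (loopStmt k ex (fun a => emb (some ⟨a, entry (c a)⟩)) (emb none)) := hM _
    simp only [TM2.step]
    rw [hc]
    simp only [TM2.stepAux, h, List.head?_nil, List.tail_nil, Option.map_none, loopStmt,
      Option.isNone_none, cond_true]
    rw [← h, Function.update_eq_self, h2]
  | @loopCons k c S T U m n a l h h₁ h₂ ih₁ ih₂ =>
    intro Λ M emb ex hM v
    obtain ⟨v1, -, s1⟩ := ih₁ M (fun l => emb (some ⟨a, l⟩)) (some (emb none))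
      (fun l => hM (some ⟨a, l⟩)) (some ⟨k, a⟩)
    obtain ⟨v2, e2, s2⟩ := ih₂ M emb ex hM v1
    refine ⟨v2, e2, ?_⟩
    have h0 : Steps M 1 ⟨some (emb (entry (.loop k c))), v, S⟩
        ⟨some (emb (some ⟨a, entry (c a)⟩)), some ⟨k, a⟩, Function.update S k l⟩ := by
      apply Steps.one
      have hc : M (emb (entry (.loop k c))) = .pop k (fun _ o => o.map (Sigma.mk k))
        (loopStmt k ex (fun a => emb (some ⟨a, entry (c a)⟩)) (emb none)) := hM _
      simp only [TM2.step]
      rw [hc]
      simp only [TM2.stepAux, h, List.head?_cons, List.tail_cons, Option.map_some, loopStmt,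
        Option.isNone_some, cond_false, dispatch, dite_true]
    have := h0.trans (s1.trans s2)
    rw [Nat.add_comm]
    exact this

variable [Fintype K] [∀ k, Fintype (Γ k)]

/-- The machine of a program, with input stack `k₀` and output stack `k₁`. -/
def machine (c : Cmd Γ) (k₀ k₁ : K) : FinTM2 where
  K := K
  k₀ := k₀
  k₁ := k₁
  Γ := Γ
  Λ := Lab c
  main := entry c
  σ := Reg Γ
  initialState := none
  m := code c id none

/-- all stacks empty except stack `k` -/
def single (k : K) (x : List (Γ k)) : ∀ k, List (Γ k) :=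
  Function.update (fun _ => []) k x

omit [Fintype K] [∀ k, Fintype (Γ k)] in
theorem single_eq (k : K) (x : List (Γ k)) (k' : K) :
    @dite (List (Γ k')) (k' = k) (inferInstance) (fun h => by rw [h]; exact x) (fun _ => []) =
      single k x k' := by
  unfold single
  by_cases h : k' = k
  · subst h; simp
  · simp [h]

theorem initList_machine (c : Cmd Γ) (k₀ k₁ : K) (x : List (Γ k₀)) :
    (initList (machine c k₀ k₁) x : TM2.Cfg Γ (Lab c) (Reg Γ)) =
      ⟨some (entry c), none, single k₀ x⟩ :=
  congrArg (TM2.Cfg.mk (Λ := Lab c) (σ := Reg Γ) (some (entry c)) none)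
    (funext fun k => single_eq k₀ x k)

theorem haltList_machine (c : Cmd Γ) (k₀ k₁ : K) (x : List (Γ k₁)) :
    (haltList (machine c k₀ k₁) x : TM2.Cfg Γ (Lab c) (Reg Γ)) = ⟨none, none, single k₁ x⟩ :=
  congrArg (TM2.Cfg.mk (Λ := Lab c) (σ := Reg Γ) none none)
    (funext fun k => single_eq k₁ x k)

/-- **Compilation theorem.** -/
noncomputable def computable {α β αΓ βΓ : Type} (ea : α → List αΓ) (eb : β → List βΓ) (f : α → β)
    (k₀ k₁ : K) (iα : Γ k₀ ≃ αΓ) (iβ : Γ k₁ ≃ βΓ) (c : Cmd Γ) (time : Polynomial ℕ)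
    (h : ∀ a, ∃ n ≤ time.eval (ea a).length,
      Runs c (single k₀ ((ea a).map iα.symm)) (single k₁ ((eb (f a)).map iβ.symm)) n) :
    TM2ComputableInPolyTime ea eb f where
  tm := machine c k₀ k₁
  inputAlphabet := iα
  outputAlphabet := iβ
  time := time
  outputsFun a := by
    have h1 := (h a).choose_spec.1
    have h2 := (h a).choose_spec.2
    refine ⟨⟨(h a).choose, ?_⟩, h1⟩
    obtain ⟨v, hv, hs⟩ := steps_of_runs h2 (code c id none) id none (fun _ => rfl) none
    have hv := hv rfl
    subst hv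
    have e1 := initList_machine c k₀ k₁ ((ea a).map iα.symm)
    have e2 := haltList_machine c k₀ k₁ ((eb (f a)).map iβ.symm)
    exact (congrArg (fun z : TM2.Cfg Γ (Lab c) (Reg Γ) =>
      (flip bind (TM2.step (code c id none)))^[(h a).choose] (some z)) e1).trans
      (Eq.trans (show (flip bind (TM2.step (code c id none)))^[(h a).choose] (some _) = some _ from hs)
        (congrArg some e2).symm)

end Cmd

end Pool.Agent.Helper89
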