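import Mathlib

/-!
# The decision problem ORTH3, the existential theory of the reals, and polynomial-time reductions

All definitions used in the statement of the theorem.
-/

namespace Pool.Agent.Helper89

/-! ## Decision problems and polynomial-time many-one reductions -/

/-- A decision problem: a type of instances, each encoded as a string over a finite alphabet
(with Mathlib's `Computability.Encoding`, so that the encoding can be decoded), and the set of
yes-instances. -/
structure DecisionProblem : Type 1 where
  /-- instances -/
  Inst : Type
  /-- the alphabet in which instances are written -/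
  Alph : Type
  /-- the alphabet is finite -/
  finAlph : Fintype Alph
  /-- the encoding of instances -/
  enc : Computability.Encoding Inst Alph
  /-- the yes-instances -/
  Yes : Inst → Prop

/-- Polynomial-time many-one reducibility, with Mathlib's notion of a function between encoded
types that is computed by a Turing machine (`Turing.FinTM2`) in polynomial time. -/
def PolyTimeReduces (A B : DecisionProblem) : Prop :=
  ∃ f : A.Inst → B.Inst,
    Nonempty (Turing.TM2ComputableInPolyTime A.enc.encode B.enc.encode f) ∧
    ∀ a, A.Yes a ↔ B.Yes (f a)

/-- The encoding given by an injective map to strings. -/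
noncomputable def encodingOfInjective {α Γ : Type} (f : α → List Γ) (h : Function.Injective f) :
    Computability.Encoding α Γ where
  encode := f
  decode := Function.partialInv f
  decode_encode := Function.partialInv_left h

/-! ## The existential theory of the reals -/

/-- Polynomials with integer coefficients, written as terms: variables `x_0, x_1, …`, natural
number constants, negation, addition and multiplication. -/
inductive PTerm : Type
  | var (i : ℕ) : PTerm
  | const (n : ℕ) : PTerm
  | neg (s : PTerm) : PTerm
  | add (s t : PTerm) : PTerm
  | mul (s t : PTerm) : PTerm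

/-- The value of a term under an assignment of reals to the variables. -/
def PTerm.eval (x : ℕ → ℝ) : PTerm → ℝ
  | .var i => x i
  | .const n => n
  | .neg s => -(s.eval x)
  | .add s t => s.eval x + t.eval x
  | .mul s t => s.eval x * t.eval x

/-- Quantifier-free formulas: Boolean combinations of polynomial equations and (strict and
non-strict) inequalities. -/
inductive QFormula : Type
  | eq (s t : PTerm) : QFormula
  | lt (s t : PTerm) : QFormula
  | le (s t : PTerm) : QFormula
  | not (φ : QFormula) : QFormula
  | and (φ ψ : QFormula) : QFormula
  | or (φ ψ : QFormula) : QFormula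

/-- Truth of a quantifier-free formula under an assignment. -/
def QFormula.Holds (x : ℕ → ℝ) : QFormula → Prop
  | .eq s t => s.eval x = t.eval x
  | .lt s t => s.eval x < t.eval x
  | .le s t => s.eval x ≤ t.eval x
  | .not φ => ¬ φ.Holds x
  | .and φ ψ => φ.Holds x ∧ ψ.Holds x
  | .or φ ψ => φ.Holds x ∨ ψ.Holds x

/-- The alphabet in which formulas are written (in postfix notation). -/
inductive Tok : Type
  | tick | var | zero | dig0 | dig1 | neg | add | mul | eq | lt | le | not | and | or
  deriving DecidableEq

instance : Fintype Tok where
  elems := {.tick, .var, .zero, .dig0, .dig1, .neg, .add, .mul, .eq, .lt, .le, .not, .and, .or}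
  complete := by intro x; cases x <;> decide

/-- Natural numbers in binary: the symbol `zero` followed by the binary digits, most significant
digit first. -/
def encNat (n : ℕ) : List Tok :=
  if h : n = 0 then [.zero]
  else encNat (n / 2) ++ [if n % 2 = 1 then .dig1 else .dig0]
termination_by n
decreasing_by omega

/-- Postfix notation of terms; the variable `x_i` is written as `i` ticks followed by `var`. -/
def PTerm.enc : PTerm → List Tok
  | .var i => List.replicate i .tick ++ [.var]
  | .const n => encNat n
  | .neg s => s.enc ++ [.neg]
  | .add s t => s.enc ++ t.enc ++ [.add]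
  | .mul s t => s.enc ++ t.enc ++ [.mul]

/-- Postfix notation of formulas. -/
def QFormula.enc : QFormula → List Tok
  | .eq s t => s.enc ++ t.enc ++ [.eq]
  | .lt s t => s.enc ++ t.enc ++ [.lt]
  | .le s t => s.enc ++ t.enc ++ [.le]
  | .not φ => φ.enc ++ [.not]
  | .and φ ψ => φ.enc ++ ψ.enc ++ [.and]
  | .or φ ψ => φ.enc ++ ψ.enc ++ [.or]

/-! Unique readability of the postfix notation. -/

/-- symbols already read -/
inductive Obj : Type
  | t (s : PTerm) : Obj
  | f (φ : QFormula) : Obj

/-- One step of reading: the stack of objects read so far and the number of pending ticks. -/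
def readTok : Tok → List Obj × ℕ → List Obj × ℕ
  | .tick, (st, h) => (st, h + 1)
  | .var, (st, h) => (.t (.var h) :: st, 0)
  | .zero, (st, h) => (.t (.const 0) :: st, h)
  | .dig0, (.t (.const n) :: st, h) => (.t (.const (2 * n)) :: st, h)
  | .dig1, (.t (.const n) :: st, h) => (.t (.const (2 * n + 1)) :: st, h)
  | .neg, (.t s :: st, h) => (.t (.neg s) :: st, h)
  | .add, (.t t :: .t s :: st, h) => (.t (.add s t) :: st, h)
  | .mul, (.t t :: .t s :: st, h) => (.t (.mul s t) :: st, h)
  | .eq, (.t t :: .t s :: st, h) => (.f (.eq s t) :: st, h)
  | .lt, (.t t :: .t s :: st, h) => (.f (.lt s t) :: st, h)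
  | .le, (.t t :: .t s :: st, h) => (.f (.le s t) :: st, h)
  | .not, (.f φ :: st, h) => (.f (.not φ) :: st, h)
  | .and, (.f ψ :: .f φ :: st, h) => (.f (.and φ ψ) :: st, h)
  | .or, (.f ψ :: .f φ :: st, h) => (.f (.or φ ψ) :: st, h)
  | _, s => s

theorem foldl_ticks (i : ℕ) (st : List Obj) (h : ℕ) :
    (List.replicate i Tok.tick).foldl (fun s t => readTok t s) (st, h) = (st, h + i) := by
  induction i generalizing h with
  | zero => simp
  | succ i ih => rw [List.replicate_succ, List.foldl_cons, readTok, ih]; congr 1; omega

theorem foldl_encNat (n : ℕ) (st : List Obj) :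
    (encNat n).foldl (fun s t => readTok t s) (st, 0) = (.t (.const n) :: st, 0) := by
  induction n using Nat.strong_induction_on with
  | _ n ih =>
    rw [encNat]
    split_ifs with h h1
    · subst h; rfl
    · rw [List.foldl_append, ih _ (by omega)]
      simp only [List.foldl_cons, List.foldl_nil, readTok]
      congr 4; omega
    · rw [List.foldl_append, ih _ (by omega)]
      simp only [List.foldl_cons, List.foldl_nil, readTok]
      congr 4; omega

theorem foldl_encTerm (s : PTerm) (st : List Obj) :
    s.enc.foldl (fun s t => readTok t s) (st, 0) = (.t s :: st, 0) := by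
  induction s generalizing st with
  | var i => rw [PTerm.enc, List.foldl_append, foldl_ticks]; simp [readTok]
  | const n => exact foldl_encNat n st
  | neg s ih => rw [PTerm.enc, List.foldl_append, ih]; rfl
  | add s t ih1 ih2 => rw [PTerm.enc, List.foldl_append, List.foldl_append, ih1, ih2]; rfl
  | mul s t ih1 ih2 => rw [PTerm.enc, List.foldl_append, List.foldl_append, ih1, ih2]; rfl

theorem foldl_encFormula (φ : QFormula) (st : List Obj) :
    φ.enc.foldl (fun s t => readTok t s) (st, 0) = (.f φ :: st, 0) := by
  induction φ generalizing st with
  | eq s t => rw [QFormula.enc, List.foldl_append, List.foldl_append, foldl_encTerm, foldl_encTerm]; rfl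
  | lt s t => rw [QFormula.enc, List.foldl_append, List.foldl_append, foldl_encTerm, foldl_encTerm]; rfl
  | le s t => rw [QFormula.enc, List.foldl_append, List.foldl_append, foldl_encTerm, foldl_encTerm]; rfl
  | not φ ih => rw [QFormula.enc, List.foldl_append, ih]; rfl
  | and φ ψ ih1 ih2 => rw [QFormula.enc, List.foldl_append, List.foldl_append, ih1, ih2]; rfl
  | or φ ψ ih1 ih2 => rw [QFormula.enc, List.foldl_append, List.foldl_append, ih1, ih2]; rfl

theorem QFormula.enc_injective : Function.Injective QFormula.enc := by
  intro φ ψ h
  have h1 := foldl_encFormula φ []
  have h2 := foldl_encFormula ψ []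
  rw [h, h2] at h1
  simpa using h1.symm

/-- The existential theory of the reals: given a quantifier-free formula `φ` (a Boolean combination
of polynomial equations and inequalities with integer coefficients), is the sentence
`∃ x_0 ∃ x_1 … φ` true in the reals? -/
noncomputable def ETR : DecisionProblem where
  Inst := QFormula
  Alph := Tok
  finAlph := inferInstance
  enc := encodingOfInjective QFormula.enc QFormula.enc_injective
  Yes φ := ∃ x : ℕ → ℝ, φ.Holds x

/-! ## The class and its complete problems -/

/-- `A` belongs to the complexity class of the existential theory of the reals. -/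
def InExistsR (A : DecisionProblem) : Prop := PolyTimeReduces A ETR

/-- every problem of the class reduces to `B` -/
def ExistsRHard (B : DecisionProblem) : Prop := ∀ A : DecisionProblem, InExistsR A → PolyTimeReduces A B

/-- `B` is complete for the class. -/
def ExistsRComplete (B : DecisionProblem) : Prop := InExistsR B ∧ ExistsRHard B

/-! ## ORTH3 -/

/-- `φ` is an orthogonal representation of `G` in three-space: nonzero vectors, non-collinear for
distinct vertices, orthogonal for adjacent vertices. -/
def IsOrthRep {V : Type} (G : SimpleGraph V) (φ : V → EuclideanSpace ℝ (Fin 3)) : Prop :=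
  (∀ v, φ v ≠ 0) ∧ (∀ u v, u ≠ v → ∀ c : ℝ, φ u ≠ c • φ v) ∧
    ∀ u v, G.Adj u v → inner ℝ (φ u) (φ v) = 0

/-- `G` has an orthogonal representation in three-space. -/
def HasOrthRep {V : Type} (G : SimpleGraph V) : Prop :=
  ∃ φ : V → EuclideanSpace ℝ (Fin 3), IsOrthRep G φ

/-- A finite graph given by the number of its vertices `0, …, n - 1` and a list of edges. -/
structure EdgeList : Type where
  n : ℕ
  edges : List (Fin n × Fin n)

/-- The graph given by an edge list. -/
def EdgeList.graph (L : EdgeList) : SimpleGraph (Fin L.n) :=
  SimpleGraph.fromRel fun u v => (u, v) ∈ L.edges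

/-- unary numbers, ended by `false` -/
def unary (k : ℕ) : List Bool := List.replicate k true ++ [false]

/-- The encoding of a graph: the number of vertices and then, for each edge, its two ends, all
in unary. -/
def EdgeList.enc (L : EdgeList) : List Bool :=
  unary L.n ++ L.edges.flatMap fun e => unary e.1 ++ unary e.2

theorem unary_append_inj {j k : ℕ} {l m : List Bool} (h : unary j ++ l = unary k ++ m) :
    j = k ∧ l = m := by
  unfold unary at h
  induction j generalizing k with
  | zero =>
    cases k with
    | zero => simpa using h
    | succ k => simp [List.replicate_succ] at h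
  | succ j ih =>
    cases k with
    | zero => simp [List.replicate_succ] at h
    | succ k =>
      simp only [List.replicate_succ, List.cons_append, List.cons.injEq, true_and] at h
      obtain ⟨h1, h2⟩ := ih h
      exact ⟨by rw [h1], h2⟩

theorem EdgeList.enc_injective : Function.Injective EdgeList.enc := by
  rintro ⟨n, e⟩ ⟨n', e'⟩ h
  unfold EdgeList.enc at h
  obtain ⟨h1, h2⟩ := unary_append_inj h
  simp only at h1
  subst h1
  congr 1
  simp only at h2
  clear h
  induction e generalizing e' with
  | nil =>
    cases e' with
    | nil => rfl
    | cons a e' => simp [unary] at h2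
  | cons a e ih =>
    cases e' with
    | nil => simp [unary] at h2
    | cons a' e' =>
      simp only [List.flatMap_cons, List.append_assoc] at h2
      obtain ⟨h3, h4⟩ := unary_append_inj h2
      obtain ⟨h5, h6⟩ := unary_append_inj h4
      rw [ih _ h6]
      congr 1
      exact Prod.ext (Fin.ext h3) (Fin.ext h5)

/-- ORTH3: given a graph, does it have an orthogonal representation in three-space? -/
noncomputable def ORTH3 : DecisionProblem where
  Inst := EdgeList
  Alph := Bool
  finAlph := inferInstance
  enc := encodingOfInjective EdgeList.enc EdgeList.enc_injective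
  Yes L := HasOrthRep L.graph

end Pool.Agent.Helper89
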