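import Pool.Agent.Helper89.OrthCore

/-!
# The constraint gadget

A real number `x` is coded by two large reals `c` and `X = x + 2 c`.  The gadget enforces
`x₁ * x₂ + x₃ = x₄` between four coded numbers by 29 additive and multiplicative equations
between 31 fresh numbers, which form a strictly increasing chain.
-/

namespace Pool.Agent.Helper89

theorem Eqn.map_holds {α β : Type} (f : α → β) (val : β → ℝ) (e : Eqn α) :
    (e.map f).Holds val ↔ e.Holds (fun a => val (f a)) := by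
  cases e <;> rfl

/-- local slot -/
def lo (k : ℕ) : ℕ ⊕ ℕ := Sum.inl k
/-- external slot: 0,1 = first number, 2,3 = second, 4,5 = third, 6,7 = fourth -/
def ex (k : ℕ) : ℕ ⊕ ℕ := Sum.inr k

/-- The 31 equations of the constraint gadget. -/
def gadT : List (Eqn (ℕ ⊕ ℕ)) :=
  [ .add (lo 29) (lo 10) (lo 30),
    .add (lo 0) (ex 3) (lo 1),
    .add (lo 1) (lo 0) (lo 2),
    .add (lo 4) (ex 2) (lo 5),
    .add (lo 3) (ex 2) (lo 4),
    .add (lo 2) (lo 0) (lo 5),
    .mul (lo 0) (ex 0) (lo 6),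
    .mul (lo 0) (ex 1) (lo 7),
    .mul (lo 3) (ex 0) (lo 8),
    .mul (lo 3) (ex 1) (lo 9),
    .pt (lo 10) (lo 10),
    .add (lo 10) (lo 9) (lo 11),
    .add (lo 11) (lo 6) (lo 12),
    .add (lo 12) (lo 6) (lo 13),
    .add (lo 13) (lo 6) (lo 14),
    .add (lo 14) (lo 6) (lo 15),
    .add (lo 15) (lo 6) (lo 16),
    .add (lo 16) (lo 6) (lo 17),
    .add (lo 17) (ex 5) (lo 18),
    .add (lo 18) (ex 6) (lo 19),
    .add (lo 19) (ex 6) (lo 20),
    .pt (lo 21) (lo 21),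
    .add (lo 21) (lo 7) (lo 22),
    .add (lo 22) (lo 7) (lo 23),
    .add (lo 23) (lo 7) (lo 24),
    .add (lo 24) (lo 8) (lo 25),
    .add (lo 25) (lo 8) (lo 26),
    .add (lo 26) (ex 4) (lo 27),
    .add (lo 27) (ex 4) (lo 28),
    .add (lo 28) (ex 7) (lo 29),
    .add (lo 20) (lo 21) (lo 30) ]

theorem gadT_length : gadT.length = 31 := rfl

/-- Soundness of the gadget. -/
theorem gadget_sound (w e : ℕ → ℝ) (h : ∀ q ∈ gadT, q.Holds (Sum.elim w e)) :
    (e 1 - 2 * e 0) * (e 3 - 2 * e 2) + (e 5 - 2 * e 4) = e 7 - 2 * e 6 := by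
  simp only [gadT, List.forall_mem_cons, Eqn.Holds, lo, ex, Sum.elim_inl, Sum.elim_inr,
    List.not_mem_nil, false_imp_iff, implies_true, and_true, true_and] at h
  obtain ⟨h0, h1, h2, h3, h4, h5, h6, h7, h8, h9, h11, h12, h13, h14, h15, h16, h17, h18, h19,
    h20, h22, h23, h24, h25, h26, h27, h28, h29, h30⟩ := h
  have hY : w 3 = 3 * w 0 + e 3 - 2 * e 2 := by linarith
  have hsum : w 9 + 6 * w 6 + e 5 + 2 * e 6 = 3 * w 7 + 2 * w 8 + 2 * e 4 + e 7 := by linarith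
  rw [← h6, ← h7, ← h8, ← h9, hY] at hsum
  linarith

/-- Completeness of the gadget. -/
theorem gadget_complete (M a A b B c C d D : ℝ) (ha : 5 ≤ a) (haA : a < A) (hA3 : A < 3 * a)
    (hb : 1 < b) (hB : 1 < B) (hc : 1 < c) (hC : 1 < C) (hd : 1 < d) (hD : 1 < D)
    (hR : (A - 2 * a) * (B - 2 * b) + (C - 2 * c) = D - 2 * d) :
    ∃ w : ℕ → ℝ, M < w 0 ∧ (∀ i < 30, w i < w (i + 1)) ∧
      ∀ q ∈ gadT, q.Holds (Sum.elim w (fun i => [a, A, b, B, c, C, d, D].getD i 0)) := by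
  have hδ : 0 < 3 * a - A := by linarith
  obtain ⟨s, hsM, hsb, hsB, hsδ⟩ : ∃ s : ℝ, M < s ∧ 2 * b < s ∧ B < s ∧
      2 * a * b < (3 * a - A) * s := by
    refine ⟨|M| + 2 * b + B + 2 * a * b / (3 * a - A) + 1, ?_, ?_, ?_, ?_⟩
    · have : 0 < 2 * a * b / (3 * a - A) := by positivity
      have := le_abs_self M
      linarith
    · have : 0 < 2 * a * b / (3 * a - A) := by positivity
      have := abs_nonneg M
      linarith
    · have : 0 < 2 * a * b / (3 * a - A) := by positivity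
      have := abs_nonneg M
      linarith
    · have h1 : (3 * a - A) * (2 * a * b / (3 * a - A)) = 2 * a * b := by field_simp
      have h2 := abs_nonneg M
      have h3 : 0 < (3 * a - A) * (|M| + 2 * b + B + 1) := by positivity
      nlinarith
  have hs0 : 0 < s := by linarith
  obtain ⟨Y, hY⟩ : ∃ Y, Y = 3 * s + B - 2 * b := ⟨_, rfl⟩
  have hY0 : 0 < Y := by linarith
  obtain ⟨T, hT⟩ : ∃ T, T = s * a := ⟨_, rfl⟩
  obtain ⟨Q, hQ⟩ : ∃ Q, Q = s * A := ⟨_, rfl⟩
  obtain ⟨R, hR'⟩ : ∃ R, R = Y * a := ⟨_, rfl⟩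
  obtain ⟨P, hP⟩ : ∃ P, P = Y * A := ⟨_, rfl⟩
  have hT0 : 0 < T := by rw [hT]; positivity
  have h56 : 3 * s + B < T := by rw [hT]; nlinarith
  have h67 : T < Q := by rw [hT, hQ]; nlinarith
  have h78 : Q < R := by rw [hQ, hR', hY]; nlinarith
  have h89 : R < P := by rw [hR', hP]; nlinarith
  have hQ0 : 0 < Q := by linarith
  have hR0 : 0 < R := by linarith
  have hP0 : 0 < P := by linarith
  obtain ⟨u, hu⟩ : ∃ u, u = P + 1 := ⟨_, rfl⟩
  have hu0 : 0 < u := by linarith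
  obtain ⟨v, hv⟩ : ∃ v, v = u + P + 6 * T + C + 2 * d + 1 := ⟨_, rfl⟩
  have hsum : P + 6 * T + C + 2 * d = 3 * Q + 2 * R + 2 * c + D := by
    rw [hP, hT, hQ, hR', hY]
    linarith
  refine ⟨fun i => [s, s + B, 2 * s + B, Y, Y + b, 3 * s + B, T, Q, R, P, u, u + P, u + P + T,
    u + P + 2 * T, u + P + 3 * T, u + P + 4 * T, u + P + 5 * T, u + P + 6 * T,
    u + P + 6 * T + C, u + P + 6 * T + C + d, u + P + 6 * T + C + 2 * d, v, v + Q,
    v + 2 * Q, v + 3 * Q, v + 3 * Q + R, v + 3 * Q + 2 * R, v + 3 * Q + 2 * R + c,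
    v + 3 * Q + 2 * R + 2 * c, v + 3 * Q + 2 * R + 2 * c + D,
    u + P + 6 * T + C + 2 * d + v].getD i 0, ?_, ?_, ?_⟩
  · simpa using hsM
  · intro i hi
    interval_cases i <;> simp only [List.getD_cons_zero, List.getD_cons_succ] <;> linarith
  · simp only [gadT, List.forall_mem_cons, Eqn.Holds, lo, ex, Sum.elim_inl, Sum.elim_inr,
      List.not_mem_nil, false_imp_iff, implies_true, and_true, true_and,
      List.getD_cons_zero, List.getD_cons_succ]
    and_intros <;> linarith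

end Pool.Agent.Helper89
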