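import Pool.Agent.Helper89.OrthSound
import Pool.Agent.Helper89.Defs

/-!
# Orthogonal representations of graphs in three-space
-/

namespace Pool.Agent.Helper89

theorem hasOrthRep_of_numRep {n : ℕ} {E : ℕ × ℕ → Prop} {x y z : ℕ → ℝ}
    (H : NumRep n E x y z) (G : SimpleGraph (Fin n))
    (hG : ∀ u v : Fin n, G.Adj u v → E (u, v) ∨ E (v, u)) : HasOrthRep G := by
  refine ⟨fun v => !₂[x v, y v, z v], ?_, ?_, ?_⟩
  · intro v h
    apply H.ne_zero v v.2
    have h0 := congrArg (fun w : EuclideanSpace ℝ (Fin 3) => w 0) h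
    have h1 := congrArg (fun w : EuclideanSpace ℝ (Fin 3) => w 1) h
    have h2 := congrArg (fun w : EuclideanSpace ℝ (Fin 3) => w 2) h
    simp at h0 h1 h2
    exact ⟨h0, h1, h2⟩
  · intro u v huv c h
    apply H.ncol u u.2 v v.2 (fun h => huv (Fin.ext h)) c
    have h0 := congrArg (fun w : EuclideanSpace ℝ (Fin 3) => w 0) h
    have h1 := congrArg (fun w : EuclideanSpace ℝ (Fin 3) => w 1) h
    have h2 := congrArg (fun w : EuclideanSpace ℝ (Fin 3) => w 2) h
    simp at h0 h1 h2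
    exact ⟨h0, h1, h2⟩
  · intro u v huv
    rcases hG u v huv with h | h
    · have := H.orth _ h
      simp [EuclideanSpace.inner_eq_star_dotProduct]
      simp at this
      linarith
    · have := H.orth _ h
      simp [EuclideanSpace.inner_eq_star_dotProduct]
      simp at this
      linarith

theorem numRep_of_hasOrthRep {n : ℕ} {E : ℕ × ℕ → Prop} (G : SimpleGraph (Fin n))
    (hn : 3 ≤ n) (h01 : E (0, 1)) (h02 : E (0, 2)) (h12 : E (1, 2))
    (hG : ∀ e, E e → ∃ (h1 : e.1 < n) (h2 : e.2 < n), G.Adj ⟨e.1, h1⟩ ⟨e.2, h2⟩)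
    (hrep : HasOrthRep G) : ∃ x y z : ℕ → ℝ, NumRep n E x y z ∧ Aligned x y z := by
  obtain ⟨φ, h0, hc, ho⟩ := hrep
  have i0 : (0 : ℕ) < n := by omega
  have i1 : (1 : ℕ) < n := by omega
  have i2 : (2 : ℕ) < n := by omega
  have o01 : inner ℝ (φ ⟨0, i0⟩) (φ ⟨1, i1⟩) = 0 := by
    obtain ⟨a, b, hab⟩ := hG _ h01
    exact ho _ _ hab
  have o02 : inner ℝ (φ ⟨0, i0⟩) (φ ⟨2, i2⟩) = 0 := by
    obtain ⟨a, b, hab⟩ := hG _ h02
    exact ho _ _ hab
  have o12 : inner ℝ (φ ⟨1, i1⟩) (φ ⟨2, i2⟩) = 0 := by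
    obtain ⟨a, b, hab⟩ := hG _ h12
    exact ho _ _ hab
  have o10 : inner ℝ (φ ⟨1, i1⟩) (φ ⟨0, i0⟩) = 0 := by rw [real_inner_comm]; exact o01
  have o20 : inner ℝ (φ ⟨2, i2⟩) (φ ⟨0, i0⟩) = 0 := by rw [real_inner_comm]; exact o02
  have o21 : inner ℝ (φ ⟨2, i2⟩) (φ ⟨1, i1⟩) = 0 := by rw [real_inner_comm]; exact o12
  let e : Fin 3 → EuclideanSpace ℝ (Fin 3) := ![φ ⟨0, i0⟩, φ ⟨1, i1⟩, φ ⟨2, i2⟩]
  have he0 : ∀ i, e i ≠ 0 := by
    intro i; fin_cases i
    · exact h0 _
    · exact h0 _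
    · exact h0 _
  have heo : ∀ i j, i ≠ j → inner ℝ (e i) (e j) = 0 := by
    intro i j hij
    fin_cases i <;> fin_cases j <;> first | exact absurd rfl hij | assumption
  let b' : Fin 3 → EuclideanSpace ℝ (Fin 3) := fun i => (‖e i‖)⁻¹ • e i
  have hb' : Orthonormal ℝ b' := by
    constructor
    · intro i
      have : ‖e i‖ ≠ 0 := norm_ne_zero_iff.2 (he0 i)
      simp [b', norm_smul, this]
    · intro i j hij
      simp only [b', real_inner_smul_left, real_inner_smul_right]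
      rw [heo i j hij]
      simp
  obtain ⟨b, hb⟩ := Orthonormal.exists_orthonormalBasis_extension_of_card_eq
    (𝕜 := ℝ) (E := EuclideanSpace ℝ (Fin 3)) (ι := Fin 3) (by simp) (v := b') (s := Set.univ)
    (by
      rw [orthonormal_iff_ite] at hb' ⊢
      intro i j
      have := hb' i.1 j.1
      simp only [Set.domRestrict_apply]
      rw [this]
      congr 1
      simp [Subtype.ext_iff])
  have hb2 : ∀ i, b i = b' i := fun i => hb i (Set.mem_univ i)
  have hbe : ∀ i j, i ≠ j → inner ℝ (b i) (e j) = 0 := by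
    intro i j hij
    rw [hb2]
    simp only [b', real_inner_smul_left]
    rw [heo i j hij]
    simp
  -- coordinates
  let ψ : ℕ → EuclideanSpace ℝ (Fin 3) := fun i => if h : i < n then φ ⟨i, h⟩ else 0
  have hψ : ∀ i (h : i < n), ψ i = φ ⟨i, h⟩ := fun i h => by simp [ψ, h]
  have hext : ∀ u v : EuclideanSpace ℝ (Fin 3), (∀ i, inner ℝ (b i) u = inner ℝ (b i) v) → u = v := by
    intro u v h
    apply b.repr.injective
    ext i
    rw [b.repr_apply_apply, b.repr_apply_apply]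
    exact h i
  refine ⟨fun i => inner ℝ (b 0) (ψ i), fun i => inner ℝ (b 1) (ψ i),
    fun i => inner ℝ (b 2) (ψ i), ⟨?_, ?_, ?_⟩, ⟨?_, ?_, ?_, ?_, ?_, ?_⟩⟩
  · rintro i hi ⟨h1, h2, h3⟩
    apply h0 ⟨i, hi⟩
    rw [← hψ i hi]
    apply hext
    intro k
    rw [inner_zero_right]
    fin_cases k
    · exact h1
    · exact h2
    · exact h3
  · rintro i hi j hj hij c ⟨h1, h2, h3⟩
    apply hc ⟨i, hi⟩ ⟨j, hj⟩ (fun h => hij (Fin.ext_iff.1 h)) c
    rw [← hψ i hi, ← hψ j hj]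
    apply hext
    intro k
    rw [real_inner_smul_right]
    fin_cases k
    · exact h1
    · exact h2
    · exact h3
  · intro e' he'
    obtain ⟨a, b1, hab⟩ := hG _ he'
    have := ho _ _ hab
    rw [← hψ, ← hψ, ← b.sum_inner_mul_inner, Fin.sum_univ_three] at this
    rw [real_inner_comm (b 0), real_inner_comm (b 1), real_inner_comm (b 2)] at this
    exact this
  · have := hbe 1 0 (by decide)
    rw [hψ 0 i0]; exact this
  · have := hbe 2 0 (by decide)
    rw [hψ 0 i0]; exact this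
  · have := hbe 0 1 (by decide)
    rw [hψ 1 i1]; exact this
  · have := hbe 2 1 (by decide)
    rw [hψ 1 i1]; exact this
  · have := hbe 0 2 (by decide)
    rw [hψ 2 i2]; exact this
  · have := hbe 1 2 (by decide)
    rw [hψ 2 i2]; exact this

end Pool.Agent.Helper89
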