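import Pool.Agent.Helper89.Layer1b
import Pool.Agent.Helper89.OrthRep

/-!
# The graph of a formula
-/

namespace Pool.Agent.Helper89

/-- edges of all blocks, last block first -/
def edgesAcc : List Tok → St → List (ℕ × ℕ) → List (ℕ × ℕ)
  | [], s, acc => blkEdges none (finEnv s) ++ acc
  | t :: ts, s, acc => edgesAcc ts (next t s) (blkEdges (some t) (envOf t s) ++ acc)

def edgesN (ts : List Tok) : List (ℕ × ℕ) := edgesAcc ts ⟨0, [], 0⟩ preEdges

theorem mem_edgesAcc (ts : List Tok) (s : St) (acc : List (ℕ × ℕ)) (e : ℕ × ℕ) :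
    e ∈ edgesAcc ts s acc ↔ e ∈ acc ∨
      ∃ b ∈ blks ts s ++ [(none, finEnv (nextL ts s))], e ∈ blkEdges b.1 b.2 := by
  induction ts generalizing s acc with
  | nil =>
    simp only [edgesAcc, List.mem_append, blks, List.nil_append, List.mem_singleton, exists_eq_left,
      nextL, List.foldl_nil]
    tauto
  | cons t ts ih =>
    rw [edgesAcc, ih]
    have : nextL (t :: ts) s = nextL ts (next t s) := rfl
    rw [this]
    simp only [List.mem_append, blks, List.cons_append, List.mem_cons]
    constructor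
    · rintro ((h | h) | ⟨b, hb, h⟩)
      · exact Or.inr ⟨_, Or.inl rfl, h⟩
      · exact Or.inl h
      · exact Or.inr ⟨b, Or.inr hb, h⟩
    · rintro (h | ⟨b, rfl | hb, h⟩)
      · exact Or.inl (Or.inr h)
      · exact Or.inl (Or.inl h)
      · exact Or.inr ⟨b, hb, h⟩

theorem mem_edgesN (ts : List Tok) (e : ℕ × ℕ) :
    e ∈ edgesN ts ↔ SysEdge (slots (ts.length + 1)) (sysOf (progOf ts)) e := by
  rw [sysEdge_iff _ _ (fun p hp => (progOf_env ts hp).1)]
  unfold edgesN
  rw [mem_edgesAcc]
  change e ∈ preEdges ∨ (∃ b ∈ allBlks ts, e ∈ blkEdges b.1 b.2) ↔ _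
  refine or_congr Iff.rfl ?_
  constructor
  · rintro ⟨b, hb, h⟩
    obtain ⟨i, hi, rfl⟩ := List.mem_iff_getElem.1 hb
    refine ⟨i, by rw [allBlks_length] at hi; exact hi, ?_⟩
    rw [progOf_eq ts hi]
    exact h
  · rintro ⟨p, hp, h⟩
    have hp' : p < (allBlks ts).length := by rw [allBlks_length]; exact hp
    rw [progOf_eq ts hp'] at h
    exact ⟨_, List.getElem_mem hp', h⟩

theorem vid_lt' {m g r : ℕ} (hg : g < m) (hr : r < 8) : vid g r < 5 + 8 * m := by
  unfold vid; omega

theorem sysEdge_range {m : ℕ} {sys : ℕ → Eqn ℕ} (hidx : ∀ g < m, (sys g).All (· < m))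
    (e : ℕ × ℕ) (he : SysEdge m sys e) :
    e.1 < 5 + 8 * m ∧ e.2 < 5 + 8 * m ∧ e.1 ≠ e.2 := by
  rcases he with he | ⟨g, hg, he⟩
  · simp only [frameEdges, List.mem_cons, List.not_mem_nil, or_false] at he
    rcases he with rfl | rfl | rfl | rfl | rfl <;> simp only <;> omega
  · have hI := hidx g hg
    unfold slotEdges at he
    rw [List.mem_append] at he
    rcases he with he | he
    · simp only [List.mem_cons, List.not_mem_nil, or_false] at he
      rcases he with rfl | rfl | rfl | rfl | rfl | rfl | rfl | rfl | rfl | rfl | rfl | rfl | rfl <;>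
        simp only [vid, id] <;> omega
    · revert hI he
      cases hs : sys g with
      | pt i j =>
        intro hI he
        simp only [Eqn.All] at hI
        simp only [List.mem_cons, List.not_mem_nil, or_false] at he
        rcases he with rfl | rfl <;> simp only [vid] <;> omega
      | add i j k =>
        intro hI he
        simp only [Eqn.All] at hI
        simp only [List.mem_cons, List.not_mem_nil, or_false] at he
        rcases he with rfl | rfl | rfl <;> simp only [vid] <;> omega
      | mul i j k =>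
        intro hI he
        simp only [Eqn.All] at hI
        simp only [List.mem_cons, List.not_mem_nil, or_false] at he
        rcases he with rfl | rfl | rfl <;> simp only [vid] <;> omega

/-- number of vertices of the graph of `len` tokens -/
def numV (len : ℕ) : ℕ := 61 + 1600 * (len + 1)

theorem numV_eq (len : ℕ) : numV len = 5 + 8 * slots (len + 1) := by
  unfold numV slots; ring

theorem edgesN_range (ts : List Tok) (e : ℕ × ℕ) (he : e ∈ edgesN ts) :
    e.1 < numV ts.length ∧ e.2 < numV ts.length ∧ e.1 ≠ e.2 := by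
  rw [numV_eq]
  exact sysEdge_range (sys_idx (progOf_wf ts)) e ((mem_edgesN ts e).1 he)

/-- the graph of a list of tokens -/
def graphOf (ts : List Tok) : EdgeList where
  n := numV ts.length
  edges := (edgesN ts).pmap (fun e he => (⟨e.1, he.1⟩, ⟨e.2, he.2.1⟩)) (edgesN_range ts)

theorem mem_graphOf (ts : List Tok) (u v : Fin (numV ts.length)) :
    (u, v) ∈ (graphOf ts).edges ↔ ((u : ℕ), (v : ℕ)) ∈ edgesN ts := by
  unfold graphOf
  simp only [List.mem_pmap]
  constructor
  · rintro ⟨e, he, h⟩
    have h1 : e.1 = u := congrArg (fun x : Fin _ × Fin _ => (x.1 : ℕ)) h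
    have h2 : e.2 = v := congrArg (fun x : Fin _ × Fin _ => (x.2 : ℕ)) h
    rw [← h1, ← h2]
    exact he
  · intro h
    exact ⟨_, h, rfl⟩

theorem graphOf_adj (ts : List Tok) (u v : Fin (numV ts.length)) :
    (graphOf ts).graph.Adj u v ↔ u ≠ v ∧
      (((u : ℕ), (v : ℕ)) ∈ edgesN ts ∨ ((v : ℕ), (u : ℕ)) ∈ edgesN ts) := by
  exact (SimpleGraph.fromRel_adj _ _ _).trans
    (and_congr Iff.rfl (or_congr (mem_graphOf ts u v) (mem_graphOf ts v u)))

/-- **The graph of a formula has an orthogonal representation iff the formula is satisfiable.** -/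
theorem hasOrthRep_graphOf (φ : QFormula) :
    HasOrthRep (graphOf φ.enc).graph ↔ ∃ x : ℕ → ℝ, φ.Holds x := by
  rw [← exists_progSat_iff]
  have W := progOf_wf φ.enc
  constructor
  · intro h
    have hadj : ∀ e, SysEdge (slots (φ.enc.length + 1)) (sysOf (progOf φ.enc)) e →
        ∃ (h1 : e.1 < numV φ.enc.length) (h2 : e.2 < numV φ.enc.length),
          (graphOf φ.enc).graph.Adj ⟨e.1, h1⟩ ⟨e.2, h2⟩ := by
      intro e he
      rw [← mem_edgesN] at he
      obtain ⟨h1, h2, h3⟩ := edgesN_range _ _ he
      exact ⟨h1, h2, (graphOf_adj _ _ _).2 ⟨fun h => h3 (Fin.ext_iff.1 h), Or.inl he⟩⟩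
    obtain ⟨x, y, z, H, A⟩ := numRep_of_hasOrthRep (n := numV φ.enc.length)
      (E := SysEdge (slots (φ.enc.length + 1)) (sysOf (progOf φ.enc))) (graphOf φ.enc).graph
      (by unfold numV; omega)
      (Or.inl (by simp [frameEdges])) (Or.inl (by simp [frameEdges]))
      (Or.inl (by simp [frameEdges])) hadj h
    rw [numV_eq] at H
    obtain ⟨val, hv0, hv⟩ := holds_of_aligned H A (sys_idx W)
    exact real_of_holds hv0 hv
  · rintro ⟨ρ, hρ⟩
    obtain ⟨val, H⟩ := strict_of_real W hρ
    obtain ⟨x, y, z, H'⟩ := numRep_of_strict H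
    rw [← numV_eq] at H'
    refine hasOrthRep_of_numRep H' (graphOf φ.enc).graph ?_
    intro u v huv
    have huv' := (graphOf_adj _ _ _).1 huv
    rw [← mem_edgesN, ← mem_edgesN]
    exact huv'.2

/-- the encoding of the graph -/
theorem graphOf_enc (ts : List Tok) :
    (graphOf ts).enc = unary (numV ts.length) ++
      (edgesN ts).flatMap (fun e => unary e.1 ++ unary e.2) := by
  unfold EdgeList.enc
  congr 1
  simp only [graphOf]
  generalize edgesN_range ts = h
  revert h
  generalize edgesN ts = l
  intro h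
  induction l with
  | nil => rfl
  | cons a l ih =>
    simp only [List.pmap_cons, List.flatMap_cons]
    rw [ih]

end Pool.Agent.Helper89
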