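import Pool.Agent.Helper89.Layer2b

/-!
# From formulas to programs
-/

namespace Pool.Agent.Helper89

/-- state of the reading machine: position, stack of positions of operands, pending ticks -/
structure St : Type where
  p : ℕ
  stk : List ℕ
  h : ℕ

def arity : Tok → ℕ
  | .tick => 0
  | .var => 0
  | .zero => 0
  | .dig0 => 1
  | .dig1 => 1
  | .neg => 1
  | .not => 1
  | _ => 2

/-- the environment of the block of the current token -/
def envOf (t : Tok) (s : St) : Env where
  p := s.p
  l := if arity t = 2 then s.stk.tail.headD 0 else 0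
  r := if arity t = 0 then 0 else s.stk.headD 0
  h := s.h

def next (t : Tok) (s : St) : St where
  p := s.p + 1
  stk := if t = .tick then s.stk else s.p :: s.stk.drop (arity t)
  h := if t = .tick then s.h + 1 else 0

def nextL (ts : List Tok) (s : St) : St := ts.foldl (fun s t => next t s) s

/-- blocks of a list of tokens, started in state `s` -/
def blks : List Tok → St → List (Option Tok × Env)
  | [], _ => []
  | t :: ts, s => (some t, envOf t s) :: blks ts (next t s)

/-- environment of the final block -/
def finEnv (s : St) : Env := ⟨s.p, 0, s.stk.headD 0, s.h⟩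

/-- all blocks, including the final one -/
def allBlks (ts : List Tok) : List (Option Tok × Env) :=
  blks ts ⟨0, [], 0⟩ ++ [(none, finEnv (nextL ts ⟨0, [], 0⟩))]

theorem nextL_append (a b : List Tok) (s : St) : nextL (a ++ b) s = nextL b (nextL a s) := by
  simp [nextL]

theorem blks_append (a b : List Tok) (s : St) : blks (a ++ b) s = blks a s ++ blks b (nextL a s) := by
  induction a generalizing s with
  | nil => rfl
  | cons t a ih => simp only [List.cons_append, blks, ih]; rfl

theorem blks_length (a : List Tok) (s : St) : (blks a s).length = a.length := by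
  induction a generalizing s with
  | nil => rfl
  | cons t a ih => simp [blks, ih]

theorem nextL_p (a : List Tok) (s : St) : (nextL a s).p = s.p + a.length := by
  induction a generalizing s with
  | nil => rfl
  | cons t a ih =>
    have : nextL (t :: a) s = nextL a (next t s) := rfl
    rw [this, ih]
    simp only [next, List.length_cons]
    ring

/-- invariant of the reading machine -/
def St.Inv (s : St) : Prop := (∀ x ∈ s.stk, x < s.p) ∧ s.h ≤ s.p

theorem St.Inv.next {s : St} (hs : s.Inv) (t : Tok) : (next t s).Inv := by
  obtain ⟨h1, h2⟩ := hs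
  constructor
  · intro x hx
    simp only [Helper89.next] at hx ⊢
    split_ifs at hx with ht
    · have := h1 x hx; omega
    · rcases List.mem_cons.1 hx with rfl | hx
      · omega
      · have := h1 x (List.mem_of_mem_drop hx); omega
  · simp only [Helper89.next]
    split_ifs <;> omega

theorem St.Inv.nextL {s : St} (hs : s.Inv) (ts : List Tok) : (nextL ts s).Inv := by
  induction ts generalizing s with
  | nil => exact hs
  | cons t ts ih => exact ih (hs.next t)

theorem headD_le {s : St} (hs : s.Inv) : s.stk.headD 0 ≤ s.p := by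
  cases h : s.stk with
  | nil => simp
  | cons a l =>
    have := hs.1 a (by rw [h]; exact List.mem_cons_self)
    simp only [List.headD_cons]
    omega

theorem tail_headD_le {s : St} (hs : s.Inv) : s.stk.tail.headD 0 ≤ s.p := by
  cases h : s.stk.tail with
  | nil => simp
  | cons a l =>
    have := hs.1 a (List.mem_of_mem_tail (by rw [h]; exact List.mem_cons_self))
    simp only [List.headD_cons]
    omega

/-- positions known to the blocks are at most the position of the block -/
def EnvLe (p : ℕ) (v : Env) : Prop := v.p = p ∧ v.l ≤ p ∧ v.r ≤ p ∧ v.h ≤ p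

theorem envOf_le {s : St} (hs : s.Inv) (t : Tok) : EnvLe s.p (envOf t s) := by
  refine ⟨rfl, ?_, ?_, hs.2⟩
  · simp only [envOf]; split_ifs
    · exact tail_headD_le hs
    · exact Nat.zero_le _
  · simp only [envOf]; split_ifs
    · exact Nat.zero_le _
    · exact headD_le hs

theorem blks_env {ts : List Tok} {s : St} (hs : s.Inv) (i : ℕ) (hi : i < (blks ts s).length) :
    EnvLe (s.p + i) ((blks ts s)[i]).2 := by
  induction ts generalizing s i with
  | nil => simp [blks] at hi
  | cons t ts ih =>
    cases i with
    | zero => exact envOf_le hs t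
    | succ i =>
      have := ih (hs.next t) i (by simpa [blks] using hi)
      simp only [blks, List.getElem_cons_succ]
      have h1 : (next t s).p + i = s.p + (i + 1) := by simp only [next]; ring
      rw [h1] at this
      exact this

theorem inv0 : St.Inv ⟨0, [], 0⟩ := ⟨by simp, le_refl _⟩

/-- the program of a list of tokens -/
def progOf (ts : List Tok) (i : ℕ) : Option Tok × Env := (allBlks ts).getD i (none, ⟨0, 0, 0, 0⟩)

theorem allBlks_length (ts : List Tok) : (allBlks ts).length = ts.length + 1 := by
  simp [allBlks, blks_length]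

theorem progOf_eq (ts : List Tok) {i : ℕ} (hi : i < (allBlks ts).length) :
    progOf ts i = (allBlks ts)[i] := by
  unfold progOf
  rw [List.getD_eq_getElem?_getD, List.getElem?_eq_getElem hi]
  rfl

theorem progOf_env (ts : List Tok) {i : ℕ} (hi : i < ts.length + 1) :
    EnvLe i (progOf ts i).2 := by
  have hi' : i < (allBlks ts).length := by rw [allBlks_length]; exact hi
  rw [progOf_eq ts hi']
  by_cases h : i < ts.length
  · have h2 : i < (blks ts ⟨0, [], 0⟩).length := by rw [blks_length]; exact h
    have := blks_env (ts := ts) inv0 i h2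
    simp only [allBlks]
    rw [List.getElem_append_left h2]
    simpa using this
  · have h2 : i = ts.length := by omega
    subst h2
    simp only [allBlks]
    rw [List.getElem_append_right (by rw [blks_length])]
    simp only [blks_length, Nat.sub_self, List.getElem_cons_zero]
    have hinv := inv0.nextL ts
    have hp : (nextL ts ⟨0, [], 0⟩).p = ts.length := by rw [nextL_p]; simp
    refine ⟨hp, Nat.zero_le _, ?_, ?_⟩
    · rw [← hp]; exact headD_le hinv
    · rw [← hp]; exact hinv.2

theorem progOf_wf (ts : List Tok) : ProgWF (ts.length + 1) (progOf ts) where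
  p _ hp := (progOf_env ts hp).1
  l _ hp := lt_of_le_of_lt (progOf_env ts hp).2.1 hp
  r _ hp := lt_of_le_of_lt (progOf_env ts hp).2.2.1 hp
  h _ hp := lt_of_le_of_lt (progOf_env ts hp).2.2.2 hp

/-- satisfaction of a block -/
def SatB (ρ : ℕ → ℕ → ℝ) (b : Option Tok × Env) : Prop := ∀ q ∈ cons b.1, q.Holds ρ b.2

theorem progSat_iff (ts : List Tok) (ρ : ℕ → ℕ → ℝ) :
    ProgSat (ts.length + 1) (progOf ts) ρ ↔ ∀ b ∈ allBlks ts, SatB ρ b := by
  constructor
  · intro h b hb
    obtain ⟨i, hi, rfl⟩ := List.mem_iff_getElem.1 hb
    rw [← progOf_eq ts hi]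
    exact h i (by rw [allBlks_length] at hi; exact hi)
  · intro h p hp
    have hp' : p < (allBlks ts).length := by rw [allBlks_length]; exact hp
    rw [progOf_eq ts hp']
    exact h _ (List.getElem_mem hp')

/-! ### Reading terms and formulas -/

theorem nextL_ticks (i : ℕ) (s : St) :
    nextL (List.replicate i .tick) s = ⟨s.p + i, s.stk, s.h + i⟩ := by
  induction i generalizing s with
  | zero => rfl
  | succ i ih =>
    have : nextL (List.replicate (i + 1) .tick) s = nextL (List.replicate i .tick) (next .tick s) := rfl
    rw [this, ih]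
    simp only [next, if_true]
    congr 1 <;> ring

/-- the state after reading a well-formed expression -/
def St.push (s : St) (n : ℕ) : St := ⟨s.p + n, (s.p + n - 1) :: s.stk, 0⟩

theorem nextL_unary {a : List Tok} {s : St} (h : nextL a s = s.push a.length) (ha : 0 < a.length)
    {t : Tok} (ht : arity t = 1) : nextL (a ++ [t]) s = s.push (a ++ [t]).length := by
  have hne : t ≠ .tick := by rintro rfl; simp [arity] at ht
  rw [nextL_append, h]
  simp only [nextL, List.foldl_cons, List.foldl_nil, next, hne, if_false, ht, St.push,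
    List.drop_succ_cons, List.drop_zero, List.length_append, List.length_cons, List.length_nil]
  have h1 : s.p + a.length + 1 = s.p + (a.length + (0 + 1)) := by ring
  have h2 : s.p + a.length = s.p + (a.length + (0 + 1)) - 1 := by omega
  rw [← h2, ← h1]

theorem nextL_binary {a b : List Tok} {s : St} (h : nextL a s = s.push a.length)
    (ha : 0 < a.length) (hb0 : 0 < b.length)
    (hb : nextL b (s.push a.length) = (s.push a.length).push b.length)
    {t : Tok} (ht : arity t = 2) :
    nextL (a ++ b ++ [t]) s = s.push (a ++ b ++ [t]).length := by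
  have hne : t ≠ .tick := by rintro rfl; simp [arity] at ht
  rw [nextL_append, nextL_append, h, hb]
  simp only [nextL, List.foldl_cons, List.foldl_nil, next, hne, if_false, ht, St.push,
    List.drop_succ_cons, List.drop_zero, List.length_append, List.length_cons, List.length_nil]
  have h1 : s.p + a.length + b.length + 1 = s.p + (a.length + b.length + (0 + 1)) := by ring
  have h2 : s.p + a.length + b.length = s.p + (a.length + b.length + (0 + 1)) - 1 := by omega
  rw [← h2, ← h1]

theorem encNat_zero : encNat 0 = [.zero] := by rw [encNat]; simp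

theorem encNat_pos {n : ℕ} (h : n ≠ 0) :
    encNat n = encNat (n / 2) ++ [if n % 2 = 1 then .dig1 else .dig0] := by
  rw [encNat]; simp [h]

theorem encNat_length (n : ℕ) : 0 < (encNat n).length := by
  by_cases h : n = 0
  · subst h; rw [encNat_zero]; simp
  · rw [encNat_pos h]; simp

theorem PTerm.enc_length (t : PTerm) : 0 < t.enc.length := by
  cases t <;> simp [PTerm.enc, encNat_length]

theorem QFormula.enc_length (t : QFormula) : 0 < t.enc.length := by
  cases t <;> simp [QFormula.enc]

theorem nextL_encNat (n : ℕ) (s : St) :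
    nextL (encNat n) s = s.push (encNat n).length := by
  induction n using Nat.strong_induction_on with
  | _ n ih =>
    by_cases h : n = 0
    · subst h
      rw [encNat_zero]
      simp [nextL, next, St.push, arity]
    · rw [encNat_pos h]
      apply nextL_unary (ih _ (by omega)) (encNat_length _)
      split_ifs <;> rfl

theorem nextL_encTerm (t : PTerm) (s : St) (hs : s.h = 0) :
    nextL t.enc s = s.push t.enc.length := by
  induction t generalizing s with
  | var i =>
    rw [PTerm.enc, nextL_append, nextL_ticks]
    simp [nextL, next, St.push, arity]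
    ring
  | const n => exact nextL_encNat n s
  | neg t ih => exact nextL_unary (ih s hs) t.enc_length rfl
  | add a b iha ihb =>
    exact nextL_binary (iha s hs) a.enc_length b.enc_length (ihb _ rfl) rfl
  | mul a b iha ihb =>
    exact nextL_binary (iha s hs) a.enc_length b.enc_length (ihb _ rfl) rfl

theorem nextL_encFormula (φ : QFormula) (s : St) (hs : s.h = 0) :
    nextL φ.enc s = s.push φ.enc.length := by
  induction φ generalizing s with
  | eq a b =>
    exact nextL_binary (nextL_encTerm a s hs) a.enc_length b.enc_length (nextL_encTerm b _ rfl) rfl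
  | lt a b =>
    exact nextL_binary (nextL_encTerm a s hs) a.enc_length b.enc_length (nextL_encTerm b _ rfl) rfl
  | le a b =>
    exact nextL_binary (nextL_encTerm a s hs) a.enc_length b.enc_length (nextL_encTerm b _ rfl) rfl
  | not φ ih => exact nextL_unary (ih s hs) φ.enc_length rfl
  | and a b iha ihb =>
    exact nextL_binary (iha s hs) a.enc_length b.enc_length (ihb _ rfl) rfl
  | or a b iha ihb =>
    exact nextL_binary (iha s hs) a.enc_length b.enc_length (ihb _ rfl) rfl

/-- the value at the position of the last token of an expression of length `n` read from `s` -/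
def lastVal (ρ : ℕ → ℕ → ℝ) (s : St) (n : ℕ) : ℝ := ρ (s.p + n - 1) 0

/-- all blocks of the expression are satisfied -/
def SatL (ρ : ℕ → ℕ → ℝ) (a : List Tok) (s : St) : Prop := ∀ b ∈ blks a s, SatB ρ b

theorem SatL.append {ρ : ℕ → ℕ → ℝ} {a b : List Tok} {s : St} (h : SatL ρ (a ++ b) s) :
    SatL ρ a s ∧ SatL ρ b (nextL a s) := by
  unfold SatL at h
  rw [blks_append] at h
  exact ⟨fun x hx => h x (List.mem_append_left _ hx), fun x hx => h x (List.mem_append_right _ hx)⟩

theorem satL_unary {ρ : ℕ → ℕ → ℝ} {a : List Tok} {s : St} (h : nextL a s = s.push a.length)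
    {t : Tok} (ht : arity t = 1)
    (hs : SatL ρ (a ++ [t]) s) : SatL ρ a s ∧
      ∀ q ∈ cons (some t), q.Holds ρ ⟨s.p + a.length, 0, s.p + a.length - 1, 0⟩ := by
  obtain ⟨h1, h2⟩ := hs.append
  refine ⟨h1, ?_⟩
  rw [h] at h2
  have := h2 _ (List.mem_cons_self)
  simp only [SatB, envOf, ht, St.push] at this
  exact this

theorem satL_binary {ρ : ℕ → ℕ → ℝ} {a b : List Tok} {s : St} (h : nextL a s = s.push a.length)
    (hb : nextL b (s.push a.length) = (s.push a.length).push b.length)
    {t : Tok} (ht : arity t = 2)
    (hs : SatL ρ (a ++ b ++ [t]) s) : SatL ρ a s ∧ SatL ρ b (s.push a.length) ∧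
      ∀ q ∈ cons (some t), q.Holds ρ ⟨s.p + a.length + b.length, s.p + a.length - 1,
        s.p + a.length + b.length - 1, 0⟩ := by
  obtain ⟨h1, h2⟩ := hs.append
  obtain ⟨h3, h4⟩ := h1.append
  rw [nextL_append, h, hb] at h2
  rw [h] at h4
  refine ⟨h3, h4, ?_⟩
  have := h2 _ (List.mem_cons_self)
  simp only [SatB, envOf, ht, St.push] at this
  exact this

theorem encNat_sound (ρ : ℕ → ℕ → ℝ) (n : ℕ) (s : St)
    (h : SatL ρ (encNat n) s) : lastVal ρ s (encNat n).length = n := by
  induction n using Nat.strong_induction_on with
  | _ n ih =>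
    by_cases h0 : n = 0
    · subst h0
      rw [encNat_zero] at h ⊢
      have := h _ (List.mem_cons_self)
      simp [SatB, cons, Quad.Holds, RRef.val, envOf] at this
      simp [lastVal, this]
    · rw [encNat_pos h0] at h ⊢
      have ih' := ih (n / 2) (by omega)
      have hnx := nextL_encNat (n / 2) s
      generalize encNat (n / 2) = a at *
      have hlen : s.p + (a ++ [if n % 2 = 1 then Tok.dig1 else Tok.dig0]).length - 1 =
          s.p + a.length := by simp
      by_cases h2 : n % 2 = 1
      · rw [if_pos h2] at h hlen ⊢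
        obtain ⟨ha, hq⟩ := satL_unary hnx rfl h
        have hv := ih' ha
        simp [cons, Quad.Holds, RRef.val] at hq
        unfold lastVal at hv ⊢
        rw [hlen]
        rw [hv] at hq
        have : (n : ℝ) = 2 * ((n / 2 : ℕ) : ℝ) + 1 := by
          have : n = 2 * (n / 2) + 1 := by omega
          exact_mod_cast this
        linarith [hq.1, hq.2]
      · rw [if_neg h2] at h hlen ⊢
        obtain ⟨ha, hq⟩ := satL_unary hnx rfl h
        have hv := ih' ha
        simp [cons, Quad.Holds, RRef.val] at hq
        unfold lastVal at hv ⊢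
        rw [hlen]
        rw [hv] at hq
        have : (n : ℝ) = 2 * ((n / 2 : ℕ) : ℝ) := by
          have : n = 2 * (n / 2) := by omega
          exact_mod_cast this
        linarith

theorem term_sound (ρ : ℕ → ℕ → ℝ) (t : PTerm) (s : St) (hs : s.h = 0)
    (h : SatL ρ t.enc s) : lastVal ρ s t.enc.length = t.eval (fun i => ρ i 6) := by
  induction t generalizing s with
  | var i =>
    rw [PTerm.enc] at h ⊢
    obtain ⟨_, h2⟩ := h.append
    rw [nextL_ticks] at h2
    have := h2 _ (List.mem_cons_self)
    simp [SatB, cons, Quad.Holds, RRef.val, envOf, hs] at this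
    simp [lastVal, PTerm.eval, this]
  | const n => exact encNat_sound ρ n s h
  | neg t ih =>
    obtain ⟨ha, hq⟩ := satL_unary (nextL_encTerm t s hs) rfl h
    have h1 := ih s hs ha
    simp [cons, Quad.Holds, RRef.val] at hq
    have hlen : s.p + (t.enc ++ [Tok.neg]).length - 1 = s.p + t.enc.length := by simp
    simp only [PTerm.enc, PTerm.eval, lastVal] at h1 ⊢
    rw [hlen]
    linarith
  | add a b iha ihb =>
    obtain ⟨ha, hb, hq⟩ := satL_binary (nextL_encTerm a s hs) (nextL_encTerm b _ rfl) rfl h
    have h1 := iha s hs ha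
    have h2 := ihb _ rfl hb
    simp [cons, Quad.Holds, RRef.val] at hq
    have hlen : s.p + (a.enc ++ b.enc ++ [Tok.add]).length - 1 =
      s.p + a.enc.length + b.enc.length := by simp; omega
    simp only [PTerm.enc, PTerm.eval, lastVal, St.push] at h1 h2 ⊢
    rw [hlen]
    linarith
  | mul a b iha ihb =>
    obtain ⟨ha, hb, hq⟩ := satL_binary (nextL_encTerm a s hs) (nextL_encTerm b _ rfl) rfl h
    have h1 := iha s hs ha
    have h2 := ihb _ rfl hb
    simp [cons, Quad.Holds, RRef.val] at hq
    have hlen : s.p + (a.enc ++ b.enc ++ [Tok.mul]).length - 1 =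
      s.p + a.enc.length + b.enc.length := by simp; omega
    simp only [PTerm.enc, PTerm.eval, lastVal, St.push] at h1 h2 ⊢
    rw [hlen, ← hq, h1, h2]

open Classical in
/-- truth values as reals -/
noncomputable def tv (p : Prop) : ℝ := if p then 1 else 0

theorem lt_sound {N w s Q r t L M : ℝ} (h1 : w + L = M) (h2 : s * s + w = Q) (h3 : r * r = Q)
    (h4 : r * t = N) (h5 : N * r = r) (h6 : N * s = 0) : N = tv (L < M) := by
  unfold tv
  by_cases hr : r = 0
  · subst hr
    have hN : N = 0 := by linarith
    rw [if_neg]
    · exact hN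
    · nlinarith [mul_self_nonneg s]
  · have hN : N = 1 := by
      have : (N - 1) * r = 0 := by linarith
      have := (mul_eq_zero.1 this).resolve_right hr
      linarith
    subst hN
    have hs : s = 0 := by linarith
    subst hs
    rw [if_pos]
    have : 0 < r * r := mul_self_pos.2 hr
    nlinarith

theorem le_sound {N w s Q r t L M : ℝ} (h1 : w + M = L) (h2 : s * s + w = Q) (h3 : r * r = Q)
    (h4 : r * t + N = 1) (h5 : N * r = 0) (h6 : N * s = s) : N = tv (L ≤ M) := by
  unfold tv
  by_cases hr : r = 0
  · subst hr
    have hN : N = 1 := by linarith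
    rw [if_pos]
    · exact hN
    · nlinarith [mul_self_nonneg s]
  · have hN : N = 0 := (mul_eq_zero.1 h5).resolve_right hr
    subst hN
    have hs : s = 0 := by linarith
    subst hs
    rw [if_neg]
    have : 0 < r * r := mul_self_pos.2 hr
    nlinarith

theorem eq_sound {N w u L M : ℝ} (h1 : w + M = L) (h2 : N * w = 0) (h3 : w * u + N = 1) :
    N = tv (L = M) := by
  unfold tv
  by_cases hw : w = 0
  · subst hw
    rw [if_pos (by linarith)]
    linarith
  · rw [if_neg (by intro h; apply hw; linarith)]
    exact (mul_eq_zero.1 h2).resolve_right hw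

theorem formula_sound (ρ : ℕ → ℕ → ℝ) (φ : QFormula) (s : St) (hs : s.h = 0)
    (h : SatL ρ φ.enc s) : lastVal ρ s φ.enc.length = tv (φ.Holds (fun i => ρ i 6)) := by
  induction φ generalizing s with
  | eq a b =>
    obtain ⟨ha, hb, hq⟩ := satL_binary (nextL_encTerm a s hs) (nextL_encTerm b _ rfl) rfl h
    have h1 := term_sound ρ a s hs ha
    have h2 := term_sound ρ b _ rfl hb
    have hlen : s.p + (a.enc ++ b.enc ++ [Tok.eq]).length - 1 =
      s.p + a.enc.length + b.enc.length := by simp; omega
    simp only [QFormula.enc, QFormula.Holds, lastVal, St.push] at h1 h2 ⊢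
    simp only [cons, Quad.Holds, RRef.val, List.forall_mem_cons, List.not_mem_nil, false_imp_iff,
      implies_true, and_true, one_mul, add_zero] at hq
    rw [hlen, ← h1, ← h2]
    exact eq_sound hq.1 hq.2.1 hq.2.2
  | lt a b =>
    obtain ⟨ha, hb, hq⟩ := satL_binary (nextL_encTerm a s hs) (nextL_encTerm b _ rfl) rfl h
    have h1 := term_sound ρ a s hs ha
    have h2 := term_sound ρ b _ rfl hb
    have hlen : s.p + (a.enc ++ b.enc ++ [Tok.lt]).length - 1 =
      s.p + a.enc.length + b.enc.length := by simp; omega
    simp only [QFormula.enc, QFormula.Holds, lastVal, St.push] at h1 h2 ⊢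
    simp only [cons, Quad.Holds, RRef.val, List.forall_mem_cons, List.not_mem_nil, false_imp_iff,
      implies_true, and_true, one_mul, add_zero] at hq
    rw [hlen, ← h1, ← h2]
    exact lt_sound hq.1 hq.2.1 hq.2.2.1 hq.2.2.2.1 hq.2.2.2.2.1 hq.2.2.2.2.2
  | le a b =>
    obtain ⟨ha, hb, hq⟩ := satL_binary (nextL_encTerm a s hs) (nextL_encTerm b _ rfl) rfl h
    have h1 := term_sound ρ a s hs ha
    have h2 := term_sound ρ b _ rfl hb
    have hlen : s.p + (a.enc ++ b.enc ++ [Tok.le]).length - 1 =
      s.p + a.enc.length + b.enc.length := by simp; omega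
    simp only [QFormula.enc, QFormula.Holds, lastVal, St.push] at h1 h2 ⊢
    simp only [cons, Quad.Holds, RRef.val, List.forall_mem_cons, List.not_mem_nil, false_imp_iff,
      implies_true, and_true, one_mul, add_zero] at hq
    rw [hlen, ← h1, ← h2]
    exact le_sound hq.1 hq.2.1 hq.2.2.1 hq.2.2.2.1 hq.2.2.2.2.1 hq.2.2.2.2.2
  | not φ ih =>
    obtain ⟨ha, hq⟩ := satL_unary (nextL_encFormula φ s hs) rfl h
    have h1 := ih s hs ha
    simp [cons, Quad.Holds, RRef.val] at hq
    have hlen : s.p + (φ.enc ++ [Tok.not]).length - 1 = s.p + φ.enc.length := by simp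
    simp only [QFormula.enc, QFormula.Holds, lastVal] at h1 ⊢
    rw [hlen]
    rw [h1] at hq
    unfold tv at hq ⊢
    by_cases hc : φ.Holds (fun i => ρ i 6)
    · simp only [hc, if_true, not_true_eq_false, if_false] at hq ⊢; linarith
    · simp only [hc, if_false, not_false_eq_true, if_true] at hq ⊢; linarith
  | and a b iha ihb =>
    obtain ⟨ha, hb, hq⟩ := satL_binary (nextL_encFormula a s hs) (nextL_encFormula b _ rfl) rfl h
    have h1 := iha s hs ha
    have h2 := ihb _ rfl hb
    simp [cons, Quad.Holds, RRef.val] at hq
    have hlen : s.p + (a.enc ++ b.enc ++ [Tok.and]).length - 1 =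
      s.p + a.enc.length + b.enc.length := by simp; omega
    simp only [QFormula.enc, QFormula.Holds, lastVal, St.push] at h1 h2 ⊢
    rw [hlen, ← hq, h1, h2]
    unfold tv
    by_cases hc : a.Holds (fun i => ρ i 6) <;> by_cases hd : b.Holds (fun i => ρ i 6) <;>
      simp [hc, hd]
  | or a b iha ihb =>
    obtain ⟨ha, hb, hq⟩ := satL_binary (nextL_encFormula a s hs) (nextL_encFormula b _ rfl) rfl h
    have h1 := iha s hs ha
    have h2 := ihb _ rfl hb
    simp [cons, Quad.Holds, RRef.val] at hq
    have hlen : s.p + (a.enc ++ b.enc ++ [Tok.or]).length - 1 =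
      s.p + a.enc.length + b.enc.length := by simp; omega
    simp only [QFormula.enc, QFormula.Holds, lastVal, St.push] at h1 h2 ⊢
    rw [hlen]
    rw [h1, h2] at hq
    unfold tv at hq ⊢
    by_cases hc : a.Holds (fun i => ρ i 6) <;> by_cases hd : b.Holds (fun i => ρ i 6) <;>
      simp [hc, hd] at hq ⊢ <;> linarith [hq.1, hq.2]

end Pool.Agent.Helper89
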