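import Pool.Agent.Helper89.Reduction

/-!
# From real solutions of programs to strict solutions of systems, and back
-/

namespace Pool.Agent.Helper89

/-- value of a reference -/
def RRef.val (ρ : ℕ → ℕ → ℝ) (v : Env) : RRef → ℝ
  | .one => 1
  | .zero => 0
  | .cur j => ρ v.p j
  | .lft => ρ v.l 0
  | .rgt => ρ v.r 0
  | .hom => ρ v.h 6

def Quad.Holds (ρ : ℕ → ℕ → ℝ) (v : Env) (q : Quad RRef) : Prop :=
  q.i.val ρ v * q.j.val ρ v + q.k.val ρ v = q.l.val ρ v

/-- `ρ` satisfies all constraints of the first `P` blocks. -/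
def ProgSat (P : ℕ) (prog : ℕ → Option Tok × Env) (ρ : ℕ → ℕ → ℝ) : Prop :=
  ∀ p < P, ∀ q ∈ cons (prog p).1, q.Holds ρ (prog p).2

/-- well-formed programs: positions are in range -/
structure ProgWF (P : ℕ) (prog : ℕ → Option Tok × Env) : Prop where
  p : ∀ p < P, (prog p).2.p = p
  l : ∀ p < P, (prog p).2.l < P
  r : ∀ p < P, (prog p).2.r < P
  h : ∀ p < P, (prog p).2.h < P

/-- references to local numbers are in range -/
def RRef.Ok : RRef → Prop
  | .cur j => j < 7
  | _ => True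

def Quad.Ok (q : Quad RRef) : Prop := q.i.Ok ∧ q.j.Ok ∧ q.k.Ok ∧ q.l.Ok

theorem cons_ok (t : Option Tok) : ∀ q ∈ cons t, q.Ok := by
  rcases t with _ | t
  · simp [cons, Quad.Ok, RRef.Ok]
  · cases t <;> simp [cons, Quad.Ok, RRef.Ok]

theorem consAt_ok (t : Option Tok) (e : ℕ) : (consAt t e).Ok := by
  unfold consAt
  rw [List.getD_eq_getElem?_getD]
  by_cases h : e < (cons t).length
  · rw [List.getElem?_eq_getElem h]
    exact cons_ok t _ (List.getElem_mem h)
  · rw [List.getElem?_eq_none (by omega)]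
    simp [Quad.Ok, RRef.Ok]

theorem cons_length (t : Option Tok) : (cons t).length ≤ 6 := by
  rcases t with _ | t
  · simp [cons]
  · cases t <;> simp [cons]

theorem blkEq_real (t : Option Tok) {s : ℕ} (hs : s < 14) :
    blkEq t s = .pt (.cur, 7 + s) (.cur, 7 + s) := by
  simp [blkEq, hs]

theorem blkEq_gad (t : Option Tok) (e : ℕ) {k : ℕ} (hk : k < 31) :
    blkEq t (14 + 31 * e + k) = (gadT.getD k (.pt (lo 0) (lo 0))).map
      (Sum.elim (fun i => (.cur, 21 + 31 * e + i)) (extRef (consAt t e))) := by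
  have h1 : ¬ (14 + 31 * e + k < 14) := by omega
  have h2 : (14 + 31 * e + k - 14) % 31 = k := by omega
  have h3 : (14 + 31 * e + k - 14) / 31 = e := by omega
  unfold blkEq
  rw [if_neg h1, h2, h3]

theorem sysOf_pre (prog : ℕ → Option Tok × Env) {g : ℕ} (hg : g < 7) :
    sysOf prog g = preT.getD g (.pt 0 0) := by simp [sysOf, hg]

theorem sysOf_blk (prog : ℕ → Option Tok × Env) (p : ℕ) {s : ℕ} (hs : s < 200) :
    sysOf prog (7 + 200 * p + s) = (blkEq (prog p).1 s).map (resolveS (prog p).2) := by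
  have h1 : ¬ (7 + 200 * p + s < 7) := by omega
  have h2 : (7 + 200 * p + s - 7) / 200 = p := by omega
  have h3 : (7 + 200 * p + s - 7) % 200 = s := by omega
  unfold sysOf
  rw [if_neg h1, h2, h3]

section Sound

theorem real_of_holds {P : ℕ} {prog : ℕ → Option Tok × Env} {val : ℕ → ℝ}
    (h0 : ∀ g < slots P, val g ≠ 0) (hh : ∀ g < slots P, (sysOf prog g).Holds val) :
    ∃ ρ : ℕ → ℕ → ℝ, ProgSat P prog ρ := by
  have hs : 7 ≤ slots P := by unfold slots; omega
  have e0 := hh 0 (by omega)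
  have e1 := hh 1 (by omega)
  have e3 := hh 3 (by omega)
  have e4 := hh 4 (by omega)
  have e5 := hh 5 (by omega)
  have e6 := hh 6 (by omega)
  have n0 := h0 0 (by omega)
  rw [sysOf_pre _ (by norm_num)] at e0 e1 e3 e4 e5 e6
  simp only [preT, List.getD_cons_zero, List.getD_cons_succ, Eqn.Holds] at e0 e1 e3 e4 e5 e6
  have hc : val 0 = 2 := by
    have : val 0 * (val 0 - 2) = 0 := by linarith
    rcases mul_eq_zero.1 this with h | h
    · exact absurd h n0
    · linarith
  rw [hc] at e3 e4 e5 e6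
  have hz : val 3 - 2 * val 2 = 0 := by linarith
  have ho : val 4 - 2 * val 2 = 1 := by linarith
  refine ⟨fun p j => val (8 + 200 * p + 2 * j) - 2 * val (7 + 200 * p + 2 * j), ?_⟩
  intro p hp q hq
  obtain ⟨e, he, rfl⟩ := List.mem_iff_getElem.1 hq
  have he6 : e < 6 := lt_of_lt_of_le he (cons_length _)
  have hce : (cons (prog p).1)[e] = consAt (prog p).1 e := by
    unfold consAt
    rw [List.getD_eq_getElem?_getD, List.getElem?_eq_getElem he]
    rfl
  rw [hce]
  set q := consAt (prog p).1 e with hqdef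
  set v := (prog p).2 with hv
  have key : ∀ r : RRef, r.val (fun p j => val (8 + 200 * p + 2 * j) -
      2 * val (7 + 200 * p + 2 * j)) v = val (resolveS v (xs r)) - 2 * val (resolveS v (cs r)) := by
    intro r
    cases r with
    | one => simp [RRef.val, xs, cs, resolveS, Env.get, ho]
    | zero => simp [RRef.val, xs, cs, resolveS, Env.get, hz]
    | cur j =>
      simp only [RRef.val, xs, cs, resolveS, Env.get]
      congr 2
      · ring
      · congr 1; ring
    | lft =>
      simp only [RRef.val, xs, cs, resolveS, Env.get]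
      congr 2
    | rgt =>
      simp only [RRef.val, xs, cs, resolveS, Env.get]
      congr 2
    | hom =>
      simp only [RRef.val, xs, cs, resolveS, Env.get]
      congr 2
      · ring
      · congr 1; ring
  have := gadget_sound (fun i => val (resolveS v (.cur, 21 + 31 * e + i)))
    (fun i => val (resolveS v (extRef q i))) ?_
  · unfold Quad.Holds
    rw [key, key, key, key]
    simp only [extRef] at this
    exact this
  · intro q' hq'
    obtain ⟨k, hk, rfl⟩ := List.mem_iff_getElem.1 hq'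
    rw [gadT_length] at hk
    have h1 := hh (7 + 200 * p + (14 + 31 * e + k)) (by unfold slots; omega)
    rw [sysOf_blk _ _ (by omega), blkEq_gad _ _ hk, Eqn.map_holds, Eqn.map_holds] at h1
    have hg : gadT.getD k (.pt (lo 0) (lo 0)) = gadT[k] := by
      rw [List.getD_eq_getElem?_getD, List.getElem?_eq_getElem]
      rfl
    rw [hg] at h1
    have hfun : (Sum.elim (fun i => val (resolveS v (.cur, 21 + 31 * e + i)))
        (fun i => val (resolveS v (extRef q i)))) = (fun a => val (resolveS (prog p).2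
          (Sum.elim (fun i => (Src.cur, 21 + 31 * e + i))
            (extRef (consAt (prog p).1 e)) a))) := by
      funext a
      rcases a with i | i <;> rfl
    rw [hfun]
    exact h1

end Sound

noncomputable section Complete

/-- values of the seven constant slots -/
def preV (g : ℕ) : ℝ := [2, 4, 5, 10, 11, 20, 22].getD g 0

/-- values of the slots that code real numbers `x 0, x 1, …` -/
def realV (K : ℝ) (x : ℕ → ℝ) (i : ℕ) : ℝ :=
  if i % 2 = 0 then K * 8 ^ (i / 2) else x (i / 2) + 2 * (K * 8 ^ (i / 2))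

theorem realV_even (K : ℝ) (x : ℕ → ℝ) (n : ℕ) : realV K x (2 * n) = K * 8 ^ n := by
  simp [realV]

theorem realV_odd (K : ℝ) (x : ℕ → ℝ) (n : ℕ) :
    realV K x (2 * n + 1) = x n + 2 * (K * 8 ^ n) := by
  have h2 : (2 * n + 1) / 2 = n := by omega
  simp [realV, h2]

theorem realV_lt_succ {K : ℝ} {x : ℕ → ℝ} (hK : 22 < K) {i : ℕ} (hx : |x (i / 2)| < K) :
    realV K x i < realV K x (i + 1) := by
  have hp : ∀ n : ℕ, (1 : ℝ) ≤ 8 ^ n := fun n => one_le_pow₀ (by norm_num)
  obtain ⟨h1, h2⟩ := abs_lt.1 hx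
  have hi := hp (i / 2)
  rcases Nat.even_or_odd' i with ⟨n, rfl | rfl⟩
  · rw [realV_even, realV_odd]
    have : 2 * n / 2 = n := by omega
    rw [this] at h1 h2 hi
    nlinarith
  · have h3 : 2 * n + 1 + 1 = 2 * (n + 1) := by ring
    have : (2 * n + 1) / 2 = n := by omega
    rw [this] at h1 h2 hi
    rw [realV_odd, h3, realV_even, pow_succ]
    nlinarith

theorem realV_lt {K : ℝ} {x : ℕ → ℝ} (hK : 22 < K) {i n : ℕ} (hx : |x (i / 2)| < K)
    (hi : i < 2 * n) : realV K x i < K * 8 ^ n := by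
  have hp : ∀ n : ℕ, (1 : ℝ) ≤ 8 ^ n := fun n => one_le_pow₀ (by norm_num)
  obtain ⟨h1, h2⟩ := abs_lt.1 hx
  have hi2 := hp (i / 2)
  have h8 : (8 : ℝ) ^ (i / 2 + 1) ≤ 8 ^ n := pow_le_pow_right₀ (by norm_num) (by omega)
  rw [pow_succ] at h8
  unfold realV
  split_ifs
  · nlinarith
  · nlinarith

/-- premise of the gadget -/
def Prem (e : ℕ → ℝ) : Prop :=
  5 ≤ e 0 ∧ e 0 < e 1 ∧ e 1 < 3 * e 0 ∧ 1 < e 2 ∧ 1 < e 3 ∧ 1 < e 4 ∧ 1 < e 5 ∧ 1 < e 6 ∧ 1 < e 7 ∧
    (e 1 - 2 * e 0) * (e 3 - 2 * e 2) + (e 5 - 2 * e 4) = e 7 - 2 * e 6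

theorem exists_gadW (M : ℝ) (e : ℕ → ℝ) : ∃ w : ℕ → ℝ, M < w 0 ∧ (∀ i < 30, w i < w (i + 1)) ∧
    (Prem e → ∀ q ∈ gadT, q.Holds (Sum.elim w e)) := by
  by_cases h : Prem e
  · obtain ⟨h0, h1, h2, h3, h4, h5, h6, h7, h8, h9⟩ := h
    obtain ⟨w, hw1, hw2, hw3⟩ := gadget_complete M (e 0) (e 1) (e 2) (e 3) (e 4) (e 5) (e 6) (e 7)
      h0 h1 h2 h3 h4 h5 h6 h7 h8 h9
    refine ⟨w, hw1, hw2, fun _ => ?_⟩
    simp only [gadT, List.forall_mem_cons, Eqn.Holds, lo, ex, Sum.elim_inl, Sum.elim_inr,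
      List.not_mem_nil, false_imp_iff, implies_true, and_true, true_and,
      List.getD_cons_zero, List.getD_cons_succ] at hw3 ⊢
    exact hw3
  · exact ⟨fun i => M + 1 + i, by simp, fun i _ => by push_cast; linarith, fun h' => absurd h' h⟩

def gadW (M : ℝ) (e : ℕ → ℝ) : ℕ → ℝ := (exists_gadW M e).choose

theorem gadW_spec (M : ℝ) (e : ℕ → ℝ) : M < gadW M e 0 ∧ (∀ i < 30, gadW M e i < gadW M e (i + 1)) ∧
    (Prem e → ∀ q ∈ gadT, q.Holds (Sum.elim (gadW M e) e)) := (exists_gadW M e).choose_spec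

/-- lower bounds for the values of the successive gadgets -/
def bnd (B0 : ℝ) (ev : ℕ → ℕ → ℝ) : ℕ → ℝ
  | 0 => B0
  | j + 1 => gadW (bnd B0 ev j) (ev j) 30

def gadV (B0 : ℝ) (ev : ℕ → ℕ → ℝ) (j : ℕ) : ℕ → ℝ := gadW (bnd B0 ev j) (ev j)

/-- the increasing sequence of all values -/
def incV (K B0 : ℝ) (x : ℕ → ℝ) (n : ℕ) (ev : ℕ → ℕ → ℝ) (r : ℕ) : ℝ :=
  if r < 7 then preV r else if r < 7 + 2 * n then realV K x (r - 7)
  else gadV B0 ev ((r - 7 - 2 * n) / 31) ((r - 7 - 2 * n) % 31)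

theorem incV_strictMono {K : ℝ} {x : ℕ → ℝ} {n : ℕ} (ev : ℕ → ℕ → ℝ) (hK : 22 < K)
    (hx : ∀ i < n, |x i| < K) : StrictMono (incV K (K * 8 ^ n) x n ev) := by
  apply strictMono_nat_of_lt_succ
  intro r
  have hKn : K ≤ K * 8 ^ n := by
    have : (1 : ℝ) ≤ 8 ^ n := one_le_pow₀ (by norm_num)
    nlinarith
  unfold incV
  by_cases h1 : r + 1 < 7
  · rw [if_pos h1, if_pos (by omega)]
    have : r < 6 := by omega
    unfold preV
    interval_cases r <;> norm_num
  · by_cases h2 : r < 7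
    · have hr : r = 6 := by omega
      subst hr
      rw [if_pos h2, if_neg h1]
      have h6 : preV 6 = 22 := by simp [preV]
      rw [h6]
      split_ifs with h3
      · simp [realV]; linarith
      · have hn : n = 0 := by omega
        subst hn
        simp only [Nat.reduceAdd, mul_zero, Nat.sub_zero, Nat.reduceSub, Nat.zero_div, Nat.zero_mod]
        have := (gadW_spec (bnd (K * 8 ^ 0) ev 0) (ev 0)).1
        simp only [bnd] at this
        simp only [gadV, bnd]
        linarith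
    · rw [if_neg h1, if_neg h2]
      by_cases h3 : r + 1 < 7 + 2 * n
      · rw [if_pos h3, if_pos (by omega)]
        have := realV_lt_succ (K := K) (x := x) hK (i := r - 7) (hx _ (by omega))
        have h4 : r + 1 - 7 = r - 7 + 1 := by omega
        rw [h4]
        exact this
      · rw [if_neg h3]
        by_cases h4 : r < 7 + 2 * n
        · rw [if_pos h4]
          have h5 : r + 1 - 7 - 2 * n = 0 := by omega
          rw [h5]
          have := realV_lt (K := K) (x := x) hK (i := r - 7) (n := n) (hx _ (by omega)) (by omega)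
          have h6 := (gadW_spec (bnd (K * 8 ^ n) ev 0) (ev 0)).1
          simp only [bnd] at h6
          simp only [gadV, bnd, Nat.zero_div, Nat.zero_mod]
          linarith
        · rw [if_neg h4]
          obtain ⟨q, hq⟩ : ∃ q, q = r - 7 - 2 * n := ⟨_, rfl⟩
          have h5 : r + 1 - 7 - 2 * n = q + 1 := by omega
          rw [h5, ← hq]
          by_cases h6 : q % 31 < 30
          · have h7 : (q + 1) / 31 = q / 31 := by omega
            have h8 : (q + 1) % 31 = q % 31 + 1 := by omega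
            rw [h7, h8]
            exact (gadW_spec _ _).2.1 _ h6
          · have h6' : q % 31 = 30 := by omega
            have h7 : (q + 1) / 31 = q / 31 + 1 := by omega
            have h8 : (q + 1) % 31 = 0 := by omega
            rw [h7, h8, h6']
            exact (gadW_spec (bnd (K * 8 ^ n) ev (q / 31 + 1)) (ev (q / 31 + 1))).1

/-- order of the slots by size of their values -/
def rank (P : ℕ) (g : ℕ) : ℕ :=
  if g < 7 then g else
    if (g - 7) % 200 < 14 then 7 + 14 * ((g - 7) / 200) + (g - 7) % 200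
    else 7 + 14 * P + 186 * ((g - 7) / 200) + ((g - 7) % 200 - 14)

theorem rank_inj {P g g' : ℕ} (hg : g < slots P) (hg' : g' < slots P) (h : rank P g = rank P g') :
    g = g' := by
  unfold slots at hg hg'
  unfold rank at h
  split_ifs at h <;> omega

/-- values of constant slots and of slots that code real numbers -/
def slot1 (K : ℝ) (x : ℕ → ℝ) (g : ℕ) : ℝ :=
  if g < 7 then preV g else realV K x (14 * ((g - 7) / 200) + (g - 7) % 200)

theorem slot1_real (K : ℝ) (x : ℕ → ℝ) (p : ℕ) {s : ℕ} (hs : s < 200) :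
    slot1 K x (7 + 200 * p + s) = realV K x (14 * p + s) := by
  have h1 : ¬ (7 + 200 * p + s < 7) := by omega
  have h2 : (7 + 200 * p + s - 7) / 200 = p := by omega
  have h3 : (7 + 200 * p + s - 7) % 200 = s := by omega
  unfold slot1
  rw [if_neg h1, h2, h3]

/-- the `n`-th real number -/
def xOf (ρ : ℕ → ℕ → ℝ) (n : ℕ) : ℝ := ρ (n / 7) (n % 7)

theorem slot1_ref {K : ℝ} {ρ : ℕ → ℕ → ℝ} {P : ℕ} {v : Env} (hK : 22 < K)
    (hx : ∀ i < 7 * P, |xOf ρ i| < K) (hp : v.p < P) (hl : v.l < P) (hr : v.r < P) (hh : v.h < P)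
    (r : RRef) (hok : r.Ok) :
    5 ≤ slot1 K (xOf ρ) (resolveS v (cs r)) ∧
    slot1 K (xOf ρ) (resolveS v (cs r)) < slot1 K (xOf ρ) (resolveS v (xs r)) ∧
    slot1 K (xOf ρ) (resolveS v (xs r)) < 3 * slot1 K (xOf ρ) (resolveS v (cs r)) ∧
    slot1 K (xOf ρ) (resolveS v (xs r)) - 2 * slot1 K (xOf ρ) (resolveS v (cs r)) = r.val ρ v := by
  have main : ∀ q < P, ∀ j < 7,
      5 ≤ slot1 K (xOf ρ) (7 + 200 * q + 2 * j) ∧
      slot1 K (xOf ρ) (7 + 200 * q + 2 * j) < slot1 K (xOf ρ) (7 + 200 * q + (2 * j + 1)) ∧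
      slot1 K (xOf ρ) (7 + 200 * q + (2 * j + 1)) < 3 * slot1 K (xOf ρ) (7 + 200 * q + 2 * j) ∧
      slot1 K (xOf ρ) (7 + 200 * q + (2 * j + 1)) - 2 * slot1 K (xOf ρ) (7 + 200 * q + 2 * j) =
        ρ q j := by
    intro q hq j hj
    rw [slot1_real _ _ _ (by omega), slot1_real _ _ _ (by omega)]
    have h1 : 14 * q + 2 * j = 2 * (7 * q + j) := by ring
    have h2 : 14 * q + (2 * j + 1) = 2 * (7 * q + j) + 1 := by ring
    rw [h1, h2, realV_even, realV_odd]
    have h3 := hx (7 * q + j) (by omega)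
    have h4 : xOf ρ (7 * q + j) = ρ q j := by
      unfold xOf
      have : (7 * q + j) / 7 = q := by omega
      rw [this]
      have : (7 * q + j) % 7 = j := by omega
      rw [this]
    rw [h4] at h3 ⊢
    obtain ⟨h5, h6⟩ := abs_lt.1 h3
    have h8 : (1 : ℝ) ≤ 8 ^ (7 * q + j) := one_le_pow₀ (by norm_num)
    have h9 : K ≤ K * 8 ^ (7 * q + j) := by nlinarith
    refine ⟨by linarith, by linarith, by linarith, by ring⟩
  cases r with
  | one =>
    simp only [cs, xs, resolveS, Env.get, RRef.val, mul_zero, add_zero, slot1, Nat.reduceLT,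
      if_true, preV, List.getD_cons_zero, List.getD_cons_succ]
    norm_num
  | zero =>
    simp only [cs, xs, resolveS, Env.get, RRef.val, mul_zero, add_zero, slot1, Nat.reduceLT,
      if_true, preV, List.getD_cons_zero, List.getD_cons_succ]
    norm_num
  | cur j =>
    have := main v.p hp j hok
    have h1 : resolveS v (cs (.cur j)) = 7 + 200 * v.p + 2 * j := by
      simp only [resolveS, cs, Env.get]; ring
    have h2 : resolveS v (xs (.cur j)) = 7 + 200 * v.p + (2 * j + 1) := by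
      simp only [resolveS, xs, Env.get]; ring
    rw [h1, h2]
    exact this
  | lft =>
    have := main v.l hl 0 (by norm_num)
    have h1 : resolveS v (cs .lft) = 7 + 200 * v.l + 2 * 0 := by
      simp only [resolveS, cs, Env.get]; ring
    have h2 : resolveS v (xs .lft) = 7 + 200 * v.l + (2 * 0 + 1) := by
      simp only [resolveS, xs, Env.get]; ring
    rw [h1, h2]
    exact this
  | rgt =>
    have := main v.r hr 0 (by norm_num)
    have h1 : resolveS v (cs .rgt) = 7 + 200 * v.r + 2 * 0 := by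
      simp only [resolveS, cs, Env.get]; ring
    have h2 : resolveS v (xs .rgt) = 7 + 200 * v.r + (2 * 0 + 1) := by
      simp only [resolveS, xs, Env.get]; ring
    rw [h1, h2]
    exact this
  | hom =>
    have := main v.h hh 6 (by norm_num)
    have h1 : resolveS v (cs .hom) = 7 + 200 * v.h + 2 * 6 := by
      simp only [resolveS, cs, Env.get]; ring
    have h2 : resolveS v (xs .hom) = 7 + 200 * v.h + (2 * 6 + 1) := by
      simp only [resolveS, xs, Env.get]; ring
    rw [h1, h2]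
    exact this

/-- external values of gadget `j` -/
def evOf (K : ℝ) (ρ : ℕ → ℕ → ℝ) (prog : ℕ → Option Tok × Env) (j i : ℕ) : ℝ :=
  slot1 K (xOf ρ) (resolveS (prog (j / 6)).2 (extRef (consAt (prog (j / 6)).1 (j % 6)) i))

theorem evOf_prem {K : ℝ} {ρ : ℕ → ℕ → ℝ} {P : ℕ} {prog : ℕ → Option Tok × Env}
    (W : ProgWF P prog) (hK : 22 < K) (hx : ∀ i < 7 * P, |xOf ρ i| < K)
    (hs : ProgSat P prog ρ) {j : ℕ} (hj : j / 6 < P) : Prem (evOf K ρ prog j) := by
  set t := (prog (j / 6)).1 with ht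
  set v := (prog (j / 6)).2 with hv
  have hok := consAt_ok t (j % 6)
  obtain ⟨o1, o2, o3, o4⟩ := hok
  have hvp : v.p < P := by rw [hv, W.p _ hj]; exact hj
  have hvl := W.l _ hj
  have hvr := W.r _ hj
  have hvh := W.h _ hj
  obtain ⟨a1, a2, a3, a4⟩ := slot1_ref hK hx hvp hvl hvr hvh _ o1
  obtain ⟨b1, b2, b3, b4⟩ := slot1_ref hK hx hvp hvl hvr hvh _ o2
  obtain ⟨c1, c2, c3, c4⟩ := slot1_ref hK hx hvp hvl hvr hvh _ o3
  obtain ⟨d1, d2, d3, d4⟩ := slot1_ref hK hx hvp hvl hvr hvh _ o4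
  have hq : (consAt t (j % 6)).Holds ρ v := by
    by_cases h : j % 6 < (cons t).length
    · have : consAt t (j % 6) = (cons t)[j % 6] := by
        unfold consAt
        rw [List.getD_eq_getElem?_getD, List.getElem?_eq_getElem h]
        rfl
      rw [this]
      exact hs _ hj _ (List.getElem_mem h)
    · have : consAt t (j % 6) = ⟨.zero, .zero, .zero, .zero⟩ := by
        unfold consAt
        rw [List.getD_eq_getElem?_getD, List.getElem?_eq_none (by omega)]
        rfl
      rw [this]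
      simp [Quad.Holds, RRef.val]
  unfold Quad.Holds at hq
  refine ⟨a1, a2, a3, ?_, ?_, ?_, ?_, ?_, ?_, ?_⟩
  · change 1 < slot1 K (xOf ρ) (resolveS v (cs (consAt t (j % 6)).j)); linarith
  · change 1 < slot1 K (xOf ρ) (resolveS v (xs (consAt t (j % 6)).j)); linarith
  · change 1 < slot1 K (xOf ρ) (resolveS v (cs (consAt t (j % 6)).k)); linarith
  · change 1 < slot1 K (xOf ρ) (resolveS v (xs (consAt t (j % 6)).k)); linarith
  · change 1 < slot1 K (xOf ρ) (resolveS v (cs (consAt t (j % 6)).l)); linarith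
  · change 1 < slot1 K (xOf ρ) (resolveS v (xs (consAt t (j % 6)).l)); linarith
  · rw [← a4, ← b4, ← c4, ← d4] at hq
    exact hq

/-- the strict solution -/
def valOf (K : ℝ) (ρ : ℕ → ℕ → ℝ) (P : ℕ) (prog : ℕ → Option Tok × Env) (g : ℕ) : ℝ :=
  incV K (K * 8 ^ (7 * P)) (xOf ρ) (7 * P) (evOf K ρ prog) (rank P g)

theorem valOf_pre (K : ℝ) (ρ : ℕ → ℕ → ℝ) (P : ℕ) (prog : ℕ → Option Tok × Env) {g : ℕ}
    (hg : g < 7) : valOf K ρ P prog g = preV g := by
  have : rank P g = g := by simp [rank, hg]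
  unfold valOf incV
  rw [this, if_pos hg]

theorem valOf_real (K : ℝ) (ρ : ℕ → ℕ → ℝ) {P : ℕ} (prog : ℕ → Option Tok × Env) {p s : ℕ}
    (hp : p < P) (hs : s < 14) :
    valOf K ρ P prog (7 + 200 * p + s) = realV K (xOf ρ) (14 * p + s) := by
  have : rank P (7 + 200 * p + s) = 7 + (14 * p + s) := by
    unfold rank
    rw [if_neg (by omega), if_pos (by omega)]
    omega
  unfold valOf incV
  rw [this, if_neg (by omega), if_pos (by omega)]
  congr 1
  omega

theorem valOf_slot1 {K : ℝ} {ρ : ℕ → ℕ → ℝ} {P : ℕ} (prog : ℕ → Option Tok × Env) {g : ℕ}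
    (hg : g < 7 ∨ ∃ p < P, ∃ s < 14, g = 7 + 200 * p + s) :
    valOf K ρ P prog g = slot1 K (xOf ρ) g := by
  rcases hg with hg | ⟨p, hp, s, hs, rfl⟩
  · rw [valOf_pre _ _ _ _ hg]
    simp [slot1, hg]
  · rw [valOf_real _ _ _ hp hs, slot1_real _ _ _ (by omega)]

theorem valOf_gad (K : ℝ) (ρ : ℕ → ℕ → ℝ) {P : ℕ} (prog : ℕ → Option Tok × Env) {p e k : ℕ}
    (he : e < 6) (hk : k < 31) :
    valOf K ρ P prog (21 + 31 * e + k + 200 * p) =
      gadV (K * 8 ^ (7 * P)) (evOf K ρ prog) (6 * p + e) k := by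
  have : rank P (21 + 31 * e + k + 200 * p) = 7 + 2 * (7 * P) + (31 * (6 * p + e) + k) := by
    have h1 : 21 + 31 * e + k + 200 * p = 7 + 200 * p + (14 + 31 * e + k) := by ring
    have h2 : 14 + 31 * e + k < 200 := by omega
    have h3 : ¬ (14 + 31 * e + k < 14) := by omega
    have h4 : (7 + 200 * p + (14 + 31 * e + k) - 7) % 200 = 14 + 31 * e + k := by omega
    have h5 : (7 + 200 * p + (14 + 31 * e + k) - 7) / 200 = p := by omega
    rw [h1]
    unfold rank
    rw [if_neg (by omega), h4, if_neg h3, h5]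
    omega
  unfold valOf incV
  rw [this, if_neg (by omega), if_neg (by omega)]
  have h1 : (7 + 2 * (7 * P) + (31 * (6 * p + e) + k) - 7 - 2 * (7 * P)) / 31 = 6 * p + e := by
    omega
  have h2 : (7 + 2 * (7 * P) + (31 * (6 * p + e) + k) - 7 - 2 * (7 * P)) % 31 = k := by
    omega
  rw [h1, h2]

end Complete

/-- form of the external references -/
theorem ref_form {P : ℕ} {v : Env} (hp : v.p < P) (hl : v.l < P) (hr : v.r < P) (hh : v.h < P)
    (r : RRef) (hok : r.Ok) :
    (resolveS v (cs r) < 7 ∨ ∃ p < P, ∃ s < 14, resolveS v (cs r) = 7 + 200 * p + s) ∧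
    (resolveS v (xs r) < 7 ∨ ∃ p < P, ∃ s < 14, resolveS v (xs r) = 7 + 200 * p + s) := by
  cases r with
  | one => exact ⟨Or.inl (by simp [resolveS, cs, Env.get]), Or.inl (by simp [resolveS, xs, Env.get])⟩
  | zero => exact ⟨Or.inl (by simp [resolveS, cs, Env.get]), Or.inl (by simp [resolveS, xs, Env.get])⟩
  | cur j =>
    simp only [RRef.Ok] at hok
    exact ⟨Or.inr ⟨v.p, hp, 2 * j, by omega, by simp only [resolveS, cs, Env.get]; omega⟩,
      Or.inr ⟨v.p, hp, 2 * j + 1, by omega, by simp only [resolveS, xs, Env.get]; omega⟩⟩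
  | lft =>
    exact ⟨Or.inr ⟨v.l, hl, 0, by omega, by simp only [resolveS, cs, Env.get]; omega⟩,
      Or.inr ⟨v.l, hl, 1, by omega, by simp only [resolveS, xs, Env.get]; omega⟩⟩
  | rgt =>
    exact ⟨Or.inr ⟨v.r, hr, 0, by omega, by simp only [resolveS, cs, Env.get]; omega⟩,
      Or.inr ⟨v.r, hr, 1, by omega, by simp only [resolveS, xs, Env.get]; omega⟩⟩
  | hom =>
    exact ⟨Or.inr ⟨v.h, hh, 12, by omega, by simp only [resolveS, cs, Env.get]; omega⟩,
      Or.inr ⟨v.h, hh, 13, by omega, by simp only [resolveS, xs, Env.get]; omega⟩⟩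

theorem extRef_form {P : ℕ} {v : Env} (hp : v.p < P) (hl : v.l < P) (hr : v.r < P) (hh : v.h < P)
    (q : Quad RRef) (hok : q.Ok) (i : ℕ) :
    resolveS v (extRef q i) < 7 ∨ ∃ p < P, ∃ s < 14, resolveS v (extRef q i) = 7 + 200 * p + s := by
  obtain ⟨o1, o2, o3, o4⟩ := hok
  have r1 := ref_form hp hl hr hh _ o1
  have r2 := ref_form hp hl hr hh _ o2
  have r3 := ref_form hp hl hr hh _ o3
  have r4 := ref_form hp hl hr hh _ o4
  unfold extRef
  split
  · exact r1.1
  · exact r1.2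
  · exact r2.1
  · exact r2.2
  · exact r3.1
  · exact r3.2
  · exact r4.1
  · exact r4.2

theorem Eqn.map_all {α β : Type} (f : α → β) (Q : β → Prop) (e : Eqn α) :
    (e.map f).All Q ↔ e.All (fun a => Q (f a)) := by
  cases e <;> rfl

theorem Eqn.All.mono {α : Type} {Q R : α → Prop} {e : Eqn α} (h : ∀ a, Q a → R a) (he : e.All Q) :
    e.All R := by
  cases e <;> simp_all [Eqn.All]

theorem gadT_all : ∀ q ∈ gadT, q.All (fun a => ∀ i, a = Sum.inl i → i < 31) := by
  simp [gadT, Eqn.All, lo, ex]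

theorem Eqn.map_vIdx {α β : Type} (f : α → β) (e : Eqn α) : (e.map f).vIdx = f e.vIdx := by
  cases e <;> rfl

theorem Eqn.map_hIdx {α β : Type} (f : α → β) (e : Eqn α) : (e.map f).hIdx = f e.hIdx := by
  cases e <;> rfl

theorem gadT_v : ∀ q ∈ gadT, ∃ i < 31, q.vIdx = Sum.inl i := by
  simp [gadT, Eqn.vIdx, lo, ex]

/-- finite check on the pairs of indices of the equation vertices of a gadget -/
def pairOk (a b : Eqn (ℕ ⊕ ℕ)) : Bool :=
  decide (a.vIdx ≠ b.vIdx) || (decide (a.hIdx ≠ b.hIdx) && (a.hIdx.isLeft || b.hIdx.isLeft))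

theorem gadT_pair : ∀ k < 31, ∀ k' < 31, k ≠ k' →
    pairOk (gadT.getD k (.pt (lo 0) (lo 0))) (gadT.getD k' (.pt (lo 0) (lo 0))) = true := by
  decide

end Pool.Agent.Helper89
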