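import Pool.Agent.Helper89.Layer2

/-!
# Strict solutions from real solutions
-/

namespace Pool.Agent.Helper89

theorem slot_disj {p p' s t : ℕ} (hs : s < 14) (ht1 : 14 ≤ t) (ht2 : t < 200)
    (h : 7 + 200 * p + s = 7 + 200 * p' + t) : False := by
  have h1 : (200 * p + s) % 200 = s := by omega
  have h2 : (200 * p' + t) % 200 = t := by omega
  have h3 : 200 * p + s = 200 * p' + t := by omega
  rw [h3, h2] at h1
  omega

theorem getD_gadT {k : ℕ} (hk : k < 31) : gadT.getD k (.pt (lo 0) (lo 0)) ∈ gadT := by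
  rw [List.getD_eq_getElem?_getD, List.getElem?_eq_getElem (by rw [gadT_length]; exact hk)]
  exact List.getElem_mem _

/-- every slot number is a constant slot, a slot of a real number, or a gadget slot -/
theorem slot_cases {P g : ℕ} (hg : g < slots P) :
    g < 7 ∨ (∃ p < P, ∃ s < 14, g = 7 + 200 * p + s) ∨
      (∃ p < P, ∃ e < 6, ∃ k < 31, g = 7 + 200 * p + (14 + 31 * e + k)) := by
  unfold slots at hg
  by_cases h : g < 7
  · exact Or.inl h
  · by_cases h2 : (g - 7) % 200 < 14
    · exact Or.inr (Or.inl ⟨(g - 7) / 200, by omega, (g - 7) % 200, h2, by omega⟩)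
    · refine Or.inr (Or.inr ⟨(g - 7) / 200, by omega, ((g - 7) % 200 - 14) / 31, by omega,
        ((g - 7) % 200 - 14) % 31, by omega, by omega⟩)

theorem sys_gad (prog : ℕ → Option Tok × Env) (p e k : ℕ) (he : e < 6) (hk : k < 31) :
    sysOf prog (7 + 200 * p + (14 + 31 * e + k)) =
      ((gadT.getD k (.pt (lo 0) (lo 0))).map
        (Sum.elim (fun i => (.cur, 21 + 31 * e + i)) (extRef (consAt (prog p).1 e)))).map
          (resolveS (prog p).2) := by
  rw [sysOf_blk _ _ (by omega), blkEq_gad _ _ hk]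

theorem sys_real (prog : ℕ → Option Tok × Env) (p s : ℕ) (hs : s < 14) (hp : (prog p).2.p = p) :
    sysOf prog (7 + 200 * p + s) = .pt (7 + 200 * p + s) (7 + 200 * p + s) := by
  rw [sysOf_blk _ _ (by omega), blkEq_real _ hs]
  have : resolveS (prog p).2 (Src.cur, 7 + s) = 7 + 200 * p + s := by
    simp only [resolveS, Env.get, hp]; ring
  simp only [Eqn.map, this]

variable {P : ℕ} {prog : ℕ → Option Tok × Env}

theorem ext_form (W : ProgWF P prog) {p : ℕ} (hp : p < P) (e i : ℕ) :
    resolveS (prog p).2 (extRef (consAt (prog p).1 e) i) < 7 ∨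
      ∃ p' < P, ∃ s < 14, resolveS (prog p).2 (extRef (consAt (prog p).1 e) i) =
        7 + 200 * p' + s :=
  extRef_form (by rw [W.p p hp]; exact hp) (W.l p hp) (W.r p hp) (W.h p hp) _ (consAt_ok _ _) i

theorem sys_idx (W : ProgWF P prog) : ∀ g < slots P, (sysOf prog g).All (· < slots P) := by
  intro g hg
  have h7 : 7 ≤ slots P := by unfold slots; omega
  rcases slot_cases hg with h | ⟨p, hp, s, hs, rfl⟩ | ⟨p, hp, e, he, k, hk, rfl⟩
  · rw [sysOf_pre _ h]
    interval_cases g <;> simp only [preT, List.getD_cons_zero, List.getD_cons_succ, Eqn.All] <;>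
      omega
  · rw [sys_real _ _ _ hs (W.p p hp)]
    exact ⟨hg, hg⟩
  · rw [sys_gad _ _ _ _ he hk, Eqn.map_all, Eqn.map_all]
    refine Eqn.All.mono ?_ (gadT_all _ (getD_gadT hk))
    rintro (i | i) hi
    · have := hi i rfl
      simp only [Sum.elim_inl, resolveS, Env.get, W.p p hp]
      unfold slots
      omega
    · simp only [Sum.elim_inr]
      rcases ext_form W hp e i with h | ⟨p', hp', s, hs, h⟩
      · omega
      · rw [h]; unfold slots; omega

theorem preT_pair : ∀ g < 7, ∀ g' < 7, (preT.getD g (.pt 0 0)).vIdx = (preT.getD g' (.pt 0 0)).vIdx →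
    (preT.getD g (.pt 0 0)).hIdx = (preT.getD g' (.pt 0 0)).hIdx → g = g' := by
  decide

theorem preT_v : ∀ g < 7, (preT.getD g (.pt 0 0)).vIdx < 7 := by
  decide

theorem gad_v (prog : ℕ → Option Tok × Env) {p e k : ℕ} (he : e < 6) (hk : k < 31)
    (hp : (prog p).2.p = p) :
    ∃ i < 31, (gadT.getD k (.pt (lo 0) (lo 0))).vIdx = Sum.inl i ∧
      (sysOf prog (7 + 200 * p + (14 + 31 * e + k))).vIdx = 7 + 200 * p + (14 + 31 * e + i) := by
  obtain ⟨i, hi, h⟩ := gadT_v _ (getD_gadT hk)
  refine ⟨i, hi, h, ?_⟩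
  rw [sys_gad _ _ _ _ he hk, Eqn.map_vIdx, Eqn.map_vIdx, h]
  simp only [Sum.elim_inl, resolveS, Env.get, hp]
  ring

theorem sys_pair (W : ProgWF P prog) : ∀ g < slots P, ∀ g' < slots P,
    (sysOf prog g).vIdx = (sysOf prog g').vIdx → (sysOf prog g).hIdx = (sysOf prog g').hIdx →
    g = g' := by
  intro g hg g' hg' hv hh
  rcases slot_cases hg with h | ⟨p, hp, s, hs, rfl⟩ | ⟨p, hp, e, he, k, hk, rfl⟩ <;>
  rcases slot_cases hg' with h' | ⟨p', hp', s', hs', rfl⟩ | ⟨p', hp', e', he', k', hk', rfl⟩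
  · rw [sysOf_pre _ h, sysOf_pre _ h'] at hv hh
    exact preT_pair g h g' h' hv hh
  · rw [sysOf_pre _ h, sys_real _ _ _ hs' (W.p _ hp')] at hv
    have := preT_v g h
    simp only [Eqn.vIdx] at hv this
    omega
  · obtain ⟨i, hi, _, hv'⟩ := gad_v prog he' hk' (W.p _ hp')
    rw [sysOf_pre _ h, hv'] at hv
    have := preT_v g h
    omega
  · rw [sysOf_pre _ h', sys_real _ _ _ hs (W.p _ hp)] at hv
    have := preT_v g' h'
    simp only [Eqn.vIdx] at hv this
    omega
  · rw [sys_real _ _ _ hs (W.p _ hp), sys_real _ _ _ hs' (W.p _ hp')] at hv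
    exact hv
  · obtain ⟨i, hi, _, hv'⟩ := gad_v prog he' hk' (W.p _ hp')
    rw [sys_real _ _ _ hs (W.p _ hp), hv'] at hv
    simp only [Eqn.vIdx] at hv
    exact (slot_disj hs (by omega) (by omega) hv).elim
  · obtain ⟨i, hi, _, hv'⟩ := gad_v prog he hk (W.p _ hp)
    rw [sysOf_pre _ h', hv'] at hv
    have := preT_v g' h'
    omega
  · obtain ⟨i, hi, _, hv'⟩ := gad_v prog he hk (W.p _ hp)
    rw [sys_real _ _ _ hs' (W.p _ hp'), hv'] at hv
    simp only [Eqn.vIdx] at hv
    exact (slot_disj hs' (by omega) (by omega) hv.symm).elim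
  · obtain ⟨i, hi, hi2, hi3⟩ := gad_v prog he hk (W.p _ hp)
    obtain ⟨i', hi', hi2', hi3'⟩ := gad_v prog he' hk' (W.p _ hp')
    rw [hi3, hi3'] at hv
    have hpp : p = p' := by omega
    subst hpp
    have hee : e = e' := by omega
    subst hee
    have hii : i = i' := by omega
    subst hii
    by_contra hne
    have hkk : k ≠ k' := by rintro rfl; exact hne rfl
    have hpk := gadT_pair k hk k' hk' hkk
    unfold pairOk at hpk
    rw [hi2, hi2'] at hpk
    simp only [ne_eq, not_true_eq_false, decide_false, Bool.false_or, Bool.and_eq_true,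
      decide_eq_true_eq, Bool.or_eq_true] at hpk
    obtain ⟨h1, h2⟩ := hpk
    rw [sys_gad _ _ _ _ he hk, sys_gad _ _ _ _ he hk', Eqn.map_hIdx, Eqn.map_hIdx, Eqn.map_hIdx,
      Eqn.map_hIdx] at hh
    have a1 := (gadT_all _ (getD_gadT hk)).hIdx
    have a2 := (gadT_all _ (getD_gadT hk')).hIdx
    generalize (gadT.getD k (.pt (lo 0) (lo 0))).hIdx = x at *
    generalize (gadT.getD k' (.pt (lo 0) (lo 0))).hIdx = y at *
    have hcur : ∀ j, resolveS (prog p).2 (Src.cur, 21 + 31 * e + j) =
        7 + 200 * p + (14 + 31 * e + j) := by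
      intro j
      simp only [resolveS, Env.get, W.p p hp]; ring
    rcases x with j | j <;> rcases y with j' | j'
    · simp only [Sum.elim_inl] at hh
      rw [hcur, hcur] at hh
      apply h1
      congr 1
      omega
    · simp only [Sum.elim_inl, Sum.elim_inr] at hh
      rw [hcur] at hh
      have := a1 j rfl
      rcases ext_form W hp e j' with h | ⟨p', hp', s, hs, h⟩
      · omega
      · rw [h] at hh
        exact slot_disj hs (by omega) (by omega) hh.symm
    · simp only [Sum.elim_inl, Sum.elim_inr] at hh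
      rw [hcur] at hh
      have := a2 j' rfl
      rcases ext_form W hp e j with h | ⟨p', hp', s, hs, h⟩
      · omega
      · rw [h] at hh
        exact slot_disj hs (by omega) (by omega) hh
    · simp at h2

theorem strict_of_real (W : ProgWF P prog) {ρ : ℕ → ℕ → ℝ} (hs : ProgSat P prog ρ) :
    ∃ val, Strict (slots P) (sysOf prog) val := by
  obtain ⟨K, hK, hx⟩ : ∃ K : ℝ, 22 < K ∧ ∀ i < 7 * P, |xOf ρ i| < K := by
    refine ⟨23 + ∑ i ∈ Finset.range (7 * P), |xOf ρ i|, ?_, ?_⟩
    · have : 0 ≤ ∑ i ∈ Finset.range (7 * P), |xOf ρ i| := Finset.sum_nonneg fun _ _ => abs_nonneg _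
      linarith
    · intro i hi
      have := Finset.single_le_sum (f := fun i => |xOf ρ i|) (fun _ _ => abs_nonneg _)
        (Finset.mem_range.2 hi)
      linarith
  have hmono := incV_strictMono (x := xOf ρ) (n := 7 * P) (evOf K ρ prog) hK hx
  refine ⟨valOf K ρ P prog, ?_, ?_, sys_idx W, sys_pair W, ?_⟩
  · intro i hi j hj h
    exact rank_inj hi hj (hmono.injective h)
  · intro i hi
    have h1 : incV K (K * 8 ^ (7 * P)) (xOf ρ) (7 * P) (evOf K ρ prog) 0 ≤ valOf K ρ P prog i :=
      hmono.monotone (Nat.zero_le _)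
    have h2 : incV K (K * 8 ^ (7 * P)) (xOf ρ) (7 * P) (evOf K ρ prog) 0 = 2 := by
      simp [incV, preV]
    linarith
  · intro g hg
    rcases slot_cases hg with h | ⟨p, hp, s, hs', rfl⟩ | ⟨p, hp, e, he, k, hk, rfl⟩
    · rw [sysOf_pre _ h]
      have hv : ∀ i < 7, valOf K ρ P prog i = preV i := fun i hi => valOf_pre _ _ _ _ hi
      interval_cases g <;>
        simp only [preT, List.getD_cons_zero, List.getD_cons_succ, Eqn.Holds] <;>
        (try rw [hv _ (by norm_num), hv _ (by norm_num)]) <;>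
        (try rw [hv _ (by norm_num)]) <;>
        simp only [preV, List.getD_cons_zero, List.getD_cons_succ] <;> norm_num
    · rw [sys_real _ _ _ hs' (W.p p hp)]
      trivial
    · rw [sys_gad _ _ _ _ he hk, Eqn.map_holds, Eqn.map_holds]
      have hj : (6 * p + e) / 6 = p := by omega
      have hj2 : (6 * p + e) % 6 = e := by omega
      have hprem := evOf_prem W hK hx hs (j := 6 * p + e) (by omega)
      have h1 := (gadW_spec (bnd (K * 8 ^ (7 * P)) (evOf K ρ prog) (6 * p + e))
        (evOf K ρ prog (6 * p + e))).2.2 hprem _ (getD_gadT hk)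
      have hall := gadT_all _ (getD_gadT hk)
      have hcongr : ∀ (q : Eqn (ℕ ⊕ ℕ)) (f f' : ℕ ⊕ ℕ → ℝ),
          q.All (fun a => ∀ i, a = Sum.inl i → i < 31) →
          (∀ i < 31, f (Sum.inl i) = f' (Sum.inl i)) → (∀ i, f (Sum.inr i) = f' (Sum.inr i)) →
          q.Holds f → q.Holds f' := by
        intro q f f' hq hf1 hf2 hh
        have key : ∀ a : ℕ ⊕ ℕ, (∀ i, a = Sum.inl i → i < 31) → f a = f' a := by
          rintro (i | i) hi
          · exact hf1 i (hi i rfl)
          · exact hf2 i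
        cases q with
        | pt i j => trivial
        | add i j k =>
          simp only [Eqn.Holds, Eqn.All] at *
          rw [← key _ hq.1, ← key _ hq.2.1, ← key _ hq.2.2]; exact hh
        | mul i j k =>
          simp only [Eqn.Holds, Eqn.All] at *
          rw [← key _ hq.1, ← key _ hq.2.1, ← key _ hq.2.2]; exact hh
      refine hcongr _ _ _ hall ?_ ?_ h1
      · intro i hi
        simp only [Sum.elim_inl, resolveS, Env.get, W.p p hp]
        rw [valOf_gad _ _ _ he hi]
        rfl
      · intro i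
        simp only [Sum.elim_inr]
        rw [valOf_slot1 prog (ext_form W hp e i)]
        simp only [evOf, hj, hj2]

end Pool.Agent.Helper89
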