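import Pool.Agent.Helper89.Defs

/-!
# ORTH3 as a sentence of the existential theory of the reals
-/

namespace Pool.Agent.Helper89

/-- the three counters of the program -/
inductive C3 : Type
  | n | u | v
  deriving DecidableEq

/-- term templates -/
inductive TTerm : Type
  | var (c : C3) (a : ℕ) : TTerm
  | num (c : C3) : TTerm
  | zero : TTerm
  | add (s t : TTerm) : TTerm
  | mul (s t : TTerm) : TTerm

/-- formula templates -/
inductive TForm : Type
  | eq (s t : TTerm) : TForm
  | lt (s t : TTerm) : TForm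
  | not (φ : TForm) : TForm
  | and (φ ψ : TForm) : TForm
  | or (φ ψ : TForm) : TForm

/-- the number `k` as a sum of ones -/
def numT : ℕ → PTerm
  | 0 => .const 0
  | k + 1 => .add (numT k) (.const 1)

theorem numT_eval (x : ℕ → ℝ) (k : ℕ) : (numT k).eval x = k := by
  induction k with
  | zero => simp [numT, PTerm.eval]
  | succ k ih => simp [numT, PTerm.eval, ih]

def TTerm.inst (w : C3 → ℕ) : TTerm → PTerm
  | .var c a => .var (3 * w c + a)
  | .num c => numT (w c)
  | .zero => .const 0
  | .add s t => .add (s.inst w) (t.inst w)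
  | .mul s t => .mul (s.inst w) (t.inst w)

def TForm.inst (w : C3 → ℕ) : TForm → QFormula
  | .eq s t => .eq (s.inst w) (t.inst w)
  | .lt s t => .lt (s.inst w) (t.inst w)
  | .not φ => .not (φ.inst w)
  | .and φ ψ => .and (φ.inst w) (ψ.inst w)
  | .or φ ψ => .or (φ.inst w) (ψ.inst w)

/-- `(w, none)` stands for the word `w`, and `(w, some c)` for `w` repeated `c` times -/
abbrev Item : Type := List Tok × Option C3

def itemOut (w : C3 → ℕ) : Item → List Tok
  | (l, none) => l
  | (l, some c) => (List.replicate (w c) l).flatten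

def itemsOut (w : C3 → ℕ) (l : List Item) : List Tok := l.flatMap (itemOut w)

theorem itemsOut_append (w : C3 → ℕ) (a b : List Item) :
    itemsOut w (a ++ b) = itemsOut w a ++ itemsOut w b := by simp [itemsOut]

def TTerm.items : TTerm → List Item
  | .var c a => [([.tick, .tick, .tick], some c), (List.replicate a .tick ++ [.var], none)]
  | .num c => [([.zero], none), ([.zero, .dig1, .add], some c)]
  | .zero => [([.zero], none)]
  | .add s t => s.items ++ t.items ++ [([.add], none)]
  | .mul s t => s.items ++ t.items ++ [([.mul], none)]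

def TForm.items : TForm → List Item
  | .eq s t => s.items ++ t.items ++ [([.eq], none)]
  | .lt s t => s.items ++ t.items ++ [([.lt], none)]
  | .not φ => φ.items ++ [([.not], none)]
  | .and φ ψ => φ.items ++ ψ.items ++ [([.and], none)]
  | .or φ ψ => φ.items ++ ψ.items ++ [([.or], none)]

theorem ticks3 (k : ℕ) :
    (List.replicate k [Tok.tick, Tok.tick, Tok.tick]).flatten = List.replicate (3 * k) Tok.tick := by
  induction k with
  | zero => rfl
  | succ k ih =>
    rw [List.replicate_succ, List.flatten_cons, ih]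
    have : 3 * (k + 1) = 3 + 3 * k := by ring
    rw [this, List.replicate_add]
    rfl

theorem encNat_zero' : encNat 0 = [.zero] := by rw [encNat]; simp

theorem encNat_one' : encNat 1 = [.zero, .dig1] := by rw [encNat]; simp [encNat_zero']

theorem numT_enc (k : ℕ) :
    (numT k).enc = [.zero] ++ (List.replicate k [Tok.zero, Tok.dig1, Tok.add]).flatten := by
  induction k with
  | zero => simp [numT, PTerm.enc, encNat_zero']
  | succ k ih =>
    rw [List.replicate_succ', List.flatten_append, ← List.append_assoc, ← ih]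
    simp [numT, PTerm.enc, encNat_one']

theorem TTerm.items_enc (w : C3 → ℕ) (t : TTerm) : itemsOut w t.items = (t.inst w).enc := by
  induction t with
  | var c a =>
    simp only [TTerm.items, itemsOut, List.flatMap_cons, List.flatMap_nil, itemOut, ticks3,
      TTerm.inst, PTerm.enc, List.append_nil, ← List.append_assoc, ← List.replicate_add]
  | num c =>
    simp only [TTerm.items, itemsOut, List.flatMap_cons, List.flatMap_nil, itemOut,
      TTerm.inst, numT_enc, List.append_nil]
  | zero => simp [TTerm.items, itemsOut, itemOut, TTerm.inst, PTerm.enc, encNat_zero']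
  | add s t ihs iht =>
    rw [TTerm.items, itemsOut_append, itemsOut_append, ihs, iht]
    simp [itemsOut, itemOut, TTerm.inst, PTerm.enc]
  | mul s t ihs iht =>
    rw [TTerm.items, itemsOut_append, itemsOut_append, ihs, iht]
    simp [itemsOut, itemOut, TTerm.inst, PTerm.enc]

theorem TForm.items_enc (w : C3 → ℕ) (t : TForm) : itemsOut w t.items = (t.inst w).enc := by
  induction t with
  | eq s t =>
    rw [TForm.items, itemsOut_append, itemsOut_append, TTerm.items_enc, TTerm.items_enc]
    simp [itemsOut, itemOut, TForm.inst, QFormula.enc]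
  | lt s t =>
    rw [TForm.items, itemsOut_append, itemsOut_append, TTerm.items_enc, TTerm.items_enc]
    simp [itemsOut, itemOut, TForm.inst, QFormula.enc]
  | not φ ih =>
    rw [TForm.items, itemsOut_append, ih]
    simp [itemsOut, itemOut, TForm.inst, QFormula.enc]
  | and φ ψ ih1 ih2 =>
    rw [TForm.items, itemsOut_append, itemsOut_append, ih1, ih2]
    simp [itemsOut, itemOut, TForm.inst, QFormula.enc]
  | or φ ψ ih1 ih2 =>
    rw [TForm.items, itemsOut_append, itemsOut_append, ih1, ih2]
    simp [itemsOut, itemOut, TForm.inst, QFormula.enc]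

/-- squared length of the vector of counter `c` -/
def sqT (c : C3) : TTerm :=
  .add (.add (.mul (.var c 0) (.var c 0)) (.mul (.var c 1) (.var c 1)))
    (.mul (.var c 2) (.var c 2))

/-- inner product -/
def dotT : TTerm :=
  .add (.add (.mul (.var .u 0) (.var .v 0)) (.mul (.var .u 1) (.var .v 1)))
    (.mul (.var .u 2) (.var .v 2))

def crossT (i j : ℕ) : TForm := .eq (.mul (.var .u i) (.var .v j)) (.mul (.var .u j) (.var .v i))

/-- vector `u` is nonzero, and non-collinear with vector `v` unless `u = v` -/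
def pairT : TForm :=
  .and (.lt .zero (sqT .u)) (.or (.eq (.num .u) (.num .v))
    (.not (.and (.and (crossT 0 1) (crossT 0 2)) (crossT 1 2))))

/-- vectors `u` and `v` are orthogonal, unless `u = v` -/
def edgeT : TForm := .or (.eq (.num .u) (.num .v)) (.eq dotT .zero)

def w3 (n u v : ℕ) : C3 → ℕ
  | .n => n
  | .u => u
  | .v => v

def pairF (n u v : ℕ) : QFormula := pairT.inst (w3 n u v)
def edgeF (n u v : ℕ) : QFormula := edgeT.inst (w3 n u v)

theorem pairF_holds (x : ℕ → ℝ) (n u v : ℕ) : (pairF n u v).Holds x ↔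
    0 < x (3 * u) * x (3 * u) + x (3 * u + 1) * x (3 * u + 1) + x (3 * u + 2) * x (3 * u + 2) ∧
    (u = v ∨ ¬ ((x (3 * u) * x (3 * v + 1) = x (3 * u + 1) * x (3 * v) ∧
      x (3 * u) * x (3 * v + 2) = x (3 * u + 2) * x (3 * v)) ∧
      x (3 * u + 1) * x (3 * v + 2) = x (3 * u + 2) * x (3 * v + 1))) := by
  simp [pairF, pairT, sqT, crossT, TForm.inst, TTerm.inst, QFormula.Holds, PTerm.eval, numT_eval, w3]

theorem edgeF_holds (x : ℕ → ℝ) (n u v : ℕ) : (edgeF n u v).Holds x ↔
    (u = v ∨ x (3 * u) * x (3 * v) + x (3 * u + 1) * x (3 * v + 1) +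
      x (3 * u + 2) * x (3 * v + 2) = 0) := by
  simp [edgeF, edgeT, dotT, TForm.inst, TTerm.inst, QFormula.Holds, PTerm.eval, numT_eval, w3]

/-- conjunction of a list, starting with a true formula -/
def conjL (b : QFormula) : List QFormula → QFormula
  | [] => b
  | φ :: l => conjL (.and b φ) l

theorem conjL_holds (x : ℕ → ℝ) (b : QFormula) (l : List QFormula) :
    (conjL b l).Holds x ↔ b.Holds x ∧ ∀ φ ∈ l, φ.Holds x := by
  induction l generalizing b with
  | nil => simp [conjL]
  | cons φ l ih => simp [conjL, ih, QFormula.Holds, and_assoc]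

theorem conjL_enc (b : QFormula) (l : List QFormula) :
    (conjL b l).enc = b.enc ++ l.flatMap (fun φ => φ.enc ++ [.and]) := by
  induction l generalizing b with
  | nil => simp [conjL]
  | cons φ l ih => rw [conjL, ih]; simp [QFormula.enc]

def trueF : QFormula := .eq (.const 0) (.const 0)

/-- all pair formulas, for `(u, v)` in lexicographic order -/
def pairsL (n : ℕ) : List QFormula :=
  (List.range n).flatMap fun u => (List.range n).map fun v => pairF n u v

/-- the sentence of a graph -/
def sentence (L : EdgeList) : QFormula :=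
  conjL trueF ((L.edges.map fun e => edgeF L.n e.1 e.2).reverse ++ pairsL L.n)

theorem sentence_holds (L : EdgeList) (x : ℕ → ℝ) : (sentence L).Holds x ↔
    (∀ e ∈ L.edges, (edgeF L.n e.1 e.2).Holds x) ∧
      ∀ u < L.n, ∀ v < L.n, (pairF L.n u v).Holds x := by
  unfold sentence pairsL
  rw [conjL_holds]
  simp only [trueF, QFormula.Holds, true_and, List.mem_append, List.mem_reverse, List.mem_map,
    List.mem_flatMap, List.mem_range]
  constructor
  · intro h
    exact ⟨fun e he => h _ (Or.inl ⟨e, he, rfl⟩), fun u hu v hv => h _ (Or.inr ⟨u, hu, v, hv, rfl⟩)⟩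
  · rintro ⟨h1, h2⟩ φ (⟨e, he, rfl⟩ | ⟨u, hu, v, hv, rfl⟩)
    · exact h1 e he
    · exact h2 u hu v hv

theorem sentence_iff (L : EdgeList) : HasOrthRep L.graph ↔ ∃ x : ℕ → ℝ, (sentence L).Holds x := by
  constructor
  · rintro ⟨φ, h0, hc, ho⟩
    -- coordinates
    let x : ℕ → ℝ := fun i => if h : i / 3 < L.n then φ ⟨i / 3, h⟩ ⟨i % 3, Nat.mod_lt _ (by norm_num)⟩
      else 0
    have hx : ∀ (u : ℕ) (hu : u < L.n) (a : ℕ) (ha : a < 3), x (3 * u + a) = φ ⟨u, hu⟩ ⟨a, ha⟩ := by
      intro u hu a ha
      have h1 : (3 * u + a) / 3 = u := by omega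
      have h2 : (3 * u + a) % 3 = a := by omega
      simp only [x, h1, h2, hu, dite_true]
    have hx0 : ∀ (u : ℕ) (hu : u < L.n), x (3 * u) = φ ⟨u, hu⟩ 0 := by
      intro u hu
      have := hx u hu 0 (by norm_num)
      simpa using this
    have hx1 : ∀ (u : ℕ) (hu : u < L.n), x (3 * u + 1) = φ ⟨u, hu⟩ 1 := by
      intro u hu
      exact hx u hu 1 (by norm_num)
    have hx2 : ∀ (u : ℕ) (hu : u < L.n), x (3 * u + 2) = φ ⟨u, hu⟩ 2 := by
      intro u hu
      exact hx u hu 2 (by norm_num)
    refine ⟨x, ?_⟩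
    rw [sentence_holds]
    constructor
    · rintro ⟨u, v⟩ he
      rw [edgeF_holds]
      by_cases huv : (u : ℕ) = v
      · exact Or.inl huv
      · right
        have hadj : L.graph.Adj u v := by
          unfold EdgeList.graph
          rw [SimpleGraph.fromRel_adj]
          exact ⟨fun h => huv (by rw [h]), Or.inl he⟩
        have := ho u v hadj
        rw [hx0 u u.2, hx1 u u.2, hx2 u u.2, hx0 v v.2, hx1 v v.2, hx2 v v.2]
        simp [EuclideanSpace.inner_eq_star_dotProduct, dotProduct, Fin.sum_univ_three] at this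
        simp only [Fin.eta]
        linarith
    · intro u hu v hv
      rw [pairF_holds]
      rw [hx0 u hu, hx1 u hu, hx2 u hu, hx0 v hv, hx1 v hv, hx2 v hv]
      have nz : ∀ w : Fin L.n, 0 < φ w 0 * φ w 0 + φ w 1 * φ w 1 + φ w 2 * φ w 2 := by
        intro w
        by_contra hcon
        apply h0 w
        have s0 := mul_self_nonneg (φ w 0)
        have s1 := mul_self_nonneg (φ w 1)
        have s2 := mul_self_nonneg (φ w 2)
        have z0 : φ w 0 = 0 := mul_self_eq_zero.1 (by linarith)
        have z1 : φ w 1 = 0 := mul_self_eq_zero.1 (by linarith)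
        have z2 : φ w 2 = 0 := mul_self_eq_zero.1 (by linarith)
        ext i
        fin_cases i
        · exact z0
        · exact z1
        · exact z2
      refine ⟨nz _, ?_⟩
      by_cases huv : u = v
      · exact Or.inl huv
      · right
        rintro ⟨⟨c1, c2⟩, c3⟩
        have hv0 := nz ⟨v, hv⟩
        generalize hD : φ ⟨v, hv⟩ 0 * φ ⟨v, hv⟩ 0 + φ ⟨v, hv⟩ 1 * φ ⟨v, hv⟩ 1 +
          φ ⟨v, hv⟩ 2 * φ ⟨v, hv⟩ 2 = D at hv0
        apply hc ⟨u, hu⟩ ⟨v, hv⟩ (fun h => huv (Fin.ext_iff.1 h))
          ((φ ⟨u, hu⟩ 0 * φ ⟨v, hv⟩ 0 + φ ⟨u, hu⟩ 1 * φ ⟨v, hv⟩ 1 +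
            φ ⟨u, hu⟩ 2 * φ ⟨v, hv⟩ 2) / D)
        have hDne : D ≠ 0 := hv0.ne'
        ext i
        fin_cases i
        · simp only [Fin.zero_eta, PiLp.smul_apply, smul_eq_mul]
          field_simp
          rw [← hD]
          simp only [Fin.mk_zero, Fin.isValue] at *
          linear_combination (-φ ⟨v, hv⟩ 1) * c1 * (-1) + (φ ⟨v, hv⟩ 2) * c2
        · simp only [Fin.mk_one, PiLp.smul_apply, smul_eq_mul]
          field_simp
          rw [← hD]
          linear_combination (-φ ⟨v, hv⟩ 0) * c1 + (φ ⟨v, hv⟩ 2) * c3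
        · simp only [Fin.reduceFinMk, PiLp.smul_apply, smul_eq_mul]
          field_simp
          rw [← hD]
          linear_combination (-φ ⟨v, hv⟩ 0) * c2 - (φ ⟨v, hv⟩ 1) * c3
  · rintro ⟨x, h⟩
    rw [sentence_holds] at h
    obtain ⟨h1, h2⟩ := h
    refine ⟨fun u => !₂[x (3 * u), x (3 * u + 1), x (3 * u + 2)], ?_, ?_, ?_⟩
    · intro u hu0
      have := ((pairF_holds x _ u u).1 (h2 u u.2 u u.2)).1
      have e0 := congrArg (fun w : EuclideanSpace ℝ (Fin 3) => w 0) hu0
      have e1 := congrArg (fun w : EuclideanSpace ℝ (Fin 3) => w 1) hu0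
      have e2 := congrArg (fun w : EuclideanSpace ℝ (Fin 3) => w 2) hu0
      simp at e0 e1 e2
      rw [e0, e1, e2] at this
      simp at this
    · intro u v huv c hcol
      have := ((pairF_holds x _ u v).1 (h2 u u.2 v v.2)).2
      have e0 := congrArg (fun w : EuclideanSpace ℝ (Fin 3) => w 0) hcol
      have e1 := congrArg (fun w : EuclideanSpace ℝ (Fin 3) => w 1) hcol
      have e2 := congrArg (fun w : EuclideanSpace ℝ (Fin 3) => w 2) hcol
      simp at e0 e1 e2
      rcases this with h | h
      · exact huv (Fin.ext h)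
      · apply h
        rw [e0, e1, e2]
        refine ⟨⟨by ring, by ring⟩, by ring⟩
    · have hsym : ∀ u v : Fin L.n, (u, v) ∈ L.edges → u ≠ v →
          x (3 * u) * x (3 * v) + x (3 * u + 1) * x (3 * v + 1) +
          x (3 * u + 2) * x (3 * v + 2) = 0 := by
        intro u v he huv
        exact ((edgeF_holds x _ u v).1 (h1 _ he)).resolve_left (fun h => huv (Fin.ext h))
      intro u v huv
      unfold EdgeList.graph at huv
      rw [SimpleGraph.fromRel_adj] at huv
      obtain ⟨hne, h | h⟩ := huv
      · have := hsym u v h hne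
        simp [EuclideanSpace.inner_eq_star_dotProduct]
        linarith
      · have := hsym v u h (Ne.symm hne)
        simp [EuclideanSpace.inner_eq_star_dotProduct]
        linarith

end Pool.Agent.Helper89
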