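import Pool.Agent.Helper89.RedProg
import Pool.Agent.Helper89.Member

/-!
# The program that computes the sentence of a graph
-/

namespace Pool.Agent.Helper89

namespace Mem

instance : Fintype C3 where
  elems := {.n, .u, .v}
  complete := by intro x; cases x <;> decide

/-- the stacks of the machine -/
inductive MK : Type
  | inp | out | tmp | cnt (c : C3)
  deriving DecidableEq

instance : Fintype MK where
  elems := {.inp, .out, .tmp, .cnt .n, .cnt .u, .cnt .v}
  complete := by
    intro x
    rcases x with _ | _ | _ | s
    · decide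
    · decide
    · decide
    · cases s <;> decide

/-- alphabets -/
abbrev MΓ : MK → Type
  | .inp => Bool
  | .out => Tok
  | .tmp => Unit
  | .cnt _ => Unit

instance : ∀ k, Fintype (MΓ k)
  | .inp => inferInstanceAs (Fintype Bool)
  | .out => inferInstanceAs (Fintype Tok)
  | .tmp => inferInstanceAs (Fintype Unit)
  | .cnt _ => inferInstanceAs (Fintype Unit)

/-- stacks with given contents -/
def mk (i : List Bool) (o : List Tok) (t : ℕ) (w : C3 → ℕ) : ∀ k, List (MΓ k)
  | .inp => i
  | .out => o
  | .tmp => List.replicate t ()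
  | .cnt x => List.replicate (w x) ()

section mk

variable (i : List Bool) (o : List Tok) (t : ℕ) (w : C3 → ℕ)

theorem upd_inp (i' : List Bool) : Function.update (mk i o t w) .inp i' = mk i' o t w := by
  funext k; cases k <;> rfl

theorem upd_out (o' : List Tok) : Function.update (mk i o t w) .out o' = mk i o' t w := by
  funext k; cases k <;> rfl

theorem upd_tmp (t' : ℕ) (l : List Unit) (hl : l = List.replicate t' ()) :
    Function.update (mk i o t w) .tmp l = mk i o t' w := by
  subst hl
  funext k; cases k <;> rfl

theorem upd_cnt (x : C3) (n : ℕ) (l : List Unit) (hl : l = List.replicate n ()) :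
    Function.update (mk i o t w) (.cnt x) l = mk i o t (Function.update w x n) := by
  subst hl
  funext k
  rcases k with _ | _ | _ | y
  · rfl
  · rfl
  · rfl
  · by_cases h : y = x
    · subst h; simp [mk]
    · have h' : (MK.cnt y) ≠ (MK.cnt x) := fun h2 => h (by injection h2)
      rw [Function.update_of_ne h']
      simp [mk, h]

end mk

/-- write a word -/
def emitW : List Tok → Cmd MΓ
  | [] => .skip
  | a :: l => .seq (emitW l) (.push .out a)

theorem emitW_runs (l : List Tok) (i : List Bool) (o : List Tok) (t : ℕ) (w : C3 → ℕ) :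
    RunsLe (emitW l) (mk i o t w) (mk i (l ++ o) t w) (l.length + 1) := by
  induction l with
  | nil => exact RunsLe.skip _
  | cons a l ih =>
    exact ih.seq (RunsLe.push _ _ _ _ (upd_out i (l ++ o) t w (a :: (l ++ o))).symm)

/-- first loop of `emitItem` -/
@[reducible] def repLoop (l : List Tok) (c : C3) : Cmd MΓ :=
  .loop (.cnt c) fun _ => .seq (.push .tmp ()) (emitW l)

theorem repLoop_runs (l : List Tok) (c : C3) (n : ℕ) (i : List Bool) (o : List Tok) (t : ℕ)
    (w : C3 → ℕ) (hw : w c = n) :
    RunsLe (repLoop l c) (mk i o t w)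
      (mk i ((List.replicate n l).flatten ++ o) (t + n) (Function.update w c 0))
      ((l.length + 3) * n + 1) := by
  induction n generalizing o t w with
  | zero =>
    have h0 : Function.update w c 0 = w := by
      rw [← hw]; exact Function.update_eq_self _ _
    rw [h0]
    exact RunsLe.loopNil (by simp [mk, hw])
  | succ n ih =>
    have hcnt : (mk i o t w) (.cnt c) = () :: List.replicate n () := by
      simp [mk, hw, List.replicate_succ]
    have h1 : RunsLe (.push .tmp ()) (mk i o t (Function.update w c n))
        (mk i o (t + 1) (Function.update w c n)) 1 :=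
      RunsLe.push _ _ _ _ (upd_tmp i o t (Function.update w c n) (t + 1) _ rfl).symm
    have h2 := emitW_runs l i o (t + 1) (Function.update w c n)
    have h3 := ih (l ++ o) (t + 1) (Function.update w c n) (by simp)
    have h4 := RunsLe.loopCons (Γ := MΓ) (k := MK.cnt c)
      (c := fun _ => Cmd.seq (.push .tmp ()) (emitW l)) hcnt (upd_cnt i o t w c n _ rfl).symm
      (h1.seq h2) h3
    have h5 : (List.replicate n l).flatten ++ (l ++ o) =
        (List.replicate (n + 1) l).flatten ++ o := by
      rw [← List.append_assoc, List.replicate_succ', List.flatten_append]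
      simp
    rw [h5] at h4
    have h6 : Function.update (Function.update w c n) c 0 = Function.update w c 0 := by simp
    have h7 : t + 1 + n = t + (n + 1) := by ring
    rw [h6, h7] at h4
    exact h4.mono (by ring_nf; omega)

/-- move `tmp` back to the counter -/
@[reducible] def backLoop (c : C3) : Cmd MΓ := .loop .tmp fun _ => .push (.cnt c) ()

theorem backLoop_runs (c : C3) (n : ℕ) (i : List Bool) (o : List Tok) (w : C3 → ℕ) :
    RunsLe (backLoop c) (mk i o n w) (mk i o 0 (Function.update w c (w c + n))) (2 * n + 1) := by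
  induction n generalizing w with
  | zero =>
    rw [Nat.add_zero, Function.update_eq_self]
    exact RunsLe.loopNil rfl
  | succ n ih =>
    have h1 : RunsLe (.push (.cnt c) ()) (mk i o n w)
        (mk i o n (Function.update w c (w c + 1))) 1 :=
      RunsLe.push _ _ _ _ (upd_cnt i o n w c (w c + 1) _ rfl).symm
    have h3 := ih (Function.update w c (w c + 1))
    have h4 := RunsLe.loopCons (k := .tmp) (c := fun _ => .push (.cnt c) ())
      (S := mk i o (n + 1) w) (a := ()) (l := List.replicate n ()) rfl
      (upd_tmp i o (n + 1) w n _ rfl).symm h1 h3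
    have h6 : Function.update (Function.update w c (w c + 1)) c
        (Function.update w c (w c + 1) c + n) = Function.update w c (w c + (n + 1)) := by
      simp only [Function.update_idem, Function.update_self]
      congr 1; ring
    rw [h6] at h4
    exact h4.mono (by omega)

/-- write an item -/
def emitItem : Item → Cmd MΓ
  | (l, none) => emitW l
  | (l, some c) => .seq (repLoop l c) (backLoop c)

theorem emitItem_runs (it : Item) (i : List Bool) (o : List Tok) (w : C3 → ℕ) {M : ℕ}
    (hM : ∀ c, w c ≤ M) :
    RunsLe (emitItem it) (mk i o 0 w) (mk i (itemOut w it ++ o) 0 w)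
      ((it.1.length + 5) * (M + 1)) := by
  rcases it with ⟨l, _ | c⟩
  · refine (emitW_runs l i o 0 w).mono ?_
    simp only
    nlinarith
  · have h1 := repLoop_runs l c (w c) i o 0 w rfl
    have h2 := backLoop_runs c (0 + w c) i ((List.replicate (w c) l).flatten ++ o)
      (Function.update w c 0)
    have h4 : Function.update (Function.update w c 0) c (Function.update w c 0 c + (0 + w c)) = w := by
      simp
    rw [h4] at h2
    refine (h1.seq h2).mono ?_
    have := hM c
    have h5 : l.length * w c ≤ l.length * M := Nat.mul_le_mul_left _ this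
    simp only
    nlinarith

/-- write a list of items -/
def emitItems : List Item → Cmd MΓ
  | [] => .skip
  | it :: l => .seq (emitItems l) (emitItem it)

def itemsCost (l : List Item) : ℕ := (l.map fun it => it.1.length + 5).sum + 1

theorem emitItems_runs (l : List Item) (i : List Bool) (o : List Tok) (w : C3 → ℕ) {M : ℕ}
    (hM : ∀ c, w c ≤ M) :
    RunsLe (emitItems l) (mk i o 0 w) (mk i (itemsOut w l ++ o) 0 w)
      (itemsCost l * (M + 1)) := by
  induction l with
  | nil =>
    refine (RunsLe.skip _).mono ?_
    unfold itemsCost; simp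
  | cons it l ih =>
    have h2 := emitItem_runs it i (itemsOut w l ++ o) w hM
    have h3 := ih.seq h2
    have h4 : itemOut w it ++ (itemsOut w l ++ o) = itemsOut w (it :: l) ++ o := by
      simp [itemsOut]
    rw [h4] at h3
    refine h3.mono ?_
    unfold itemsCost
    simp only [List.map_cons, List.sum_cons]
    nlinarith

/-- clear a counter -/
@[reducible] def clear (c : C3) : Cmd MΓ := .loop (.cnt c) fun _ => .skip

theorem clear_runs (c : C3) (n : ℕ) (i : List Bool) (o : List Tok) (t : ℕ) (w : C3 → ℕ)
    (hw : w c = n) :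
    RunsLe (clear c) (mk i o t w) (mk i o t (Function.update w c 0)) (2 * n + 1) := by
  induction n generalizing w with
  | zero =>
    have h0 : Function.update w c 0 = w := by
      rw [← hw]; exact Function.update_eq_self _ _
    rw [h0]
    exact RunsLe.loopNil (by simp [mk, hw])
  | succ n ih =>
    have hcnt : (mk i o t w) (.cnt c) = () :: List.replicate n () := by
      simp [mk, hw, List.replicate_succ]
    have h3 := ih (Function.update w c n) (by simp)
    have h4 := RunsLe.loopCons (Γ := MΓ) (k := MK.cnt c) (c := fun _ => Cmd.skip)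
      hcnt (upd_cnt i o t w c n _ rfl).symm (RunsLe.skip _) h3
    have h6 : Function.update (Function.update w c n) c 0 = Function.update w c 0 := by simp
    rw [h6] at h4
    exact h4.mono (by omega)

/-- copy counter `n` to the counter `c`, first loop -/
@[reducible] def copyLoop (c : C3) : Cmd MΓ :=
  .loop (.cnt .n) fun _ => .seq (.push .tmp ()) (.push (.cnt c) ())

theorem copyLoop_runs (n a b : ℕ) (i : List Bool) (o : List Tok) (t : ℕ) :
    RunsLe (copyLoop .u) (mk i o t (w3 n a b)) (mk i o (t + n) (w3 0 (a + n) b)) (3 * n + 1) ∧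
    RunsLe (copyLoop .v) (mk i o t (w3 n a b)) (mk i o (t + n) (w3 0 a (b + n))) (3 * n + 1) := by
  induction n generalizing a b t with
  | zero => exact ⟨RunsLe.loopNil rfl, RunsLe.loopNil rfl⟩
  | succ n ih =>
    have hu : ∀ x, Function.update (w3 n a b) .u x = w3 n x b := by
      intro x; funext c; cases c <;> rfl
    have hv : ∀ x, Function.update (w3 n a b) .v x = w3 n a x := by
      intro x; funext c; cases c <;> rfl
    have hn : Function.update (w3 (n + 1) a b) .n n = w3 n a b := by
      funext c; cases c <;> rfl
    have h1 : RunsLe (.push .tmp ()) (mk i o t (w3 n a b)) (mk i o (t + 1) (w3 n a b)) 1 :=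
      RunsLe.push _ _ _ _ (upd_tmp i o t (w3 n a b) (t + 1) _ rfl).symm
    have h7 : t + 1 + n = t + (n + 1) := by ring
    have hcnt : (mk i o t (w3 (n + 1) a b)) (.cnt .n) = () :: List.replicate n () := rfl
    have hup := upd_cnt i o t (w3 (n + 1) a b) .n n _ rfl
    rw [hn] at hup
    constructor
    · have h2 : RunsLe (.push (.cnt .u) ()) (mk i o (t + 1) (w3 n a b))
          (mk i o (t + 1) (w3 n (a + 1) b)) 1 := by
        refine RunsLe.push _ _ _ _ ?_
        rw [← hu]
        exact (upd_cnt i o (t + 1) (w3 n a b) .u (a + 1) _ rfl).symm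
      have h3 := (ih (a + 1) b (t + 1)).1
      have h4 := RunsLe.loopCons (Γ := MΓ) (k := MK.cnt .n)
        (c := fun _ => Cmd.seq (.push .tmp ()) (.push (.cnt .u) ())) hcnt hup.symm (h1.seq h2) h3
      have h8 : a + 1 + n = a + (n + 1) := by ring
      rw [h7, h8] at h4
      exact h4.mono (by omega)
    · have h2 : RunsLe (.push (.cnt .v) ()) (mk i o (t + 1) (w3 n a b))
          (mk i o (t + 1) (w3 n a (b + 1))) 1 := by
        refine RunsLe.push _ _ _ _ ?_
        rw [← hv]
        exact (upd_cnt i o (t + 1) (w3 n a b) .v (b + 1) _ rfl).symm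
      have h3 := (ih a (b + 1) (t + 1)).2
      have h4 := RunsLe.loopCons (Γ := MΓ) (k := MK.cnt .n)
        (c := fun _ => Cmd.seq (.push .tmp ()) (.push (.cnt .v) ())) hcnt hup.symm (h1.seq h2) h3
      have h8 : b + 1 + n = b + (n + 1) := by ring
      rw [h7, h8] at h4
      exact h4.mono (by omega)

def copy (c : C3) : Cmd MΓ := .seq (copyLoop c) (backLoop .n)

theorem upd_n (n a b x : ℕ) : Function.update (w3 n a b) .n x = w3 x a b := by
  funext c; cases c <;> rfl

theorem upd_u (n a b x : ℕ) : Function.update (w3 n a b) .u x = w3 n x b := by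
  funext c; cases c <;> rfl

theorem upd_v (n a b x : ℕ) : Function.update (w3 n a b) .v x = w3 n a x := by
  funext c; cases c <;> rfl

theorem copyU_runs (n b : ℕ) (i : List Bool) (o : List Tok) :
    RunsLe (copy .u) (mk i o 0 (w3 n 0 b)) (mk i o 0 (w3 n n b)) (5 * n + 2) := by
  have h1 := (copyLoop_runs n 0 b i o 0).1
  have h2 := backLoop_runs .n (0 + n) i o (w3 0 (0 + n) b)
  rw [upd_n] at h2
  simp only [Nat.zero_add, w3] at h1 h2
  exact (h1.seq h2).mono (by omega)

theorem copyV_runs (n a : ℕ) (i : List Bool) (o : List Tok) :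
    RunsLe (copy .v) (mk i o 0 (w3 n a 0)) (mk i o 0 (w3 n a n)) (5 * n + 2) := by
  have h1 := (copyLoop_runs n a 0 i o 0).2
  have h2 := backLoop_runs .n (0 + n) i o (w3 0 a (0 + n))
  rw [upd_n] at h2
  simp only [Nat.zero_add, w3] at h1 h2
  exact (h1.seq h2).mono (by omega)

/-- reading a number -/
@[reducible] def readLoop (c : C3) : Cmd MΓ :=
  .loop .tmp fun _ => .case .inp .skip fun b =>
    if b = true then .seq (.push (.cnt c) ()) (.push .tmp ()) else .skip

theorem readLoop_runs (x : C3) (q : ℕ) (rest : List Bool) (o : List Tok) (w : C3 → ℕ) :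
    RunsLe (readLoop x) (mk (unary q ++ rest) o 1 w)
      (mk rest o 0 (Function.update w x (w x + q))) (4 * q + 4) := by
  induction q generalizing w with
  | zero =>
    rw [Nat.add_zero, Function.update_eq_self]
    have h1 : RunsLe (.case .inp .skip fun b =>
        if b = true then Cmd.seq (.push (.cnt x) ()) (.push .tmp ()) else .skip)
        (mk (unary 0 ++ rest) o 0 w) (mk rest o 0 w) 2 :=
      RunsLe.caseCons (a := false) (l := rest) rfl
        (upd_inp (unary 0 ++ rest) o 0 w rest).symm (RunsLe.skip _)
    have h2 := RunsLe.loopCons (k := .tmp) (c := fun _ => .case .inp .skip fun b =>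
        if b = true then Cmd.seq (.push (.cnt x) ()) (.push .tmp ()) else .skip)
      (S := mk (unary 0 ++ rest) o 1 w) (a := ()) (l := []) rfl
      (upd_tmp (unary 0 ++ rest) o 1 w 0 _ rfl).symm h1 (RunsLe.loopNil rfl)
    exact h2.mono (by omega)
  | succ q ih =>
    have hu : unary (q + 1) ++ rest = true :: (unary q ++ rest) := by
      simp [unary, List.replicate_succ]
    have p1 : RunsLe (.push (.cnt x) ()) (mk (unary q ++ rest) o 0 w)
        (mk (unary q ++ rest) o 0 (Function.update w x (w x + 1))) 1 :=
      RunsLe.push _ _ _ _ (upd_cnt _ o 0 w x (w x + 1) _ rfl).symm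
    have p2 : RunsLe (.push .tmp ()) (mk (unary q ++ rest) o 0 (Function.update w x (w x + 1)))
        (mk (unary q ++ rest) o 1 (Function.update w x (w x + 1))) 1 :=
      RunsLe.push _ _ _ _ (upd_tmp _ o 0 _ 1 _ rfl).symm
    have h1 : RunsLe (.case .inp .skip fun b =>
        if b = true then Cmd.seq (.push (.cnt x) ()) (.push .tmp ()) else .skip)
        (mk (unary (q + 1) ++ rest) o 0 w)
        (mk (unary q ++ rest) o 1 (Function.update w x (w x + 1))) (1 + 1 + 1) :=
      RunsLe.caseCons (a := true) (l := unary q ++ rest) hu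
        (upd_inp (unary (q + 1) ++ rest) o 0 w (unary q ++ rest)).symm (p1.seq p2)
    have h3 := ih (Function.update w x (w x + 1))
    have h2 := RunsLe.loopCons (k := .tmp) (c := fun _ => .case .inp .skip fun b =>
        if b = true then Cmd.seq (.push (.cnt x) ()) (.push .tmp ()) else .skip)
      (S := mk (unary (q + 1) ++ rest) o 1 w) (a := ()) (l := []) rfl
      (upd_tmp (unary (q + 1) ++ rest) o 1 w 0 _ rfl).symm h1 h3
    have h6 : Function.update (Function.update w x (w x + 1)) x
        (Function.update w x (w x + 1) x + q) = Function.update w x (w x + (q + 1)) := by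
      simp only [Function.update_idem, Function.update_self]
      congr 1; ring
    rw [h6] at h2
    exact h2.mono (by omega)

def readNum (c : C3) : Cmd MΓ := .seq (.push .tmp ()) (readLoop c)

theorem readNum_runs (x : C3) (q : ℕ) (rest : List Bool) (o : List Tok) (w : C3 → ℕ) :
    RunsLe (readNum x) (mk (unary q ++ rest) o 0 w)
      (mk rest o 0 (Function.update w x (w x + q))) (4 * q + 5) := by
  have p2 : RunsLe (.push .tmp ()) (mk (unary q ++ rest) o 0 w) (mk (unary q ++ rest) o 1 w) 1 :=
    RunsLe.push _ _ _ _ (upd_tmp _ o 0 _ 1 _ rfl).symm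
  exact (p2.seq (readLoop_runs x q rest o w)).mono (by omega)

/-! ### the pair formulas -/

def pairItems : List Item := pairT.items ++ [([.and], none)]
def edgeItems : List Item := edgeT.items ++ [([.and], none)]

theorem pairItems_out (n u v : ℕ) :
    itemsOut (w3 n u v) pairItems = (pairF n u v).enc ++ [.and] := by
  unfold pairItems
  rw [itemsOut_append, TForm.items_enc]
  rfl

theorem edgeItems_out (n u v : ℕ) :
    itemsOut (w3 n u v) edgeItems = (edgeF n u v).enc ++ [.and] := by
  unfold edgeItems
  rw [itemsOut_append, TForm.items_enc]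
  rfl

theorem w3_le {n u v M : ℕ} (hn : n ≤ M) (hu : u ≤ M) (hv : v ≤ M) (c : C3) :
    w3 n u v c ≤ M := by
  cases c <;> assumption

def encC (l : List QFormula) : List Tok := l.flatMap fun φ => φ.enc ++ [.and]

theorem encC_append (a b : List QFormula) : encC (a ++ b) = encC a ++ encC b := by simp [encC]

@[reducible] def innerLoop : Cmd MΓ := .loop (.cnt .v) fun _ => emitItems pairItems

theorem innerLoop_runs (n u : ℕ) (hu : u ≤ n) (k : ℕ) (hk : k ≤ n) (i : List Bool) (o : List Tok) :
    RunsLe innerLoop (mk i o 0 (w3 n u k))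
      (mk i (encC ((List.range k).map fun v => pairF n u v) ++ o) 0 (w3 n u 0))
      ((itemsCost pairItems * (n + 1) + 1) * k + 1) := by
  induction k generalizing o with
  | zero => exact RunsLe.loopNil rfl
  | succ k ih =>
    have h1 := emitItems_runs pairItems i o (w3 n u k) (M := n) (w3_le le_rfl hu (by omega))
    rw [pairItems_out] at h1
    have h2 := ih (by omega) ((pairF n u k).enc ++ [.and] ++ o)
    have hup := upd_cnt i o 0 (w3 n u (k + 1)) .v k _ rfl
    rw [upd_v] at hup
    have h3 := RunsLe.loopCons (Γ := MΓ) (k := MK.cnt .v)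
      (c := fun _ => emitItems pairItems) (S := mk i o 0 (w3 n u (k + 1))) (a := ())
      (l := List.replicate k ()) rfl hup.symm h1 h2
    have h4 : encC ((List.range k).map fun v => pairF n u v) ++ ((pairF n u k).enc ++ [.and] ++ o) =
        encC ((List.range (k + 1)).map fun v => pairF n u v) ++ o := by
      rw [List.range_succ, List.map_append, encC_append]
      simp [encC]
    rw [h4] at h3
    refine h3.mono ?_
    ring_nf
    omega

@[reducible] def outerLoop : Cmd MΓ := .loop (.cnt .u) fun _ => .seq (copy .v) innerLoop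

def pCost (n : ℕ) : ℕ := (5 * n + 2) + ((itemsCost pairItems * (n + 1) + 1) * n + 1) + 1

theorem outerLoop_runs (n : ℕ) (k : ℕ) (hk : k ≤ n) (i : List Bool) (o : List Tok) :
    RunsLe outerLoop (mk i o 0 (w3 n k 0))
      (mk i (encC ((List.range k).flatMap fun u => (List.range n).map fun v => pairF n u v) ++ o) 0
        (w3 n 0 0))
      (pCost n * k + 1) := by
  induction k generalizing o with
  | zero => exact RunsLe.loopNil rfl
  | succ k ih =>
    have h0 := copyV_runs n k i o
    have h1 := innerLoop_runs n k (by omega) n le_rfl i o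
    have h2 := ih (by omega) (encC ((List.range n).map fun v => pairF n k v) ++ o)
    have hup := upd_cnt i o 0 (w3 n (k + 1) 0) .u k _ rfl
    rw [upd_u] at hup
    have h3 := RunsLe.loopCons (Γ := MΓ) (k := MK.cnt .u)
      (c := fun _ => Cmd.seq (copy .v) innerLoop) (S := mk i o 0 (w3 n (k + 1) 0)) (a := ())
      (l := List.replicate k ()) rfl hup.symm (h0.seq h1) h2
    have h4 : encC ((List.range k).flatMap fun u => (List.range n).map fun v => pairF n u v) ++
        (encC ((List.range n).map fun v => pairF n k v) ++ o) =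
        encC ((List.range (k + 1)).flatMap fun u => (List.range n).map fun v => pairF n u v) ++ o := by
      rw [List.range_succ, List.flatMap_append, encC_append]
      simp
    rw [h4] at h3
    refine h3.mono ?_
    have : pCost n * (k + 1) = pCost n * k + pCost n := by ring
    rw [this]
    unfold pCost
    omega

/-! ### the edge formulas -/

/-- process an edge whose first symbol is `b` -/
def procEdge (b : Bool) : Cmd MΓ :=
  .seq (if b = true then .seq (.push (.cnt .u) ()) (readNum .u) else .skip)
    (.seq (readNum .v) (.seq (emitItems edgeItems) (.seq (clear .u) (clear .v))))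

theorem procEdge_runs (n u v M : ℕ) (hn : n ≤ M) (hu : u ≤ M) (hv : v ≤ M) (rest : List Bool)
    (o : List Tok) :
    ∃ (b : Bool) (l : List Bool), unary u ++ (unary v ++ rest) = b :: l ∧
      RunsLe (procEdge b) (mk l o 0 (w3 n 0 0))
        (mk rest ((edgeF n u v).enc ++ [.and] ++ o) 0 (w3 n 0 0))
        ((itemsCost edgeItems + 15) * (M + 1)) := by
  have h2 := readNum_runs .v v rest o (w3 n u 0)
  rw [upd_v] at h2
  have h3 := emitItems_runs edgeItems rest o (w3 n u v) (M := M) (w3_le hn hu hv)
  rw [edgeItems_out] at h3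
  have h4 := clear_runs .u u rest ((edgeF n u v).enc ++ [.and] ++ o) 0 (w3 n u v) rfl
  rw [upd_u] at h4
  have h5 := clear_runs .v v rest ((edgeF n u v).enc ++ [.and] ++ o) 0 (w3 n 0 v) rfl
  rw [upd_v] at h5
  have h2' : RunsLe (readNum .v) (mk (unary v ++ rest) o 0 (w3 n u 0)) (mk rest o 0 (w3 n u v))
      (4 * v + 5) := by
    simpa [w3] using h2
  have h25 := h2'.seq (h3.seq (h4.seq h5))
  cases u with
  | zero =>
    refine ⟨false, unary v ++ rest, rfl, ?_⟩
    unfold procEdge
    have h1 : RunsLe (if (false : Bool) = true then Cmd.seq (.push (.cnt .u) ()) (readNum .u)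
        else .skip) (mk (unary v ++ rest) o 0 (w3 n 0 0)) (mk (unary v ++ rest) o 0 (w3 n 0 0)) 1 :=
      RunsLe.skip _
    refine (h1.seq h25).mono ?_
    nlinarith
  | succ u =>
    refine ⟨true, unary u ++ (unary v ++ rest), by simp [unary, List.replicate_succ], ?_⟩
    unfold procEdge
    have p1 : RunsLe (.push (.cnt .u) ()) (mk (unary u ++ (unary v ++ rest)) o 0 (w3 n 0 0))
        (mk (unary u ++ (unary v ++ rest)) o 0 (w3 n 1 0)) 1 := by
      refine RunsLe.push _ _ _ _ ?_
      have := upd_cnt (unary u ++ (unary v ++ rest)) o 0 (w3 n 0 0) .u 1 _ rfl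
      rw [upd_u] at this
      exact this.symm
    have p2 := readNum_runs .u u (unary v ++ rest) o (w3 n 1 0)
    rw [upd_u] at p2
    have e : w3 n 1 0 .u + u = u + 1 := by simp [w3, Nat.add_comm]
    rw [e] at p2
    have h1 : RunsLe (if (true : Bool) = true then Cmd.seq (.push (.cnt .u) ()) (readNum .u)
        else .skip) (mk (unary u ++ (unary v ++ rest)) o 0 (w3 n 0 0))
        (mk (unary v ++ rest) o 0 (w3 n (u + 1) 0)) (1 + (4 * u + 5)) := p1.seq p2
    refine (h1.seq h25).mono ?_
    nlinarith

theorem edgeLoop_runs (n M : ℕ) (hn : n ≤ M) (E : List (Fin n × Fin n)) (o : List Tok) :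
    RunsLe (.loop .inp procEdge)
      (mk (E.flatMap fun e => unary e.1 ++ unary e.2) o 0 (w3 n 0 0))
      (mk [] (encC (E.map fun e => edgeF n e.1 e.2).reverse ++ o) 0 (w3 n 0 0))
      (((itemsCost edgeItems + 15) * (M + 1) + 1) * E.length + 1) := by
  induction E generalizing o with
  | nil => exact RunsLe.loopNil rfl
  | cons e E ih =>
    obtain ⟨b, l, hbl, hr⟩ := procEdge_runs n e.1 e.2 M hn (by omega) (by omega)
      (E.flatMap fun e => unary e.1 ++ unary e.2) o
    have h2 := ih ((edgeF n e.1 e.2).enc ++ [.and] ++ o)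
    have hin : (mk ((e :: E).flatMap fun e => unary e.1 ++ unary e.2) o 0 (w3 n 0 0)) .inp =
        b :: l := by
      rw [← hbl]
      simp [mk]
    have h3 := RunsLe.loopCons (Γ := MΓ) (k := MK.inp) (c := procEdge) hin
      (upd_inp _ o 0 (w3 n 0 0) l).symm hr h2
    have h4 : encC (E.map fun e => edgeF n e.1 e.2).reverse ++
        ((edgeF n e.1 e.2).enc ++ [.and] ++ o) =
        encC ((e :: E).map fun e => edgeF n e.1 e.2).reverse ++ o := by
      rw [List.map_cons, List.reverse_cons, encC_append]
      simp [encC]
    rw [h4] at h3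
    refine h3.mono ?_
    simp only [List.length_cons]
    ring_nf
    omega

/-! ### the whole program -/

def memProg : Cmd MΓ :=
  .seq (readNum .n) (.seq (copy .u) (.seq outerLoop (.seq (.loop .inp procEdge)
    (.seq (clear .n) (emitW trueF.enc)))))

theorem single_inp (i : List Bool) : Cmd.single (Γ := MΓ) .inp i = mk i [] 0 (w3 0 0 0) := by
  unfold Cmd.single
  funext k
  rcases k with _ | _ | _ | s
  · rfl
  · rfl
  · rfl
  · cases s <;> rfl

theorem single_out (o : List Tok) : Cmd.single (Γ := MΓ) .out o = mk [] o 0 (w3 0 0 0) := by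
  unfold Cmd.single
  funext k
  rcases k with _ | _ | _ | s
  · rfl
  · rfl
  · rfl
  · cases s <;> rfl

def memA : ℕ := itemsCost pairItems + itemsCost edgeItems + 100

theorem memProg_runs (L : EdgeList) :
    RunsLe memProg (Cmd.single .inp L.enc) (Cmd.single .out (sentence L).enc)
      (memA * (L.enc.length + 1) ^ 3) := by
  rw [single_inp, single_out]
  obtain ⟨n, E⟩ := L
  have hnN : n ≤ (EdgeList.enc ⟨n, E⟩).length := by
    simp only [EdgeList.enc, unary, List.length_append, List.length_replicate, List.length_cons,
      List.length_nil]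
    omega
  have hEN : E.length ≤ (EdgeList.enc ⟨n, E⟩).length := by
    have : E.length ≤ (E.flatMap fun e => unary e.1 ++ unary e.2).length := by
      clear hnN
      induction E with
      | nil => simp
      | cons e E ih =>
        rw [List.flatMap_cons, List.length_append, List.length_cons]
        have : 1 ≤ (unary e.1 ++ unary e.2).length := by simp [unary]; omega
        omega
    refine this.trans ?_
    simp only [EdgeList.enc, List.length_append]
    omega
  have h1 := readNum_runs .n n (E.flatMap fun e => unary e.1 ++ unary e.2) [] (w3 0 0 0)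
  rw [upd_n] at h1
  have e1 : w3 0 0 0 .n + n = n := by simp [w3]
  rw [e1] at h1
  have h2 := copyU_runs n 0 (E.flatMap fun e => unary e.1 ++ unary e.2) []
  have h3 := outerLoop_runs n n le_rfl (E.flatMap fun e => unary e.1 ++ unary e.2) []
  have h4 := edgeLoop_runs n (EdgeList.enc ⟨n, E⟩).length hnN E (encC (pairsL n) ++ [])
  have h5 := clear_runs .n n [] (encC (E.map fun e => edgeF n e.1 e.2).reverse ++
    (encC (pairsL n) ++ [])) 0 (w3 n 0 0) rfl
  rw [upd_n] at h5
  have h6 := emitW_runs trueF.enc [] (encC (E.map fun e => edgeF n e.1 e.2).reverse ++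
    (encC (pairsL n) ++ [])) 0 (w3 0 0 0)
  have h7 := h1.seq (h2.seq (h3.seq (h4.seq (h5.seq h6))))
  have e2 : trueF.enc ++ (encC (E.map fun e => edgeF n e.1 e.2).reverse ++
    (encC (pairsL n) ++ [])) = (sentence ⟨n, E⟩).enc := by
    unfold sentence
    rw [conjL_enc]
    simp [encC]
  rw [e2] at h7
  refine h7.mono ?_
  have e3 : trueF.enc.length = 3 := by
    simp [trueF, QFormula.enc, PTerm.enc, encNat_zero']
  rw [e3]
  unfold memA pCost
  generalize (EdgeList.enc ⟨n, E⟩).length = N at hnN hEN ⊢
  generalize itemsCost pairItems = a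
  generalize itemsCost edgeItems = b
  generalize E.length = m at hEN ⊢
  have i1 : ((b + 15) * (N + 1) + 1) * m ≤ ((b + 15) * (N + 1) + 1) * N :=
    Nat.mul_le_mul_left _ hEN
  have i2 : ((5 * n + 2) + ((a * (n + 1) + 1) * n + 1) + 1) * n ≤
      ((5 * N + 2) + ((a * (N + 1) + 1) * N + 1) + 1) * N := by gcongr
  nlinarith [Nat.zero_le (a * N), Nat.zero_le (a * (N * N)), Nat.zero_le (a * (N * (N * N))),
    Nat.zero_le (b * N), Nat.zero_le (b * (N * N)), Nat.zero_le (b * (N * (N * N))),
    Nat.zero_le N, Nat.zero_le (N * N), Nat.zero_le (N * (N * N)), Nat.zero_le a, Nat.zero_le b]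

/-- the sentence of a graph is computable in polynomial time -/
noncomputable def memComputable :
    Turing.TM2ComputableInPolyTime EdgeList.enc QFormula.enc sentence :=
  Cmd.computable EdgeList.enc QFormula.enc sentence (Γ := MΓ) MK.inp MK.out
    (Equiv.refl Bool) (Equiv.refl Tok) memProg
    (Polynomial.C memA * (Polynomial.X + 1) ^ 3) (by
      intro L
      obtain ⟨n, hn, hr⟩ := memProg_runs L
      refine ⟨n, ?_, ?_⟩
      · simpa using hn
      · simpa using hr)

end Mem

/-- **ORTH3 is in the class of the existential theory of the reals.** -/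
theorem orth3_inExistsR : InExistsR ORTH3 :=
  ⟨sentence, ⟨Mem.memComputable⟩, fun L => sentence_iff L⟩

end Pool.Agent.Helper89
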