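import Mathlib

/-!
# Orthogonality gadgets in three-space

Core geometric layer for the hardness of ORTH3: systems of additive and multiplicative
equations between pairwise distinct reals that are all larger than one are translated into
orthogonality graphs.
-/

namespace Pool.Agent.Helper89

/-- The three kinds of equation vertices. -/
inductive Eqn (α : Type) : Type
  | pt (i j : α) : Eqn α
  | add (i j k : α) : Eqn α
  | mul (i j k : α) : Eqn α

namespace Eqn

variable {α β : Type}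

def map (f : α → β) : Eqn α → Eqn β
  | pt i j => pt (f i) (f j)
  | add i j k => add (f i) (f j) (f k)
  | mul i j k => mul (f i) (f j) (f k)

def Holds (val : α → ℝ) : Eqn α → Prop
  | pt _ _ => True
  | add i j k => val i + val j = val k
  | mul i j k => val i * val j = val k

def vIdx : Eqn α → α
  | pt i _ => i
  | add i _ _ => i
  | mul i _ _ => i

def hIdx : Eqn α → α
  | pt _ j => j
  | add _ j _ => j
  | mul _ _ k => k

/-- all indices satisfy `P` -/
def All (P : α → Prop) : Eqn α → Prop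
  | pt i j => P i ∧ P j
  | add i j k => P i ∧ P j ∧ P k
  | mul i j k => P i ∧ P j ∧ P k

end Eqn

/-- The edges contributed by one slot: thirteen edges for the seven vertices that represent the
number in the slot, and the edges at the equation vertex. -/
def slotEdges {α β : Type} (vid : α → ℕ → β) (fr : ℕ → β) (g : α) (e : Eqn α) : List (β × β) :=
  [(vid g 0, fr 1), (vid g 1, fr 1), (vid g 1, vid g 0), (vid g 2, fr 3), (vid g 2, vid g 1),
   (vid g 3, fr 0), (vid g 3, vid g 2), (vid g 4, fr 0), (vid g 4, vid g 3), (vid g 5, fr 4),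
   (vid g 5, vid g 4), (vid g 6, fr 2), (vid g 6, vid g 5)] ++
  match e with
  | .pt i j => [(vid g 7, vid i 0), (vid g 7, vid j 4)]
  | .add i j k => [(vid g 7, vid i 0), (vid g 7, vid j 4), (vid g 7, vid k 2)]
  | .mul i j k => [(vid g 7, vid i 0), (vid g 7, vid k 4), (vid g 7, vid j 6)]

theorem slotEdges_map {α β α' β' : Type} (vid : α → ℕ → β) (fr : ℕ → β)
    (vid' : α' → ℕ → β') (fr' : ℕ → β') (G : α → α') (F : β → β')
    (h1 : ∀ a r, F (vid a r) = vid' (G a) r) (h2 : ∀ k, F (fr k) = fr' k) (g : α) (e : Eqn α) :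
    (slotEdges vid fr g e).map (Prod.map F F) = slotEdges vid' fr' (G g) (e.map G) := by
  cases e <;> simp [slotEdges, Eqn.map, h1, h2]

/-- vertex number of role `r` of slot `g` -/
def vid (g r : ℕ) : ℕ := 5 + 8 * g + r

/-- the five edges between frame vertices -/
def frameEdges : List (ℕ × ℕ) := [(0, 1), (0, 2), (1, 2), (3, 2), (4, 1)]

/-- The edge relation of the graph of a system with `m` slots. -/
def SysEdge (m : ℕ) (sys : ℕ → Eqn ℕ) (e : ℕ × ℕ) : Prop :=
  e ∈ frameEdges ∨ ∃ g < m, e ∈ slotEdges vid id g (sys g)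

/-- Numerical orthogonal representation (coordinates) of a set of edges on vertices `< n`. -/
structure NumRep (n : ℕ) (E : ℕ × ℕ → Prop) (x y z : ℕ → ℝ) : Prop where
  ne_zero : ∀ i < n, ¬ (x i = 0 ∧ y i = 0 ∧ z i = 0)
  ncol : ∀ i < n, ∀ j < n, i ≠ j → ∀ c : ℝ, ¬ (x i = c * x j ∧ y i = c * y j ∧ z i = c * z j)
  orth : ∀ e, E e → x e.1 * x e.2 + y e.1 * y e.2 + z e.1 * z e.2 = 0

noncomputable section Completeness

/-- coordinates of the vertices -/
def crd (val : ℕ → ℝ) (sys : ℕ → Eqn ℕ) : ℕ → ℕ → ℝ × ℝ × ℝ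
  | g, 0 => (-(val g)⁻¹, 0, 1)
  | g, 1 => (val g, 0, 1)
  | g, 2 => (-(val g)⁻¹, -(val g)⁻¹, 1)
  | g, 3 => (0, val g, 1)
  | g, 4 => (0, -(val g)⁻¹, 1)
  | g, 5 => (1, val g, 1)
  | g, 6 => (-(val g), 1, 0)
  | g, _ => (val (sys g).vIdx, val (sys g).hIdx, 1)

/-- coordinates of the frame vertices -/
def crdF : ℕ → ℝ × ℝ × ℝ
  | 0 => (1, 0, 0)
  | 1 => (0, 1, 0)
  | 2 => (0, 0, 1)
  | 3 => (-1, 1, 0)
  | _ => (-1, 0, 1)

def vec (val : ℕ → ℝ) (sys : ℕ → Eqn ℕ) (i : ℕ) : ℝ × ℝ × ℝ :=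
  if i < 5 then crdF i else crd val sys ((i - 5) / 8) ((i - 5) % 8)

theorem vec_frame (val : ℕ → ℝ) (sys : ℕ → Eqn ℕ) {i : ℕ} (h : i < 5) :
    vec val sys i = crdF i := by simp [vec, h]

theorem vec_vid (val : ℕ → ℝ) (sys : ℕ → Eqn ℕ) (g r : ℕ) (hr : r < 8) :
    vec val sys (vid g r) = crd val sys g r := by
  have h1 : ¬ (vid g r < 5) := by unfold vid; omega
  have h2 : (vid g r - 5) / 8 = g := by unfold vid; omega
  have h3 : (vid g r - 5) % 8 = r := by unfold vid; omega
  simp only [vec, h1, if_false, h2, h3]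

/-- normalised vectors: the last nonzero coordinate is one -/
def Nrm (v : ℝ × ℝ × ℝ) : Prop :=
  v.2.2 = 1 ∨ (v.2.2 = 0 ∧ v.2.1 = 1) ∨ (v.2.2 = 0 ∧ v.2.1 = 0 ∧ v.1 = 1)

theorem Nrm.eq_of_smul {u v : ℝ × ℝ × ℝ} (hu : Nrm u) (hv : Nrm v) {c : ℝ}
    (h1 : u.1 = c * v.1) (h2 : u.2.1 = c * v.2.1) (h3 : u.2.2 = c * v.2.2) : u = v := by
  obtain ⟨a, b, d⟩ := u
  obtain ⟨a', b', d'⟩ := v
  simp only [Nrm] at hu hv
  simp only at h1 h2 h3
  have hc : c = 1 := by
    rcases hu with hu | ⟨hu, hu'⟩ | ⟨hu, hu', hu''⟩ <;>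
    rcases hv with hv | ⟨hv, hv'⟩ | ⟨hv, hv', hv''⟩ <;> subst_vars <;> simp_all
  subst hc
  simp_all

theorem Nrm.ne_zero {u : ℝ × ℝ × ℝ} (hu : Nrm u) : ¬ (u.1 = 0 ∧ u.2.1 = 0 ∧ u.2.2 = 0) := by
  rintro ⟨h1, h2, h3⟩
  rcases hu with hu | ⟨hu, hu'⟩ | ⟨hu, hu', hu''⟩ <;> simp_all

theorem nrm_vec (val : ℕ → ℝ) (sys : ℕ → Eqn ℕ) (i : ℕ) : Nrm (vec val sys i) := by
  unfold vec
  split_ifs with h
  · interval_cases i <;> simp [crdF, Nrm]
  · have h8 : (i - 5) % 8 < 8 := Nat.mod_lt _ (by norm_num)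
    generalize (i - 5) % 8 = r at h8
    interval_cases r <;> simp [crd, Nrm]


/-- What is needed of a system and a valuation to build a representation. -/
structure Strict (m : ℕ) (sys : ℕ → Eqn ℕ) (val : ℕ → ℝ) : Prop where
  inj : ∀ i < m, ∀ j < m, val i = val j → i = j
  gt : ∀ i < m, 1 < val i
  idx : ∀ g < m, (sys g).All (· < m)
  pair : ∀ g < m, ∀ g' < m, (sys g).vIdx = (sys g').vIdx → (sys g).hIdx = (sys g').hIdx → g = g'
  holds : ∀ g < m, (sys g).Holds val

theorem Eqn.All.vIdx {α : Type} {P : α → Prop} {e : Eqn α} (h : e.All P) : P e.vIdx := by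
  cases e <;> simp_all [Eqn.All, Eqn.vIdx]

theorem Eqn.All.hIdx {α : Type} {P : α → Prop} {e : Eqn α} (h : e.All P) : P e.hIdx := by
  cases e <;> simp_all [Eqn.All, Eqn.hIdx]

theorem crd_inj {m : ℕ} {sys : ℕ → Eqn ℕ} {val : ℕ → ℝ} (H : Strict m sys val)
    {g r g' r' : ℕ} (hg : g < m) (hg' : g' < m) (hr : r < 8) (hr' : r' < 8)
    (h : crd val sys g r = crd val sys g' r') : g = g' ∧ r = r' := by
  have ha := H.gt g hg
  have hb := H.gt g' hg'
  have hai : 0 < (val g)⁻¹ := inv_pos.2 (by linarith)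
  have hbi : 0 < (val g')⁻¹ := inv_pos.2 (by linarith)
  have hp := H.gt _ (H.idx g hg).vIdx
  have hq := H.gt _ (H.idx g hg).hIdx
  have hp' := H.gt _ (H.idx g' hg').vIdx
  have hq' := H.gt _ (H.idx g' hg').hIdx
  interval_cases r <;> interval_cases r' <;>
    first
    | (exfalso; simp only [crd, Prod.mk.injEq] at h; obtain ⟨h1, h2, h3⟩ := h; linarith)
    | (refine ⟨?_, rfl⟩
       simp only [crd, Prod.mk.injEq, neg_inj, inv_inj] at h
       obtain ⟨h1, h2, h3⟩ := h
       first
       | exact H.inj _ hg _ hg' h1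
       | exact H.inj _ hg _ hg' h2
       | exact H.pair _ hg _ hg' (H.inj _ (H.idx g hg).vIdx _ (H.idx g' hg').vIdx h1)
          (H.inj _ (H.idx g hg).hIdx _ (H.idx g' hg').hIdx h2))

theorem crdF_ne_crd {m : ℕ} {sys : ℕ → Eqn ℕ} {val : ℕ → ℝ} (H : Strict m sys val)
    {k g r : ℕ} (hk : k < 5) (hg : g < m) (hr : r < 8) : crdF k ≠ crd val sys g r := by
  intro h
  have ha := H.gt g hg
  have hai : 0 < (val g)⁻¹ := inv_pos.2 (by linarith)
  have hai1 : (val g)⁻¹ < 1 := inv_lt_one_of_one_lt₀ ha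
  have hp := H.gt _ (H.idx g hg).vIdx
  have hq := H.gt _ (H.idx g hg).hIdx
  interval_cases k <;> interval_cases r <;>
    (simp only [crd, crdF, Prod.mk.injEq] at h; obtain ⟨h1, h2, h3⟩ := h; linarith)

theorem crdF_inj {k k' : ℕ} (hk : k < 5) (hk' : k' < 5) (h : crdF k = crdF k') : k = k' := by
  interval_cases k <;> interval_cases k' <;>
    first
    | rfl
    | (exfalso; simp only [crdF, Prod.mk.injEq] at h; obtain ⟨h1, h2, h3⟩ := h; linarith)

theorem exists_vid {m i : ℕ} (hi : i < 5 + 8 * m) : i < 5 ∨ ∃ g < m, ∃ r < 8, i = vid g r := by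
  by_cases h : i < 5
  · exact Or.inl h
  · exact Or.inr ⟨(i - 5) / 8, by omega, (i - 5) % 8, by omega, by unfold vid; omega⟩

theorem vec_inj {m : ℕ} {sys : ℕ → Eqn ℕ} {val : ℕ → ℝ} (H : Strict m sys val)
    {i j : ℕ} (hi : i < 5 + 8 * m) (hj : j < 5 + 8 * m) (h : vec val sys i = vec val sys j) :
    i = j := by
  rcases exists_vid hi with hi' | ⟨g, hg, r, hr, rfl⟩ <;>
  rcases exists_vid hj with hj' | ⟨g', hg', r', hr', rfl⟩
  · rw [vec_frame _ _ hi', vec_frame _ _ hj'] at h
    exact crdF_inj hi' hj' h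
  · rw [vec_frame _ _ hi', vec_vid _ _ _ _ hr'] at h
    exact absurd h (crdF_ne_crd H hi' hg' hr')
  · rw [vec_frame _ _ hj', vec_vid _ _ _ _ hr] at h
    exact absurd h.symm (crdF_ne_crd H hj' hg hr)
  · rw [vec_vid _ _ _ _ hr, vec_vid _ _ _ _ hr'] at h
    obtain ⟨rfl, rfl⟩ := crd_inj H hg hg' hr hr' h
    rfl

/-- inner product of triples -/
def dot (u v : ℝ × ℝ × ℝ) : ℝ := u.1 * v.1 + u.2.1 * v.2.1 + u.2.2 * v.2.2

theorem vec_orth {m : ℕ} {sys : ℕ → Eqn ℕ} {val : ℕ → ℝ} (H : Strict m sys val)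
    (e : ℕ × ℕ) (he : SysEdge m sys e) : dot (vec val sys e.1) (vec val sys e.2) = 0 := by
  rcases he with he | ⟨g, hg, he⟩
  · simp only [frameEdges, List.mem_cons, List.not_mem_nil, or_false] at he
    rcases he with rfl | rfl | rfl | rfl | rfl <;> simp [vec, crdF, dot]
  · have ha : val g ≠ 0 := by have := H.gt g hg; linarith
    have hidx := H.idx g hg
    have hh := H.holds g hg
    have hpos : ∀ i < m, val i ≠ 0 := fun i hi => by have := H.gt i hi; linarith
    unfold slotEdges at he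
    rw [List.mem_append] at he
    rcases he with he | he
    · simp only [List.mem_cons, List.not_mem_nil, or_false] at he
      rcases he with rfl | rfl | rfl | rfl | rfl | rfl | rfl | rfl | rfl | rfl | rfl | rfl | rfl <;>
        simp [vec_vid, vec_frame, crd, crdF, dot, ha]
    · revert he hidx hh
      cases hs : sys g with
      | pt i j =>
        intro he hh hidx
        simp only [Eqn.All] at he
        have hi := hpos i he.1
        have hj := hpos j he.2
        simp only [List.mem_cons, List.not_mem_nil, or_false] at hidx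
        rcases hidx with rfl | rfl <;>
          simp [vec_vid, crd, dot, hs, Eqn.vIdx, Eqn.hIdx, hi, hj]
      | add i j k =>
        intro he hh hidx
        simp only [Eqn.All] at he
        have hi := hpos i he.1
        have hj := hpos j he.2.1
        have hk := hpos k he.2.2
        simp only [Eqn.Holds] at hh
        simp only [List.mem_cons, List.not_mem_nil, or_false] at hidx
        rcases hidx with rfl | rfl | rfl
        · simp [vec_vid, crd, dot, hs, Eqn.vIdx, Eqn.hIdx, hi, hj]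
        · simp [vec_vid, crd, dot, hs, Eqn.vIdx, Eqn.hIdx, hi, hj]
        · simp only [vec_vid, crd, dot, hs, Eqn.vIdx, Eqn.hIdx, Nat.reduceLT]
          field_simp
          linarith
      | mul i j k =>
        intro he hh hidx
        simp only [Eqn.All] at he
        have hi := hpos i he.1
        have hj := hpos j he.2.1
        have hk := hpos k he.2.2
        simp only [Eqn.Holds] at hh
        simp only [List.mem_cons, List.not_mem_nil, or_false] at hidx
        rcases hidx with rfl | rfl | rfl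
        · simp [vec_vid, crd, dot, hs, Eqn.vIdx, Eqn.hIdx, hi, hk]
        · simp [vec_vid, crd, dot, hs, Eqn.vIdx, Eqn.hIdx, hi, hk]
        · simp only [vec_vid, crd, dot, hs, Eqn.vIdx, Eqn.hIdx, Nat.reduceLT]
          linarith

/-- **Completeness.** A strict solution of the system gives a representation. -/
theorem numRep_of_strict {m : ℕ} {sys : ℕ → Eqn ℕ} {val : ℕ → ℝ} (H : Strict m sys val) :
    ∃ x y z : ℕ → ℝ, NumRep (5 + 8 * m) (SysEdge m sys) x y z := by
  refine ⟨fun i => (vec val sys i).1, fun i => (vec val sys i).2.1,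
    fun i => (vec val sys i).2.2, ?_, ?_, ?_⟩
  · intro i _
    exact (nrm_vec val sys i).ne_zero
  · rintro i hi j hj hij c ⟨h1, h2, h3⟩
    exact hij (vec_inj H hi hj ((nrm_vec val sys i).eq_of_smul (nrm_vec val sys j) h1 h2 h3))
  · intro e he
    exact vec_orth H e he

end Completeness

end Pool.Agent.Helper89
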