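import Pool.Agent.Helper89.OrthCore

namespace Pool.Agent.Helper89

section Soundness

/-- A representation whose coordinates are aligned with the first three frame vertices. -/
structure Aligned (x y z : ℕ → ℝ) : Prop where
  y0 : y 0 = 0
  z0 : z 0 = 0
  x1 : x 1 = 0
  z1 : z 1 = 0
  x2 : x 2 = 0
  y2 : y 2 = 0

variable {m : ℕ} {sys : ℕ → Eqn ℕ} {x y z : ℕ → ℝ}

theorem vid_lt {m g r : ℕ} (hg : g < m) (hr : r < 8) : vid g r < 5 + 8 * m := by
  unfold vid; omega

theorem NumRep.col_x {n : ℕ} {E : ℕ × ℕ → Prop} (H : NumRep n E x y z) {i j : ℕ} (hi : i < n)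
    (hj : j < n) (hij : i ≠ j) (h1 : y i = 0) (h2 : z i = 0) (h3 : y j = 0) (h4 : z j = 0) :
    False := by
  have hj0 : x j ≠ 0 := fun h => H.ne_zero j hj ⟨h, h3, h4⟩
  refine H.ncol i hi j hj hij (x i / x j) ⟨?_, ?_, ?_⟩
  · field_simp
  · rw [h1, h3]; ring
  · rw [h2, h4]; ring

theorem NumRep.col_y {n : ℕ} {E : ℕ × ℕ → Prop} (H : NumRep n E x y z) {i j : ℕ} (hi : i < n)
    (hj : j < n) (hij : i ≠ j) (h1 : x i = 0) (h2 : z i = 0) (h3 : x j = 0) (h4 : z j = 0) :
    False := by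
  have hj0 : y j ≠ 0 := fun h => H.ne_zero j hj ⟨h3, h, h4⟩
  refine H.ncol i hi j hj hij (y i / y j) ⟨?_, ?_, ?_⟩
  · rw [h1, h3]; ring
  · field_simp
  · rw [h2, h4]; ring

theorem NumRep.col_z {n : ℕ} {E : ℕ × ℕ → Prop} (H : NumRep n E x y z) {i j : ℕ} (hi : i < n)
    (hj : j < n) (hij : i ≠ j) (h1 : x i = 0) (h2 : y i = 0) (h3 : x j = 0) (h4 : y j = 0) :
    False := by
  have hj0 : z j ≠ 0 := fun h => H.ne_zero j hj ⟨h3, h4, h⟩
  refine H.ncol i hi j hj hij (z i / z j) ⟨?_, ?_, ?_⟩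
  · rw [h1, h3]; ring
  · rw [h2, h4]; ring
  · field_simp

/-- what a slot knows about its number -/
structure SlotFacts (κ μ t : ℝ) (xV yV zV xD yD zD xH yH zH xS yS zS : ℝ) : Prop where
  fV : ∀ a b c : ℝ, a * xV + b * yV + c * zV = 0 → a + c * t = 0
  fH : ∀ a b c : ℝ, a * xH + b * yH + c * zH = 0 → b = c * t * κ
  fD : ∀ a b c : ℝ, a * xD + b * yD + c * zD = 0 → a * κ - b + c * t * κ = 0
  fS : ∀ a b c : ℝ, a * xS + b * yS + c * zS = 0 → a * κ * (t / μ) + b = 0

theorem slot_facts (H : NumRep (5 + 8 * m) (SysEdge m sys) x y z) (A : Aligned x y z) :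
    ∃ κ μ : ℝ, κ ≠ 0 ∧ μ ≠ 0 ∧ ∀ g < m, ∃ t : ℝ, t ≠ 0 ∧
      SlotFacts κ μ t (x (vid g 0)) (y (vid g 0)) (z (vid g 0))
        (x (vid g 2)) (y (vid g 2)) (z (vid g 2))
        (x (vid g 4)) (y (vid g 4)) (z (vid g 4))
        (x (vid g 6)) (y (vid g 6)) (z (vid g 6)) := by
  obtain ⟨ay0, az0, ax1, az1, ax2, ay2⟩ := A
  have hx0 : x 0 ≠ 0 := fun h => H.ne_zero 0 (by omega) ⟨h, ay0, az0⟩
  have hy1 : y 1 ≠ 0 := fun h => H.ne_zero 1 (by omega) ⟨ax1, h, az1⟩
  have hz2 : z 2 ≠ 0 := fun h => H.ne_zero 2 (by omega) ⟨ax2, ay2, h⟩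
  -- frame vertex 3
  have e32 := H.orth (3, 2) (Or.inl (by simp [frameEdges]))
  have e41 := H.orth (4, 1) (Or.inl (by simp [frameEdges]))
  simp only [ax2, ay2, mul_zero, zero_add] at e32
  simp only [ax1, az1, mul_zero, zero_add, add_zero] at e41
  have z3 : z 3 = 0 := (mul_eq_zero.1 e32).resolve_right hz2
  have y4 : y 4 = 0 := (mul_eq_zero.1 e41).resolve_right hy1
  have x3 : x 3 ≠ 0 := fun h =>
    H.col_y (i := 3) (j := 1) (by omega) (by omega) (by omega) h z3 ax1 az1
  have y3 : y 3 ≠ 0 := fun h =>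
    H.col_x (i := 3) (j := 0) (by omega) (by omega) (by omega) h z3 ay0 az0
  have x4 : x 4 ≠ 0 := fun h =>
    H.col_z (i := 4) (j := 2) (by omega) (by omega) (by omega) h y4 ax2 ay2
  have z4 : z 4 ≠ 0 := fun h =>
    H.col_x (i := 4) (j := 0) (by omega) (by omega) (by omega) y4 h ay0 az0
  refine ⟨y 3 / x 3, z 4 / x 4, div_ne_zero y3 x3, div_ne_zero z4 x4, fun g hg => ?_⟩
  have hE : ∀ e, e ∈ slotEdges vid id g (sys g) →
      x e.1 * x e.2 + y e.1 * y e.2 + z e.1 * z e.2 = 0 := fun e he => H.orth e (Or.inr ⟨g, hg, he⟩)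
  have E1 := hE (vid g 0, 1) (by simp [slotEdges])
  have E2 := hE (vid g 1, 1) (by simp [slotEdges])
  have E3 := hE (vid g 1, vid g 0) (by simp [slotEdges])
  have E4 := hE (vid g 2, 3) (by simp [slotEdges])
  have E5 := hE (vid g 2, vid g 1) (by simp [slotEdges])
  have E6 := hE (vid g 3, 0) (by simp [slotEdges])
  have E7 := hE (vid g 3, vid g 2) (by simp [slotEdges])
  have E8 := hE (vid g 4, 0) (by simp [slotEdges])
  have E9 := hE (vid g 4, vid g 3) (by simp [slotEdges])
  have E10 := hE (vid g 5, 4) (by simp [slotEdges])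
  have E11 := hE (vid g 5, vid g 4) (by simp [slotEdges])
  have E12 := hE (vid g 6, 2) (by simp [slotEdges])
  have E13 := hE (vid g 6, vid g 5) (by simp [slotEdges])
  have N : ∀ r < 8, ¬ (x (vid g r) = 0 ∧ y (vid g r) = 0 ∧ z (vid g r) = 0) :=
    fun r hr => H.ne_zero _ (vid_lt hg hr)
  have hne : ∀ r k, k < 5 → vid g r ≠ k := by intro r k hk; unfold vid; omega
  have NV1 : z (vid g 0) ≠ 0 → x (vid g 0) ≠ 0 ∨ y (vid g 0) ≠ 0 := by
    intro _
    by_contra hcon
    push Not at hcon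
    exact H.col_z (i := vid g 0) (j := 2) (vid_lt hg (by norm_num)) (by omega)
      (hne 0 2 (by norm_num)) hcon.1 hcon.2 ax2 ay2
  have NV2 : z (vid g 0) = 0 → y (vid g 0) = 0 → False := by
    intro h1 h2
    exact H.col_x (i := vid g 0) (j := 0) (vid_lt hg (by norm_num)) (by omega)
      (hne 0 0 (by norm_num)) h2 h1 ay0 az0
  have N1 := N 1 (by norm_num)
  have N2 := N 2 (by norm_num)
  have N3 := N 3 (by norm_num)
  have N4 := N 4 (by norm_num)
  have N5 := N 5 (by norm_num)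
  have N6 := N 6 (by norm_num)
  clear hE N hne
  simp only [ax1, az1, ax2, ay2, ay0, az0, mul_zero, zero_add, add_zero] at E1 E2 E6 E8 E12
  generalize x (vid g 0) = v1 at *
  generalize y (vid g 0) = v2 at *
  generalize z (vid g 0) = v3 at *
  generalize x (vid g 1) = p1 at *
  generalize y (vid g 1) = p2 at *
  generalize z (vid g 1) = p3 at *
  generalize x (vid g 2) = d1 at *
  generalize y (vid g 2) = d2 at *
  generalize z (vid g 2) = d3 at *
  generalize x (vid g 3) = q1 at *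
  generalize y (vid g 3) = q2 at *
  generalize z (vid g 3) = q3 at *
  generalize x (vid g 4) = h1 at *
  generalize y (vid g 4) = h2 at *
  generalize z (vid g 4) = h3 at *
  generalize x (vid g 5) = r1 at *
  generalize y (vid g 5) = r2 at *
  generalize z (vid g 5) = r3 at *
  generalize x (vid g 6) = s1 at *
  generalize y (vid g 6) = s2 at *
  generalize z (vid g 6) = s3 at *
  generalize x 3 = f1 at *
  generalize y 3 = f2 at *
  generalize z 3 = f3 at *
  generalize x 4 = g1 at *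
  generalize y 4 = g2 at *
  generalize z 4 = g3 at *
  -- now pure algebra
  have hv2 : v2 = 0 := (mul_eq_zero.1 E1).resolve_right hy1
  subst hv2
  have hv3 : v3 ≠ 0 := fun h => NV2 h rfl
  have hv1 : v1 ≠ 0 := (NV1 hv3).resolve_right (by simp)
  have hp2 : p2 = 0 := (mul_eq_zero.1 E2).resolve_right hy1
  subst hp2
  have hq1 : q1 = 0 := (mul_eq_zero.1 E6).resolve_right hx0
  subst hq1
  have hh1 : h1 = 0 := (mul_eq_zero.1 E8).resolve_right hx0
  subst hh1
  have hs3 : s3 = 0 := (mul_eq_zero.1 E12).resolve_right hz2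
  subst hs3
  subst z3
  subst y4
  simp only [mul_zero, zero_mul, zero_add, add_zero] at E3 E4 E5 E7 E9 E10 E11 E13
  obtain ⟨t, ht⟩ : ∃ t, t = v3 / v1 := ⟨_, rfl⟩
  have ht0 : t ≠ 0 := by rw [ht]; exact div_ne_zero hv3 hv1
  have hv3' : v3 = v1 * t := by rw [ht]; field_simp
  have hp3 : p3 ≠ 0 := by
    rintro rfl
    simp only [zero_mul, add_zero] at E3
    exact N1 ⟨(mul_eq_zero.1 E3).resolve_right hv1, rfl, rfl⟩
  have hp1 : p1 = -(p3 * t) := by
    have : v1 * (p1 + p3 * t) = 0 := by rw [hv3'] at E3; linarith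
    have := (mul_eq_zero.1 this).resolve_left hv1
    linarith
  have hd3 : d3 = d1 * t := by
    have : p3 * (d3 - d1 * t) = 0 := by rw [hp1] at E5; linarith
    have := (mul_eq_zero.1 this).resolve_left hp3
    linarith
  have hd1 : d1 ≠ 0 := by
    rintro rfl
    simp only [zero_mul, zero_add] at E4 hd3
    exact N2 ⟨rfl, (mul_eq_zero.1 E4).resolve_right y3, hd3⟩
  -- q
  have hq : q2 * f1 = q3 * t * f2 := by
    have h : d1 * (q3 * t * f2 - q2 * f1) = 0 := by
      have e1 : (q2 * d2 + q3 * d3) * f2 = 0 := by rw [E7]; ring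
      have e2 : q2 * (d1 * f1 + d2 * f2) = 0 := by rw [E4]; ring
      rw [hd3] at e1
      linarith
    have := (mul_eq_zero.1 h).resolve_left hd1
    linarith
  have hq3 : q3 ≠ 0 := by
    rintro rfl
    simp only [zero_mul] at hq
    exact N3 ⟨rfl, (mul_eq_zero.1 hq).resolve_right x3, rfl⟩
  have hh : h3 * f1 = -(h2 * t * f2) := by
    have h : q3 * (h3 * f1 + h2 * t * f2) = 0 := by
      have e1 : (h2 * q2 + h3 * q3) * f1 = 0 := by rw [E9]; ring
      have e2 : h2 * (q2 * f1) = h2 * (q3 * t * f2) := by rw [hq]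
      linarith
    have := (mul_eq_zero.1 h).resolve_left hq3
    linarith
  have hh2 : h2 ≠ 0 := by
    rintro rfl
    simp only [zero_mul, neg_zero] at hh
    exact N4 ⟨rfl, rfl, (mul_eq_zero.1 hh).resolve_right x3⟩
  have hr2 : r2 * f1 = r3 * t * f2 := by
    have h : h2 * (r2 * f1 - r3 * t * f2) = 0 := by
      have e1 : (r2 * h2 + r3 * h3) * f1 = 0 := by rw [E11]; ring
      have e2 : r3 * (h3 * f1) = r3 * (-(h2 * t * f2)) := by rw [hh]
      linarith
    have := (mul_eq_zero.1 h).resolve_left hh2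
    linarith
  have hr3 : r3 ≠ 0 := by
    rintro rfl
    simp only [zero_mul, add_zero] at hr2 E10
    exact N5 ⟨(mul_eq_zero.1 E10).resolve_right x4, (mul_eq_zero.1 hr2).resolve_right x3, rfl⟩
  have hs : s1 * g3 * f1 = s2 * t * f2 * g1 := by
    have h : r3 * (s2 * t * f2 * g1 - s1 * g3 * f1) = 0 := by
      have e1 : (s1 * r1 + s2 * r2) * (f1 * g1) = 0 := by rw [E13]; ring
      have e2 : s1 * f1 * (r1 * g1 + r3 * g3) = 0 := by rw [E10]; ring
      have e3 : s2 * g1 * (r2 * f1) = s2 * g1 * (r3 * t * f2) := by rw [hr2]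
      linarith
    have := (mul_eq_zero.1 h).resolve_left hr3
    linarith
  have hs2 : s2 ≠ 0 := by
    rintro rfl
    simp only [zero_mul] at hs
    rcases mul_eq_zero.1 hs with h | h
    · rcases mul_eq_zero.1 h with h | h
      · exact N6 ⟨h, rfl, rfl⟩
      · exact z4 h
    · exact x3 h
  refine ⟨t, ht0, ⟨?_, ?_, ?_, ?_⟩⟩
  · intro a b c h
    have : v1 * (a + c * t) = 0 := by rw [hv3'] at h; linarith
    exact (mul_eq_zero.1 this).resolve_left hv1
  · intro a b c h
    have h' : h2 * (b * f1 - c * t * f2) = 0 := by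
      have e1 : (a * 0 + b * h2 + c * h3) * f1 = 0 := by rw [h]; ring
      have e2 : c * (h3 * f1) = c * (-(h2 * t * f2)) := by rw [hh]
      linarith
    have := (mul_eq_zero.1 h').resolve_left hh2
    field_simp
    linarith
  · intro a b c h
    have h' : d1 * (a * f2 - b * f1 + c * t * f2) = 0 := by
      have e1 : (a * d1 + b * d2 + c * d3) * f2 = 0 := by rw [h]; ring
      have e2 : b * (d1 * f1 + d2 * f2) = 0 := by rw [E4]; ring
      rw [hd3] at e1
      linarith
    have := (mul_eq_zero.1 h').resolve_left hd1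
    field_simp
    linarith
  · intro a b c h
    have h' : s2 * (a * f2 * t * g1 + b * f1 * g3) = 0 := by
      have e1 : (a * s1 + b * s2 + c * 0) * (f1 * g3) = 0 := by rw [h]; ring
      have e2 : a * (s1 * g3 * f1) = a * (s2 * t * f2 * g1) := by rw [hs]
      linarith
    have := (mul_eq_zero.1 h').resolve_left hs2
    field_simp
    linarith

/-- **Soundness.** -/
theorem holds_of_aligned (H : NumRep (5 + 8 * m) (SysEdge m sys) x y z) (A : Aligned x y z)
    (hidx : ∀ g < m, (sys g).All (· < m)) :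
    ∃ val : ℕ → ℝ, (∀ g < m, val g ≠ 0) ∧ ∀ g < m, (sys g).Holds val := by
  obtain ⟨κ, μ, hκ, hμ, hs⟩ := slot_facts H A
  choose! t ht0 hf using hs
  refine ⟨fun g => t g / μ, fun g hg => div_ne_zero (ht0 g hg) hμ, fun g hg => ?_⟩
  have hE : ∀ e, e ∈ slotEdges vid id g (sys g) →
      x e.1 * x e.2 + y e.1 * y e.2 + z e.1 * z e.2 = 0 := fun e he => H.orth e (Or.inr ⟨g, hg, he⟩)
  have N := H.ne_zero (vid g 7) (vid_lt hg (by norm_num))
  have hI := hidx g hg
  revert hE hI
  cases sys g with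
  | pt i j => intro _ _; trivial
  | add i j k =>
    intro hE hI
    simp only [Eqn.All] at hI
    have E1 := (hf i hI.1).fV _ _ _ (hE (vid g 7, vid i 0) (by simp [slotEdges]))
    have E2 := (hf j hI.2.1).fH _ _ _ (hE (vid g 7, vid j 4) (by simp [slotEdges]))
    have E3 := (hf k hI.2.2).fD _ _ _ (hE (vid g 7, vid k 2) (by simp [slotEdges]))
    generalize x (vid g 7) = a at *
    generalize y (vid g 7) = b at *
    generalize z (vid g 7) = c at *
    have hc : c ≠ 0 := by
      rintro rfl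
      simp only [zero_mul, add_zero] at E1 E2
      exact N ⟨E1, E2, rfl⟩
    simp only [Eqn.Holds]
    have ha : a = -(c * t i) := by linarith
    rw [ha, E2] at E3
    have h : (c * κ) * (t k - t i - t j) = 0 := by linarith
    have := (mul_eq_zero.1 h).resolve_left (mul_ne_zero hc hκ)
    field_simp
    linarith
  | mul i j k =>
    intro hE hI
    simp only [Eqn.All] at hI
    have E1 := (hf i hI.1).fV _ _ _ (hE (vid g 7, vid i 0) (by simp [slotEdges]))
    have E2 := (hf k hI.2.2).fH _ _ _ (hE (vid g 7, vid k 4) (by simp [slotEdges]))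
    have E3 := (hf j hI.2.1).fS _ _ _ (hE (vid g 7, vid j 6) (by simp [slotEdges]))
    generalize x (vid g 7) = a at *
    generalize y (vid g 7) = b at *
    generalize z (vid g 7) = c at *
    have hc : c ≠ 0 := by
      rintro rfl
      simp only [zero_mul, add_zero] at E1 E2
      exact N ⟨E1, E2, rfl⟩
    simp only [Eqn.Holds]
    have ha : a = -(c * t i) := by linarith
    rw [ha, E2] at E3
    have h : (c * κ) * (t k - t i * (t j / μ)) = 0 := by linarith
    have := (mul_eq_zero.1 h).resolve_left (mul_ne_zero hc hκ)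
    field_simp
    field_simp at this
    linarith

end Soundness

end Pool.Agent.Helper89
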