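import Pool.Agent.Helper89.RedProg

/-!
# The reduction is computed in polynomial time
-/

namespace Pool.Agent.Helper89

theorem get_upd_r (p l r h x : ℕ) :
    Function.update (Env.get ⟨p, l, r, h⟩) .rgt x = Env.get ⟨p, l, x, h⟩ := by
  funext s; cases s <;> rfl

theorem get_upd_l (p l r h x : ℕ) :
    Function.update (Env.get ⟨p, l, r, h⟩) .lft x = Env.get ⟨p, x, r, h⟩ := by
  funext s; cases s <;> rfl

theorem get_upd_h (p l r h x : ℕ) :
    Function.update (Env.get ⟨p, l, r, h⟩) .hom x = Env.get ⟨p, l, r, x⟩ := by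
  funext s; cases s <;> rfl

theorem get_upd_p (p l r h x : ℕ) :
    Function.update (Env.get ⟨p, l, r, h⟩) .cur x = Env.get ⟨x, l, r, h⟩ := by
  funext s; cases s <;> rfl

theorem get_le {v : Env} {M : ℕ} (hp : v.p ≤ M) (hl : v.l ≤ M) (hr : v.r ≤ M) (hh : v.h ≤ M) :
    ∀ x, v.get x ≤ M := by
  intro x; cases x
  · exact Nat.zero_le _
  · exact hp
  · exact hl
  · exact hr
  · exact hh

/-- process one token -/
def procTok (t : Tok) : Cmd RΓ :=
  .seq (if arity t = 0 then .skip else popTo .rgt)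
    (.seq (if arity t = 2 then popTo .lft else .skip)
      (.seq (emitEdges (tmpl (some t)))
        (.seq (clear .rgt)
          (.seq (clear .lft)
            (.seq (if t = .tick then .push (.cnt .hom) () else .seq (clear .hom) pushPos)
              (.push (.cnt .cur) ()))))))

def bigC : ℕ := ∑ t : Option Tok, listCost (tmpl t)

theorem listCost_le (t : Option Tok) : listCost (tmpl t) ≤ bigC :=
  Finset.single_le_sum (f := fun t => listCost (tmpl t)) (fun _ _ => Nat.zero_le _)
    (Finset.mem_univ t)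

theorem arity_cases (t : Tok) : arity t = 0 ∨ arity t = 1 ∨ arity t = 2 := by
  cases t <;> simp [arity]

theorem encS_cons (a : ℕ) (l : List ℕ) : encS (a :: l) = unary a ++ encS l := by
  simp [encS]

theorem procTok_runs (t : Tok) (s : St) (hs : s.Inv) (i : List Tok) (o : List Bool) {L : ℕ}
    (hL : s.p ≤ L) :
    RunsLe (procTok t) (mkS i o (encS s.stk) 0 (Env.get ⟨s.p, 0, 0, s.h⟩))
      (mkS i (encE (blkEdges (some t) (envOf t s)) ++ o) (encS (next t s).stk) 0
        (Env.get ⟨(next t s).p, 0, 0, (next t s).h⟩)) ((bigC + 40) * (L + 1)) := by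
  obtain ⟨hep, hel, her, heh⟩ := envOf_le hs t
  have hh0 : s.h ≤ s.p := hs.2
  -- pops
  have hr0 : s.stk.headD 0 ≤ L := (headD_le hs).trans hL
  have hl0 : s.stk.tail.headD 0 ≤ L := (tail_headD_le hs).trans hL
  have h1 : RunsLe (if arity t = 0 then Cmd.skip else popTo .rgt)
      (mkS i o (encS s.stk) 0 (Env.get ⟨s.p, 0, 0, s.h⟩))
      (mkS i o (encS (if arity t = 0 then s.stk else s.stk.tail)) 0
        (Env.get ⟨s.p, 0, if arity t = 0 then 0 else s.stk.headD 0, s.h⟩)) (4 * L + 5) := by
    split_ifs with h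
    · exact (RunsLe.skip _).mono (by omega)
    · have := popTo_runs .rgt s.stk i o (Env.get ⟨s.p, 0, 0, s.h⟩) rfl
      rw [get_upd_r] at this
      exact this.mono (by omega)
  have h2 : RunsLe (if arity t = 2 then popTo .lft else Cmd.skip)
      (mkS i o (encS (if arity t = 0 then s.stk else s.stk.tail)) 0
        (Env.get ⟨s.p, 0, if arity t = 0 then 0 else s.stk.headD 0, s.h⟩))
      (mkS i o (encS (s.stk.drop (arity t))) 0 (Env.get (envOf t s))) (4 * L + 5) := by
    unfold envOf
    rcases arity_cases t with h | h | h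
    · simp only [h, if_true, List.drop_zero, OfNat.zero_ne_ofNat, if_false]
      exact (RunsLe.skip _).mono (by omega)
    · simp only [h, one_ne_zero, if_false, OfNat.one_ne_ofNat, List.drop_one]
      exact (RunsLe.skip _).mono (by omega)
    · simp only [h, OfNat.ofNat_ne_zero, if_false, if_true]
      have := popTo_runs .lft s.stk.tail i o (Env.get ⟨s.p, 0, s.stk.headD 0, s.h⟩) rfl
      rw [get_upd_l] at this
      have h3 : s.stk.tail.tail = s.stk.drop 2 := by
        rw [← List.drop_one, ← List.drop_one, List.drop_drop]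
      rw [h3] at this
      exact this.mono (by omega)
  have hM : ∀ x, (envOf t s).get x ≤ L :=
    get_le (by omega) (by omega) (by omega) (by omega)
  have h3 := emitEdges_runs (tmpl (some t)) i o (encS (s.stk.drop (arity t))) (envOf t s).get hM
  have h3' : encE ((tmpl (some t)).map (Prod.map (resC (envOf t s).get) (resC (envOf t s).get))) =
      encE (blkEdges (some t) (envOf t s)) := rfl
  rw [h3'] at h3
  generalize encE (blkEdges (some t) (envOf t s)) ++ o = o' at h3 ⊢
  have h4 := clear_runs .rgt (envOf t s).r i o' (encS (s.stk.drop (arity t))) 0 (envOf t s).get rfl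
  have h4' : Function.update (envOf t s).get .rgt 0 = Env.get ⟨s.p, (envOf t s).l, 0, s.h⟩ :=
    get_upd_r _ _ _ _ _
  rw [h4'] at h4
  have h5 := clear_runs .lft (envOf t s).l i o' (encS (s.stk.drop (arity t))) 0
    (Env.get ⟨s.p, (envOf t s).l, 0, s.h⟩) rfl
  rw [get_upd_l] at h5
  have h6 : RunsLe (if t = .tick then Cmd.push (RK.cnt .hom) () else .seq (clear .hom) pushPos)
      (mkS i o' (encS (s.stk.drop (arity t))) 0 (Env.get ⟨s.p, 0, 0, s.h⟩))
      (mkS i o' (encS (next t s).stk) 0 (Env.get ⟨s.p, 0, 0, (next t s).h⟩)) (7 * L + 4) := by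
    by_cases ht : t = .tick
    · subst ht
      simp only [if_true, next, arity, List.drop_zero]
      have hp := upd_cnt i o' (encS s.stk) 0 (Env.get ⟨s.p, 0, 0, s.h⟩) .hom (s.h + 1) _ rfl
      rw [get_upd_h] at hp
      exact (RunsLe.push _ _ _ _ hp.symm).mono (by omega)
    · simp only [if_neg ht, next]
      have a1 := clear_runs .hom s.h i o' (encS (s.stk.drop (arity t))) 0
        (Env.get ⟨s.p, 0, 0, s.h⟩) rfl
      rw [get_upd_h] at a1
      have a2 := pushPos_runs i o' (encS (s.stk.drop (arity t))) (Env.get ⟨s.p, 0, 0, 0⟩)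
      rw [encS_cons]
      refine (a1.seq a2).mono ?_
      have : (Env.get ⟨s.p, 0, 0, 0⟩) .cur = s.p := rfl
      rw [this]
      omega
  have h7 : RunsLe (.push (RK.cnt .cur) ())
      (mkS i o' (encS (next t s).stk) 0 (Env.get ⟨s.p, 0, 0, (next t s).h⟩))
      (mkS i o' (encS (next t s).stk) 0 (Env.get ⟨(next t s).p, 0, 0, (next t s).h⟩)) 1 := by
    have hp := upd_cnt i o' (encS (next t s).stk) 0 (Env.get ⟨s.p, 0, 0, (next t s).h⟩) .cur
      (s.p + 1) _ rfl
    rw [get_upd_p] at hp
    exact RunsLe.push _ _ _ _ hp.symm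
  refine (h1.seq (h2.seq (h3.seq (h4.seq (h5.seq (h6.seq h7)))))).mono ?_
  have hc := listCost_le (some t)
  have hc' : listCost (tmpl (some t)) * (L + 1) ≤ bigC * (L + 1) := Nat.mul_le_mul_right _ hc
  nlinarith

/-- edges of the blocks, accumulated -/
def accL : List Tok → St → List (ℕ × ℕ) → List (ℕ × ℕ)
  | [], _, acc => acc
  | t :: ts, s, acc => accL ts (next t s) (blkEdges (some t) (envOf t s) ++ acc)

theorem edgesAcc_eq (ts : List Tok) (s : St) (acc : List (ℕ × ℕ)) :
    edgesAcc ts s acc = blkEdges none (finEnv (nextL ts s)) ++ accL ts s acc := by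
  induction ts generalizing s acc with
  | nil => rfl
  | cons t ts ih => exact ih _ _

theorem mainLoop_runs (ts : List Tok) (s : St) (hs : s.Inv) (acc : List (ℕ × ℕ)) {L : ℕ}
    (hL : s.p + ts.length ≤ L) :
    RunsLe (.loop .inp procTok) (mkS ts (encE acc) (encS s.stk) 0 (Env.get ⟨s.p, 0, 0, s.h⟩))
      (mkS [] (encE (accL ts s acc)) (encS (nextL ts s).stk) 0
        (Env.get ⟨(nextL ts s).p, 0, 0, (nextL ts s).h⟩))
      (((bigC + 40) * (L + 1) + 1) * ts.length + 1) := by
  induction ts generalizing s acc with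
  | nil => exact (RunsLe.loopNil rfl).mono (by omega)
  | cons t ts ih =>
    simp only [List.length_cons] at hL
    have h1 := procTok_runs t s hs ts (encE acc) (L := L) (by omega)
    rw [← encE_append] at h1
    have h2 := ih (next t s) (hs.next t) (blkEdges (some t) (envOf t s) ++ acc)
      (by simp only [next]; omega)
    have h3 := RunsLe.loopCons (Γ := RΓ) (k := RK.inp) (c := procTok)
      (S := mkS (t :: ts) (encE acc) (encS s.stk) 0 (Env.get ⟨s.p, 0, 0, s.h⟩)) (a := t) (l := ts)
      rfl (upd_inp _ _ _ _ _ ts).symm h1 h2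
    refine h3.mono ?_
    simp only [List.length_cons]
    nlinarith

/-- the final part -/
def finProg : Cmd RΓ :=
  .seq (popTo .rgt) (.seq (emitEdges (tmpl none)) (.seq (clear .rgt)
    (.seq (emitRef (.cur, 1661)) (clear .cur))))

theorem finProg_runs (p r L : ℕ) (o : List Bool) (hp : p ≤ L) (hr : r ≤ L) :
    RunsLe finProg (mkS [] o (encS [r]) 0 (Env.get ⟨p, 0, 0, 0⟩))
      (mkS [] (unary (1661 + 1600 * p) ++ (encE (blkEdges none ⟨p, 0, r, 0⟩) ++ o)) [] 0
        (Env.get ⟨0, 0, 0, 0⟩)) ((bigC + 4000) * (L + 1)) := by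
  have h1 := popTo_runs .rgt [r] [] o (Env.get ⟨p, 0, 0, 0⟩) rfl
  rw [get_upd_r] at h1
  have h2 := emitEdges_runs (tmpl none) [] o [] (Env.get ⟨p, 0, r, 0⟩) (M := L)
    (get_le hp (Nat.zero_le _) hr (Nat.zero_le _))
  have h2' : encE ((tmpl none).map (Prod.map (resC (Env.get ⟨p, 0, r, 0⟩))
      (resC (Env.get ⟨p, 0, r, 0⟩)))) = encE (blkEdges none ⟨p, 0, r, 0⟩) := rfl
  rw [h2'] at h2
  generalize encE (blkEdges none ⟨p, 0, r, 0⟩) ++ o = o' at h2 ⊢
  have h3 := clear_runs .rgt r [] o' [] 0 (Env.get ⟨p, 0, r, 0⟩) rfl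
  rw [get_upd_r] at h3
  have h4 := emitRef_runs (.cur, 1661) [] o' [] (Env.get ⟨p, 0, 0, 0⟩) (M := L)
    (get_le hp (Nat.zero_le _) (Nat.zero_le _) (Nat.zero_le _))
  have h5 := clear_runs .cur p [] (unary (1661 + 1600 * p) ++ o') [] 0 (Env.get ⟨p, 0, 0, 0⟩) rfl
  rw [get_upd_p] at h5
  refine (h1.seq (h2.seq (h3.seq (h4.seq h5)))).mono ?_
  have hc := listCost_le none
  have hc' : listCost (tmpl none) * (L + 1) ≤ bigC * (L + 1) := Nat.mul_le_mul_right _ hc
  simp only [List.headD_cons]
  nlinarith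

def preRefs : List ((Src × ℕ) × (Src × ℕ)) :=
  preEdges.map fun e => ((.const, e.1), (.const, e.2))

/-- the whole program -/
def redProg : Cmd RΓ := .seq (emitEdges preRefs) (.seq (.loop .inp procTok) finProg)

theorem single_inp (i : List Tok) : Cmd.single (Γ := RΓ) .inp i = mkS i [] [] 0 (Env.get ⟨0, 0, 0, 0⟩) := by
  unfold Cmd.single
  funext k
  rcases k with _ | _ | _ | _ | s
  · rfl
  · rfl
  · rfl
  · rfl
  · cases s <;> rfl

theorem single_out (o : List Bool) :
    Cmd.single (Γ := RΓ) .out o = mkS [] o [] 0 (Env.get ⟨0, 0, 0, 0⟩) := by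
  unfold Cmd.single
  funext k
  rcases k with _ | _ | _ | _ | s
  · rfl
  · rfl
  · rfl
  · rfl
  · cases s <;> rfl

def bigA : ℕ := listCost preRefs + 2 * bigC + 5000

theorem redProg_runs (φ : QFormula) :
    RunsLe redProg (Cmd.single .inp φ.enc) (Cmd.single .out (graphOf φ.enc).enc)
      (bigA * (φ.enc.length + 1) ^ 2) := by
  have hnx := nextL_encFormula φ ⟨0, [], 0⟩ rfl
  rw [single_inp, single_out]
  have h1 := emitEdges_runs preRefs φ.enc [] [] (Env.get ⟨0, 0, 0, 0⟩) (M := 0)
    (get_le (le_refl _) (le_refl _) (le_refl _) (le_refl _))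
  have h1' : preRefs.map (Prod.map (resC (Env.get ⟨0, 0, 0, 0⟩)) (resC (Env.get ⟨0, 0, 0, 0⟩))) =
      preEdges := by
    unfold preRefs
    rw [List.map_map]
    conv_rhs => rw [← List.map_id preEdges]
    congr 1
  rw [h1', List.append_nil] at h1
  have h2 := mainLoop_runs φ.enc ⟨0, [], 0⟩ inv0 preEdges (L := φ.enc.length) (by simp)
  have h3 := finProg_runs φ.enc.length (φ.enc.length - 1) φ.enc.length
    (encE (accL φ.enc ⟨0, [], 0⟩ preEdges)) (le_refl _) (by omega)
  rw [hnx] at h2
  simp only [St.push, zero_add] at h2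
  have h4 := h1.seq (h2.seq h3)
  have h5 : unary (1661 + 1600 * φ.enc.length) ++
      (encE (blkEdges none ⟨φ.enc.length, 0, φ.enc.length - 1, 0⟩) ++
        encE (accL φ.enc ⟨0, [], 0⟩ preEdges)) = (graphOf φ.enc).enc := by
    rw [graphOf_enc]
    have e1 : 1661 + 1600 * φ.enc.length = numV φ.enc.length := by unfold numV; ring
    have e2 : edgesN φ.enc = blkEdges none ⟨φ.enc.length, 0, φ.enc.length - 1, 0⟩ ++
        accL φ.enc ⟨0, [], 0⟩ preEdges := by
      unfold edgesN
      rw [edgesAcc_eq, hnx]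
      simp [finEnv, St.push]
    rw [e1, ← encE_append, ← e2]
    rfl
  rw [h5] at h4
  refine h4.mono ?_
  unfold bigA
  have hlen : φ.enc.length ≤ φ.enc.length := le_refl _
  generalize φ.enc.length = n
  generalize listCost preRefs = a
  generalize bigC = b
  nlinarith [Nat.zero_le (a * n), Nat.zero_le (a * (n * n)), Nat.zero_le (b * n),
    Nat.zero_le (b * (n * n)), Nat.zero_le (n * n)]

/-- the reduction as a function from formulas to graphs is computable in polynomial time -/
noncomputable def redComputable :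
    Turing.TM2ComputableInPolyTime QFormula.enc EdgeList.enc (fun φ => graphOf φ.enc) :=
  Cmd.computable QFormula.enc EdgeList.enc (fun φ => graphOf φ.enc) (Γ := RΓ) RK.inp RK.out
    (Equiv.refl Tok) (Equiv.refl Bool) redProg
    (Polynomial.C bigA * (Polynomial.X + 1) ^ 2) (by
      intro φ
      obtain ⟨n, hn, hr⟩ := redProg_runs φ
      refine ⟨n, ?_, ?_⟩
      · simpa using hn
      · simpa using hr)

/-- **ETR reduces to ORTH3 in polynomial time.** -/
theorem etr_reduces_orth3 : PolyTimeReduces ETR ORTH3 :=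
  ⟨fun φ => graphOf φ.enc, ⟨redComputable⟩, fun φ => (hasOrthRep_graphOf φ).symm⟩

end Pool.Agent.Helper89
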