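import Pool.Agent.Helper89.Cmd
import Pool.Agent.Helper89.GraphOf

/-!
# The program that computes the reduction
-/

namespace Pool.Agent.Helper89

/-- `c` leads from `S` to `T` in at most `N` steps -/
def RunsLe {K : Type} [DecidableEq K] {Γ : K → Type} (c : Cmd Γ) (S T : ∀ k, List (Γ k)) (N : ℕ) :
    Prop :=
  ∃ n ≤ N, Cmd.Runs c S T n

section RunsLe

variable {K : Type} [DecidableEq K] {Γ : K → Type}

theorem RunsLe.mono {c : Cmd Γ} {S T : ∀ k, List (Γ k)} {M N : ℕ} (h : RunsLe c S T M)
    (hMN : M ≤ N) : RunsLe c S T N := by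
  obtain ⟨n, hn, hr⟩ := h
  exact ⟨n, hn.trans hMN, hr⟩

theorem RunsLe.skip (S : ∀ k, List (Γ k)) : RunsLe .skip S S 1 := ⟨1, le_refl _, .skip⟩

theorem RunsLe.push (k : K) (a : Γ k) (S T : ∀ k, List (Γ k))
    (h : T = Function.update S k (a :: S k)) : RunsLe (.push k a) S T 1 := by
  subst h; exact ⟨1, le_refl _, .push⟩

theorem RunsLe.seq {c d : Cmd Γ} {S T U : ∀ k, List (Γ k)} {M N : ℕ} (h₁ : RunsLe c S T M)
    (h₂ : RunsLe d T U N) : RunsLe (.seq c d) S U (M + N) := by
  obtain ⟨m, hm, h₁⟩ := h₁
  obtain ⟨n, hn, h₂⟩ := h₂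
  exact ⟨m + n, by omega, .seq h₁ h₂⟩

theorem RunsLe.caseNil {k : K} {e : Cmd Γ} {c : Γ k → Cmd Γ} {S T : ∀ k, List (Γ k)} {N : ℕ}
    (h : S k = []) (h₁ : RunsLe e S T N) : RunsLe (.case k e c) S T (N + 1) := by
  obtain ⟨n, hn, h₁⟩ := h₁
  exact ⟨n + 1, by omega, .caseNil h h₁⟩

theorem RunsLe.caseCons {k : K} {e : Cmd Γ} {c : Γ k → Cmd Γ} {S S' T : ∀ k, List (Γ k)} {N : ℕ}
    {a : Γ k} {l : List (Γ k)} (h : S k = a :: l) (hS : S' = Function.update S k l)
    (h₁ : RunsLe (c a) S' T N) : RunsLe (.case k e c) S T (N + 1) := by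
  subst hS
  obtain ⟨n, hn, h₁⟩ := h₁
  exact ⟨n + 1, by omega, .caseCons h h₁⟩

theorem RunsLe.loopNil {k : K} {c : Γ k → Cmd Γ} {S : ∀ k, List (Γ k)} (h : S k = []) :
    RunsLe (.loop k c) S S 1 := ⟨1, le_refl _, .loopNil h⟩

theorem RunsLe.loopCons {k : K} {c : Γ k → Cmd Γ} {S S' T U : ∀ k, List (Γ k)} {M N : ℕ}
    {a : Γ k} {l : List (Γ k)} (h : S k = a :: l) (hS : S' = Function.update S k l)
    (h₁ : RunsLe (c a) S' T M) (h₂ : RunsLe (.loop k c) T U N) :
    RunsLe (.loop k c) S U (M + N + 1) := by
  subst hS
  obtain ⟨m, hm, h₁⟩ := h₁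
  obtain ⟨n, hn, h₂⟩ := h₂
  exact ⟨m + n + 1, by omega, .loopCons h h₁ h₂⟩

end RunsLe

instance : Fintype Src where
  elems := {.const, .cur, .lft, .rgt, .hom}
  complete := by intro x; cases x <;> decide

/-- the stacks of the machine -/
inductive RK : Type
  | inp | out | stk | tmp | cnt (s : Src)
  deriving DecidableEq

instance : Fintype RK where
  elems := {.inp, .out, .stk, .tmp, .cnt .const, .cnt .cur, .cnt .lft, .cnt .rgt, .cnt .hom}
  complete := by
    intro x
    rcases x with _ | _ | _ | _ | s
    · decide
    · decide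
    · decide
    · decide
    · cases s <;> decide

/-- alphabets -/
abbrev RΓ : RK → Type
  | .inp => Tok
  | .out => Bool
  | .stk => Bool
  | .tmp => Unit
  | .cnt _ => Unit

instance : ∀ k, Fintype (RΓ k)
  | .inp => inferInstanceAs (Fintype Tok)
  | .out => inferInstanceAs (Fintype Bool)
  | .stk => inferInstanceAs (Fintype Bool)
  | .tmp => inferInstanceAs (Fintype Unit)
  | .cnt _ => inferInstanceAs (Fintype Unit)

/-- stacks with given contents -/
def mkS (i : List Tok) (o s : List Bool) (t : ℕ) (v : Src → ℕ) : ∀ k, List (RΓ k)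
  | .inp => i
  | .out => o
  | .stk => s
  | .tmp => List.replicate t ()
  | .cnt x => List.replicate (v x) ()

section mkS

variable (i : List Tok) (o s : List Bool) (t : ℕ) (v : Src → ℕ)

theorem upd_inp (i' : List Tok) :
    Function.update (mkS i o s t v) .inp i' = mkS i' o s t v := by
  funext k; cases k <;> rfl

theorem upd_out (o' : List Bool) :
    Function.update (mkS i o s t v) .out o' = mkS i o' s t v := by
  funext k; cases k <;> rfl

theorem upd_stk (s' : List Bool) :
    Function.update (mkS i o s t v) .stk s' = mkS i o s' t v := by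
  funext k; cases k <;> rfl

theorem upd_tmp (t' : ℕ) (l : List Unit) (hl : l = List.replicate t' ()) :
    Function.update (mkS i o s t v) .tmp l = mkS i o s t' v := by
  subst hl
  funext k; cases k <;> rfl

theorem upd_cnt (x : Src) (n : ℕ) (l : List Unit) (hl : l = List.replicate n ()) :
    Function.update (mkS i o s t v) (.cnt x) l = mkS i o s t (Function.update v x n) := by
  subst hl
  funext k
  rcases k with _ | _ | _ | _ | y
  · rfl
  · rfl
  · rfl
  · rfl
  · by_cases h : y = x
    · subst h; simp [mkS]
    · have h' : (RK.cnt y) ≠ (RK.cnt x) := fun h2 => h (by injection h2)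
      rw [Function.update_of_ne h']
      simp [mkS, h]

end mkS

/-- push `n` times `true` on the output stack -/
def pushN : ℕ → Cmd RΓ
  | 0 => .skip
  | n + 1 => .seq (.push .out true) (pushN n)

theorem pushN_runs (n : ℕ) (i : List Tok) (o s : List Bool) (t : ℕ) (v : Src → ℕ) :
    RunsLe (pushN n) (mkS i o s t v) (mkS i (List.replicate n true ++ o) s t v) (n + 1) := by
  induction n generalizing o with
  | zero => exact RunsLe.skip _
  | succ n ih =>
    have h1 : RunsLe (.push .out true) (mkS i o s t v) (mkS i (true :: o) s t v) 1 :=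
      RunsLe.push _ _ _ _ (upd_out i o s t v (true :: o)).symm
    have h2 := ih (true :: o)
    have h3 : List.replicate n true ++ true :: o = List.replicate (n + 1) true ++ o := by
      rw [List.replicate_succ', List.append_assoc]; rfl
    rw [h3] at h2
    exact (h1.seq h2).mono (by omega)

/-- first loop of `emitCnt`: move the counter to `tmp`, writing `1600` symbols for each unit -/
@[reducible] def emitLoop (x : Src) : Cmd RΓ :=
  .loop (.cnt x) fun _ => .seq (.push .tmp ()) (pushN 1600)

theorem emitLoop_runs (x : Src) (n : ℕ) (i : List Tok) (o s : List Bool) (t : ℕ) (v : Src → ℕ)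
    (hv : v x = n) :
    RunsLe (emitLoop x) (mkS i o s t v)
      (mkS i (List.replicate (1600 * n) true ++ o) s (t + n) (Function.update v x 0))
      (1603 * n + 1) := by
  induction n generalizing o t v with
  | zero =>
    have h0 : Function.update v x 0 = v := by
      rw [← hv]; exact Function.update_eq_self _ _
    rw [h0]
    exact RunsLe.loopNil (by simp [mkS, hv])
  | succ n ih =>
    have hcnt : (mkS i o s t v) (.cnt x) = () :: List.replicate n () := by
      simp [mkS, hv, List.replicate_succ]
    have h1 : RunsLe (.push .tmp ()) (mkS i o s t (Function.update v x n))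
        (mkS i o s (t + 1) (Function.update v x n)) 1 :=
      RunsLe.push _ _ _ _ (upd_tmp i o s t (Function.update v x n) (t + 1) _ rfl).symm
    have h2 := pushN_runs 1600 i o s (t + 1) (Function.update v x n)
    have h3 := ih (List.replicate 1600 true ++ o) (t + 1) (Function.update v x n) (by simp)
    have h4 := RunsLe.loopCons (Γ := RΓ) (k := RK.cnt x)
      (c := fun _ => Cmd.seq (.push .tmp ()) (pushN 1600)) hcnt (upd_cnt i o s t v x n _ rfl).symm (h1.seq h2) h3
    have h5 : List.replicate (1600 * n) true ++ (List.replicate 1600 true ++ o) =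
        List.replicate (1600 * (n + 1)) true ++ o := by
      rw [← List.append_assoc, ← List.replicate_add]; ring_nf
    rw [h5] at h4
    have h6 : Function.update (Function.update v x n) x 0 = Function.update v x 0 := by simp
    have h7 : t + 1 + n = t + (n + 1) := by ring
    rw [h6, h7] at h4
    exact h4.mono (by omega)

/-- move `tmp` back to the counter -/
@[reducible] def backLoop (x : Src) : Cmd RΓ := .loop .tmp fun _ => .push (.cnt x) ()

theorem backLoop_runs (x : Src) (n : ℕ) (i : List Tok) (o s : List Bool) (v : Src → ℕ) :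
    RunsLe (backLoop x) (mkS i o s n v) (mkS i o s 0 (Function.update v x (v x + n)))
      (2 * n + 1) := by
  induction n generalizing v with
  | zero =>
    rw [Nat.add_zero, Function.update_eq_self]
    exact RunsLe.loopNil rfl
  | succ n ih =>
    have h1 : RunsLe (.push (.cnt x) ()) (mkS i o s n v)
        (mkS i o s n (Function.update v x (v x + 1))) 1 :=
      RunsLe.push _ _ _ _ (upd_cnt i o s n v x (v x + 1) _ rfl).symm
    have h3 := ih (Function.update v x (v x + 1))
    have h4 := RunsLe.loopCons (k := .tmp) (c := fun _ => .push (.cnt x) ())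
      (S := mkS i o s (n + 1) v) (a := ()) (l := List.replicate n ()) rfl
      (upd_tmp i o s (n + 1) v n _ rfl).symm h1 h3
    have h6 : Function.update (Function.update v x (v x + 1)) x
        (Function.update v x (v x + 1) x + n) = Function.update v x (v x + (n + 1)) := by
      simp only [Function.update_idem, Function.update_self]
      congr 1; ring
    rw [h6] at h4
    exact h4.mono (by omega)

/-- write `1600` symbols for each unit of the counter -/
def emitCnt (x : Src) : Cmd RΓ := .seq (emitLoop x) (backLoop x)

theorem emitCnt_runs (x : Src) (i : List Tok) (o s : List Bool) (v : Src → ℕ) :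
    RunsLe (emitCnt x) (mkS i o s 0 v) (mkS i (List.replicate (1600 * v x) true ++ o) s 0 v)
      (1605 * v x + 2) := by
  have h1 := emitLoop_runs x (v x) i o s 0 v rfl
  have h2 := backLoop_runs x (0 + v x) i (List.replicate (1600 * v x) true ++ o) s
    (Function.update v x 0)
  have h3 := h1.seq h2
  have h4 : Function.update (Function.update v x 0) x (Function.update v x 0 x + (0 + v x)) = v := by
    simp
  rw [h4] at h3
  exact h3.mono (by omega)

/-- write the number `off + 1600 * (counter)` in unary -/
def emitRef (r : Src × ℕ) : Cmd RΓ :=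
  .seq (.push .out false) (.seq (pushN r.2) (emitCnt r.1))

theorem emitRef_runs (r : Src × ℕ) (i : List Tok) (o s : List Bool) (v : Src → ℕ) {M : ℕ}
    (hM : ∀ x, v x ≤ M) :
    RunsLe (emitRef r) (mkS i o s 0 v) (mkS i (unary (r.2 + 1600 * v r.1) ++ o) s 0 v)
      ((r.2 + 1610) * (M + 1)) := by
  have h1 : RunsLe (.push .out false) (mkS i o s 0 v) (mkS i (false :: o) s 0 v) 1 :=
    RunsLe.push _ _ _ _ (upd_out i o s 0 v (false :: o)).symm
  have h2 := pushN_runs r.2 i (false :: o) s 0 v
  have h3 := emitCnt_runs r.1 i (List.replicate r.2 true ++ false :: o) s v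
  have h4 := h1.seq (h2.seq h3)
  have h5 : List.replicate (1600 * v r.1) true ++ (List.replicate r.2 true ++ false :: o) =
      unary (r.2 + 1600 * v r.1) ++ o := by
    unfold unary
    rw [← List.append_assoc, ← List.replicate_add, List.append_assoc]
    simp [Nat.add_comm]
  rw [h5] at h4
  refine h4.mono ?_
  have := hM r.1
  nlinarith

/-- write an edge -/
def emitEdge (e : (Src × ℕ) × (Src × ℕ)) : Cmd RΓ := .seq (emitRef e.2) (emitRef e.1)

def edgeCost (e : (Src × ℕ) × (Src × ℕ)) : ℕ := (e.1.2 + 1610) + (e.2.2 + 1610)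

/-- encoding of a list of edges -/
def encE (l : List (ℕ × ℕ)) : List Bool := l.flatMap fun e => unary e.1 ++ unary e.2

theorem encE_append (a b : List (ℕ × ℕ)) : encE (a ++ b) = encE a ++ encE b := by
  simp [encE]

/-- resolve a reference with the counters -/
def resC (v : Src → ℕ) (r : Src × ℕ) : ℕ := r.2 + 1600 * v r.1

theorem emitEdge_runs (e : (Src × ℕ) × (Src × ℕ)) (i : List Tok) (o s : List Bool)
    (v : Src → ℕ) {M : ℕ} (hM : ∀ x, v x ≤ M) :
    RunsLe (emitEdge e) (mkS i o s 0 v)
      (mkS i (unary (resC v e.1) ++ unary (resC v e.2) ++ o) s 0 v) (edgeCost e * (M + 1)) := by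
  have h1 := emitRef_runs e.2 i o s v hM
  have h2 := emitRef_runs e.1 i (unary (e.2.2 + 1600 * v e.2.1) ++ o) s v hM
  have h3 := h1.seq h2
  rw [← List.append_assoc] at h3
  refine h3.mono ?_
  unfold edgeCost
  nlinarith

/-- write a list of edges -/
def emitEdges : List ((Src × ℕ) × (Src × ℕ)) → Cmd RΓ
  | [] => .skip
  | e :: l => .seq (emitEdges l) (emitEdge e)

def listCost (l : List ((Src × ℕ) × (Src × ℕ))) : ℕ := (l.map edgeCost).sum + 1

theorem emitEdges_runs (l : List ((Src × ℕ) × (Src × ℕ))) (i : List Tok) (o s : List Bool)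
    (v : Src → ℕ) {M : ℕ} (hM : ∀ x, v x ≤ M) :
    RunsLe (emitEdges l) (mkS i o s 0 v)
      (mkS i (encE (l.map (Prod.map (resC v) (resC v))) ++ o) s 0 v) (listCost l * (M + 1)) := by
  induction l with
  | nil =>
    refine (RunsLe.skip _).mono ?_
    unfold listCost; simp
  | cons e l ih =>
    have h2 := emitEdge_runs e i (encE (l.map (Prod.map (resC v) (resC v))) ++ o) s v hM
    have h3 := ih.seq h2
    have h4 : unary (resC v e.1) ++ unary (resC v e.2) ++
        (encE (l.map (Prod.map (resC v) (resC v))) ++ o) =
        encE ((e :: l).map (Prod.map (resC v) (resC v))) ++ o := by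
      simp [encE]
    rw [h4] at h3
    refine h3.mono ?_
    unfold listCost
    simp only [List.map_cons, List.sum_cons]
    nlinarith

/-- clear a counter -/
@[reducible] def clear (x : Src) : Cmd RΓ := .loop (.cnt x) fun _ => .skip

theorem clear_runs (x : Src) (n : ℕ) (i : List Tok) (o s : List Bool) (t : ℕ) (v : Src → ℕ)
    (hv : v x = n) :
    RunsLe (clear x) (mkS i o s t v) (mkS i o s t (Function.update v x 0)) (2 * n + 1) := by
  induction n generalizing v with
  | zero =>
    have h0 : Function.update v x 0 = v := by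
      rw [← hv]; exact Function.update_eq_self _ _
    rw [h0]
    exact RunsLe.loopNil (by simp [mkS, hv])
  | succ n ih =>
    have hcnt : (mkS i o s t v) (.cnt x) = () :: List.replicate n () := by
      simp [mkS, hv, List.replicate_succ]
    have h3 := ih (Function.update v x n) (by simp)
    have h4 := RunsLe.loopCons (Γ := RΓ) (k := RK.cnt x) (c := fun _ => Cmd.skip)
      hcnt (upd_cnt i o s t v x n _ rfl).symm (RunsLe.skip _) h3
    have h6 : Function.update (Function.update v x n) x 0 = Function.update v x 0 := by simp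
    rw [h6] at h4
    exact h4.mono (by omega)

/-- encoding of the stack of positions -/
def encS (l : List ℕ) : List Bool := l.flatMap unary

/-- inner loop of `popTo` -/
@[reducible] def popLoop (x : Src) : Cmd RΓ :=
  .loop .tmp fun _ => .case .stk .skip fun b =>
    if b = true then .seq (.push (.cnt x) ()) (.push .tmp ()) else .skip

theorem popLoop_runs (x : Src) (q : ℕ) (rest : List Bool) (i : List Tok) (o : List Bool)
    (v : Src → ℕ) :
    RunsLe (popLoop x) (mkS i o (unary q ++ rest) 1 v)
      (mkS i o rest 0 (Function.update v x (v x + q))) (4 * q + 4) := by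
  induction q generalizing v with
  | zero =>
    rw [Nat.add_zero, Function.update_eq_self]
    have h1 : RunsLe (.case .stk .skip fun b =>
        if b = true then Cmd.seq (.push (.cnt x) ()) (.push .tmp ()) else .skip)
        (mkS i o (unary 0 ++ rest) 0 v) (mkS i o rest 0 v) 2 :=
      RunsLe.caseCons (a := false) (l := rest) rfl
        (upd_stk i o (unary 0 ++ rest) 0 v rest).symm (RunsLe.skip _)
    have h2 := RunsLe.loopCons (k := .tmp) (c := fun _ => .case .stk .skip fun b =>
        if b = true then Cmd.seq (.push (.cnt x) ()) (.push .tmp ()) else .skip)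
      (S := mkS i o (unary 0 ++ rest) 1 v) (a := ()) (l := []) rfl
      (upd_tmp i o (unary 0 ++ rest) 1 v 0 _ rfl).symm h1 (RunsLe.loopNil rfl)
    exact h2.mono (by omega)
  | succ q ih =>
    have hu : unary (q + 1) ++ rest = true :: (unary q ++ rest) := by
      simp [unary, List.replicate_succ]
    have p1 : RunsLe (.push (.cnt x) ()) (mkS i o (unary q ++ rest) 0 v)
        (mkS i o (unary q ++ rest) 0 (Function.update v x (v x + 1))) 1 :=
      RunsLe.push _ _ _ _ (upd_cnt i o _ 0 v x (v x + 1) _ rfl).symm
    have p2 : RunsLe (.push .tmp ()) (mkS i o (unary q ++ rest) 0 (Function.update v x (v x + 1)))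
        (mkS i o (unary q ++ rest) 1 (Function.update v x (v x + 1))) 1 :=
      RunsLe.push _ _ _ _ (upd_tmp i o _ 0 _ 1 _ rfl).symm
    have h1 : RunsLe (.case .stk .skip fun b =>
        if b = true then Cmd.seq (.push (.cnt x) ()) (.push .tmp ()) else .skip)
        (mkS i o (unary (q + 1) ++ rest) 0 v)
        (mkS i o (unary q ++ rest) 1 (Function.update v x (v x + 1))) (1 + 1 + 1) :=
      RunsLe.caseCons (a := true) (l := unary q ++ rest) hu
        (upd_stk i o (unary (q + 1) ++ rest) 0 v (unary q ++ rest)).symm (p1.seq p2)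
    have h3 := ih (Function.update v x (v x + 1))
    have h2 := RunsLe.loopCons (k := .tmp) (c := fun _ => .case .stk .skip fun b =>
        if b = true then Cmd.seq (.push (.cnt x) ()) (.push .tmp ()) else .skip)
      (S := mkS i o (unary (q + 1) ++ rest) 1 v) (a := ()) (l := []) rfl
      (upd_tmp i o (unary (q + 1) ++ rest) 1 v 0 _ rfl).symm h1 h3
    have h6 : Function.update (Function.update v x (v x + 1)) x
        (Function.update v x (v x + 1) x + q) = Function.update v x (v x + (q + 1)) := by
      simp only [Function.update_idem, Function.update_self]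
      congr 1; ring
    rw [h6] at h2
    exact h2.mono (by omega)

/-- pop a position from the stack into a counter -/
def popTo (x : Src) : Cmd RΓ := .seq (.push .tmp ()) (popLoop x)

theorem popTo_runs (x : Src) (l : List ℕ) (i : List Tok) (o : List Bool) (v : Src → ℕ)
    (hx : v x = 0) :
    RunsLe (popTo x) (mkS i o (encS l) 0 v)
      (mkS i o (encS l.tail) 0 (Function.update v x (l.headD 0))) (4 * l.headD 0 + 5) := by
  have p2 : RunsLe (.push .tmp ()) (mkS i o (encS l) 0 v) (mkS i o (encS l) 1 v) 1 :=
    RunsLe.push _ _ _ _ (upd_tmp i o _ 0 _ 1 _ rfl).symm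
  cases l with
  | nil =>
    have h0 : Function.update v x (([] : List ℕ).headD 0) = v := by
      simp only [List.headD_nil]
      rw [← hx]; exact Function.update_eq_self _ _
    rw [h0]
    have h1 : RunsLe (.case .stk .skip fun b =>
        if b = true then Cmd.seq (.push (.cnt x) ()) (.push .tmp ()) else .skip)
        (mkS i o [] 0 v) (mkS i o [] 0 v) 2 :=
      RunsLe.caseNil rfl (RunsLe.skip _)
    have h2 := RunsLe.loopCons (k := .tmp) (c := fun _ => .case .stk .skip fun b =>
        if b = true then Cmd.seq (.push (.cnt x) ()) (.push .tmp ()) else .skip)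
      (S := mkS i o [] 1 v) (a := ()) (l := []) rfl
      (upd_tmp i o [] 1 v 0 _ rfl).symm h1 (RunsLe.loopNil rfl)
    exact (p2.seq h2).mono (by simp)
  | cons q l =>
    have h1 := popLoop_runs x q (encS l) i o v
    rw [hx, Nat.zero_add] at h1
    exact (p2.seq h1).mono (by simp; omega)

/-- push the current position on the stack -/
@[reducible] def pushLoop : Cmd RΓ := .loop (.cnt .cur) fun _ => .seq (.push .stk true) (.push .tmp ())

theorem pushLoop_runs (n : ℕ) (i : List Tok) (o s : List Bool) (t : ℕ) (v : Src → ℕ)
    (hv : v .cur = n) :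
    RunsLe pushLoop (mkS i o s t v)
      (mkS i o (List.replicate n true ++ s) (t + n) (Function.update v .cur 0)) (3 * n + 1) := by
  induction n generalizing s t v with
  | zero =>
    have h0 : Function.update v .cur 0 = v := by
      rw [← hv]; exact Function.update_eq_self _ _
    rw [h0]
    exact RunsLe.loopNil (by simp [mkS, hv])
  | succ n ih =>
    have hcnt : (mkS i o s t v) (.cnt .cur) = () :: List.replicate n () := by
      simp [mkS, hv, List.replicate_succ]
    have p1 : RunsLe (.push .stk true) (mkS i o s t (Function.update v .cur n))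
        (mkS i o (true :: s) t (Function.update v .cur n)) 1 :=
      RunsLe.push _ _ _ _ (upd_stk i o s t _ (true :: s)).symm
    have p2 : RunsLe (.push .tmp ()) (mkS i o (true :: s) t (Function.update v .cur n))
        (mkS i o (true :: s) (t + 1) (Function.update v .cur n)) 1 :=
      RunsLe.push _ _ _ _ (upd_tmp i o _ t _ (t + 1) _ rfl).symm
    have h3 := ih (true :: s) (t + 1) (Function.update v .cur n) (by simp)
    have h4 := RunsLe.loopCons (Γ := RΓ) (k := RK.cnt .cur)
      (c := fun _ => Cmd.seq (.push .stk true) (.push .tmp ()))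
      hcnt (upd_cnt i o s t v .cur n _ rfl).symm (p1.seq p2) h3
    have h5 : List.replicate n true ++ true :: s = List.replicate (n + 1) true ++ s := by
      rw [List.replicate_succ', List.append_assoc]; rfl
    rw [h5] at h4
    have h6 : Function.update (Function.update v .cur n) .cur 0 = Function.update v .cur 0 := by simp
    have h7 : t + 1 + n = t + (n + 1) := by ring
    rw [h6, h7] at h4
    exact h4.mono (by omega)

def pushPos : Cmd RΓ := .seq (.push .stk false) (.seq pushLoop (backLoop .cur))

theorem pushPos_runs (i : List Tok) (o s : List Bool) (v : Src → ℕ) :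
    RunsLe pushPos (mkS i o s 0 v) (mkS i o (unary (v .cur) ++ s) 0 v) (5 * v .cur + 3) := by
  have p1 : RunsLe (.push .stk false) (mkS i o s 0 v) (mkS i o (false :: s) 0 v) 1 :=
    RunsLe.push _ _ _ _ (upd_stk i o s 0 _ (false :: s)).symm
  have p2 := pushLoop_runs (v .cur) i o (false :: s) 0 v rfl
  have p3 := backLoop_runs .cur (0 + v .cur) i o (List.replicate (v .cur) true ++ false :: s)
    (Function.update v .cur 0)
  have h := p1.seq (p2.seq p3)
  have h4 : Function.update (Function.update v .cur 0) .cur
      (Function.update v .cur 0 .cur + (0 + v .cur)) = v := by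
    simp
  have h5 : List.replicate (v .cur) true ++ false :: s = unary (v .cur) ++ s := by
    simp [unary]
  rw [h4, h5] at h
  exact h.mono (by omega)

end Pool.Agent.Helper89
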