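import Pool.Agent.Helper89.Gadget
import Pool.Agent.Helper89.Defs

/-!
# The reduction: blocks, templates and the system of equations of a program
-/

namespace Pool.Agent.Helper89

/-- References to real numbers inside a block. -/
inductive RRef : Type
  | one | zero | cur (j : ℕ) | lft | rgt | hom

/-- The constraint `i * j + k = l`. -/
structure Quad (α : Type) : Type where
  i : α
  j : α
  k : α
  l : α

/-- The constraints of a block (`none` is the final block). Reference `cur 0` is the value of the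
block, `cur 1` to `cur 5` are auxiliary, `cur 6` is the value of a variable. -/
def cons : Option Tok → List (Quad RRef)
  | none => [⟨.one, .rgt, .zero, .one⟩]
  | some .tick => []
  | some .var => [⟨.one, .cur 0, .zero, .hom⟩]
  | some .zero => [⟨.one, .cur 0, .zero, .zero⟩]
  | some .dig0 => [⟨.one, .rgt, .rgt, .cur 0⟩]
  | some .dig1 => [⟨.one, .rgt, .rgt, .cur 1⟩, ⟨.one, .cur 1, .one, .cur 0⟩]
  | some .neg => [⟨.one, .cur 0, .rgt, .zero⟩]
  | some .add => [⟨.one, .lft, .rgt, .cur 0⟩]
  | some .mul => [⟨.lft, .rgt, .zero, .cur 0⟩]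
  | some .eq => [⟨.one, .cur 1, .rgt, .lft⟩, ⟨.cur 0, .cur 1, .zero, .zero⟩,
      ⟨.cur 1, .cur 2, .cur 0, .one⟩]
  | some .lt => [⟨.one, .cur 1, .lft, .rgt⟩, ⟨.cur 2, .cur 2, .cur 1, .cur 3⟩,
      ⟨.cur 4, .cur 4, .zero, .cur 3⟩, ⟨.cur 4, .cur 5, .zero, .cur 0⟩,
      ⟨.cur 0, .cur 4, .zero, .cur 4⟩, ⟨.cur 0, .cur 2, .zero, .zero⟩]
  | some .le => [⟨.one, .cur 1, .rgt, .lft⟩, ⟨.cur 2, .cur 2, .cur 1, .cur 3⟩,
      ⟨.cur 4, .cur 4, .zero, .cur 3⟩, ⟨.cur 4, .cur 5, .cur 0, .one⟩,
      ⟨.cur 0, .cur 4, .zero, .zero⟩, ⟨.cur 0, .cur 2, .zero, .cur 2⟩]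
  | some .not => [⟨.one, .cur 0, .rgt, .one⟩]
  | some .and => [⟨.lft, .rgt, .zero, .cur 0⟩]
  | some .or => [⟨.lft, .rgt, .cur 0, .cur 1⟩, ⟨.one, .lft, .rgt, .cur 1⟩]

/-- The `e`-th constraint of a block (trivial beyond the list). -/
def consAt (t : Option Tok) (e : ℕ) : Quad RRef := (cons t).getD e ⟨.zero, .zero, .zero, .zero⟩

/-- Block references: absolute, this block, block of the left operand, block of the right operand,
block of the home of a variable. -/
inductive Src : Type
  | const | cur | lft | rgt | hom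
  deriving DecidableEq

/-- The positions that a block knows. -/
structure Env : Type where
  p : ℕ
  l : ℕ
  r : ℕ
  h : ℕ

def Env.get (v : Env) : Src → ℕ
  | .const => 0
  | .cur => v.p
  | .lft => v.l
  | .rgt => v.r
  | .hom => v.h

/-- slot references -/
abbrev SRef : Type := Src × ℕ

/-- global slot number -/
def resolveS (v : Env) (s : SRef) : ℕ := s.2 + 200 * v.get s.1

/-- global vertex number -/
def resolveV (v : Env) (s : Src × ℕ) : ℕ := s.2 + 1600 * v.get s.1

def cs : RRef → SRef
  | .one => (.const, 2)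
  | .zero => (.const, 2)
  | .cur j => (.cur, 7 + 2 * j)
  | .lft => (.lft, 7)
  | .rgt => (.rgt, 7)
  | .hom => (.hom, 19)

def xs : RRef → SRef
  | .one => (.const, 4)
  | .zero => (.const, 3)
  | .cur j => (.cur, 8 + 2 * j)
  | .lft => (.lft, 8)
  | .rgt => (.rgt, 8)
  | .hom => (.hom, 20)

def extRef (q : Quad RRef) : ℕ → SRef
  | 0 => cs q.i
  | 1 => xs q.i
  | 2 => cs q.j
  | 3 => xs q.j
  | 4 => cs q.k
  | 5 => xs q.k
  | 6 => cs q.l
  | _ => xs q.l

/-- The equation of slot `s < 200` of a block. -/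
def blkEq (t : Option Tok) (s : ℕ) : Eqn SRef :=
  if s < 14 then .pt (.cur, 7 + s) (.cur, 7 + s)
  else (gadT.getD ((s - 14) % 31) (.pt (lo 0) (lo 0))).map
    (Sum.elim (fun i => (.cur, 21 + 31 * ((s - 14) / 31) + i)) (extRef (consAt t ((s - 14) / 31))))

/-- The equations of the seven constant slots. -/
def preT : List (Eqn ℕ) :=
  [.mul 0 0 1, .add 0 0 1, .pt 2 2, .mul 2 0 3, .mul 4 0 6, .mul 3 0 5, .add 5 0 6]

def vr (s : SRef) (r : ℕ) : Src × ℕ := (s.1, 5 + 8 * s.2 + r)
def frv (k : ℕ) : Src × ℕ := (.const, k)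

/-- The edges of a block as pairs of references. -/
def tmpl (t : Option Tok) : List ((Src × ℕ) × (Src × ℕ)) :=
  (List.range 200).flatMap fun s => slotEdges vr frv (.cur, 7 + s) (blkEq t s)

/-- The edges of a block. -/
def blkEdges (t : Option Tok) (v : Env) : List (ℕ × ℕ) :=
  (tmpl t).map (Prod.map (resolveV v) (resolveV v))

/-- The edges of the constant part. -/
def preEdges : List (ℕ × ℕ) :=
  frameEdges ++ (List.range 7).flatMap fun s => slotEdges vid id s (preT.getD s (.pt 0 0))

/-- The system of equations of a program. -/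
def sysOf (prog : ℕ → Option Tok × Env) (g : ℕ) : Eqn ℕ :=
  if g < 7 then preT.getD g (.pt 0 0)
  else (blkEq (prog ((g - 7) / 200)).1 ((g - 7) % 200)).map (resolveS (prog ((g - 7) / 200)).2)

/-- number of slots of a program with `P` blocks -/
def slots (P : ℕ) : ℕ := 7 + 200 * P

theorem blkEdges_eq (t : Option Tok) (v : Env) :
    blkEdges t v = (List.range 200).flatMap fun s =>
      slotEdges vid id (7 + s + 200 * v.p) ((blkEq t s).map (resolveS v)) := by
  unfold blkEdges tmpl
  rw [List.map_flatMap]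
  congr 1
  funext s
  rw [slotEdges_map vr frv vid id (resolveS v) (resolveV v)]
  · simp [resolveS, Env.get]
  · intro a r
    simp only [resolveV, vr, vid, resolveS]
    ring
  · intro k
    simp [resolveV, frv, Env.get]

theorem sysEdge_iff (P : ℕ) (prog : ℕ → Option Tok × Env) (hp : ∀ p < P, (prog p).2.p = p)
    (e : ℕ × ℕ) : SysEdge (slots P) (sysOf prog) e ↔
      e ∈ preEdges ∨ ∃ p < P, e ∈ blkEdges (prog p).1 (prog p).2 := by
  unfold SysEdge preEdges slots
  rw [List.mem_append, List.mem_flatMap]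
  constructor
  · rintro (h | ⟨g, hg, h⟩)
    · exact Or.inl (Or.inl h)
    · by_cases hg7 : g < 7
      · refine Or.inl (Or.inr ⟨g, List.mem_range.2 hg7, ?_⟩)
        simpa [sysOf, hg7] using h
      · refine Or.inr ⟨(g - 7) / 200, by omega, ?_⟩
        rw [blkEdges_eq, List.mem_flatMap]
        refine ⟨(g - 7) % 200, List.mem_range.2 (by omega), ?_⟩
        rw [hp _ (by omega)]
        have : 7 + (g - 7) % 200 + 200 * ((g - 7) / 200) = g := by omega
        rw [this]
        simpa [sysOf, hg7] using h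
  · rintro ((h | ⟨g, hg, h⟩) | ⟨p, hp', h⟩)
    · exact Or.inl h
    · rw [List.mem_range] at hg
      refine Or.inr ⟨g, by omega, ?_⟩
      simpa [sysOf, hg] using h
    · rw [blkEdges_eq, List.mem_flatMap] at h
      obtain ⟨s, hs, h⟩ := h
      rw [List.mem_range] at hs
      rw [hp _ hp'] at h
      refine Or.inr ⟨7 + s + 200 * p, by omega, ?_⟩
      have h7 : ¬ (7 + s + 200 * p < 7) := by omega
      have h1 : (7 + s + 200 * p - 7) / 200 = p := by omega
      have h2 : (7 + s + 200 * p - 7) % 200 = s := by omega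
      simp only [sysOf, h7, if_false, h1, h2]
      exact h

end Pool.Agent.Helper89
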